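import Pool.Agent.K3h89.SZ.Stm

/-! SZ brick LAR: the common prime factors of large size. -/

set_option autoImplicit false

open Finset Filter Topology

namespace Pool.Agent.K3h89.SZ

/-- the number of primes `≥ E` which divide a nonzero integer -/
lemma lar_cnt {m : ℤ} (hm : m ≠ 0) {E K : ℝ} (hE : 0 ≤ E) (hK : |(m : ℝ)| ≤ K) (T : Finset ℕ)
    (hT : ∀ p ∈ T, p.Prime ∧ E ≤ p ∧ (p : ℤ) ∣ m) : E ^ T.card ≤ K := by
  have h1 : (∏ p ∈ T, p) ∣ m.natAbs := by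
    refine Finset.prod_primes_dvd _ (fun p hp => (hT p hp).1.prime) fun p hp => ?_
    exact Int.natCast_dvd.1 (hT p hp).2.2
  have h2 : (∏ p ∈ T, p) ≤ m.natAbs := Nat.le_of_dvd (Int.natAbs_pos.2 hm) h1
  have h3 : E ^ T.card ≤ ∏ p ∈ T, (p : ℝ) := by
    rw [← Finset.prod_const]
    exact Finset.prod_le_prod (fun _ _ => hE) fun p hp => (hT p hp).2.1
  have h4 : ((∏ p ∈ T, p : ℕ) : ℝ) ≤ |(m : ℝ)| := by
    rw [← Int.cast_abs, Int.abs_eq_natAbs]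
    exact_mod_cast h2
  rw [Nat.cast_prod] at h4
  exact h3.trans (h4.trans hK)

/-- the product of the four integers -/
def larM (b c : ℤ) (n h : ℕ) : ℤ :=
  (h : ℤ) * ((n : ℤ) - ((h : ℤ) ^ 2 + b * h + c)) * ((n : ℤ) - ((h : ℤ) ^ 2 - b * h + c)) *
    (4 * ((n : ℤ) - c) + b ^ 2 - (h : ℤ) ^ 2)

lemma lar_bd {b c : ℤ} {n h H : ℕ} (h1 : 1 ≤ h)
    (hA : (10 * (1 + |(b : ℝ)| + |(c : ℝ)| + (b : ℝ) ^ 2)) * (h : ℝ) ^ 2 < H) (hn : H ≤ n)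
    (hn' : n ≤ H ^ 2) (hH : 20 ≤ H) :
    larM b c n h ≠ 0 ∧ |((larM b c n h : ℤ) : ℝ)| ≤ (H : ℝ) ^ 8 := by
  have h1' : (1 : ℝ) ≤ h := by exact_mod_cast h1
  have hn1 : (H : ℝ) ≤ n := by exact_mod_cast hn
  have hn2 : (n : ℝ) ≤ (H : ℝ) ^ 2 := by exact_mod_cast hn'
  have hH1 : (20 : ℝ) ≤ H := by exact_mod_cast hH
  have hb0 := abs_nonneg (b : ℝ)
  have hc0 := abs_nonneg (c : ℝ)
  have hb2 := sq_nonneg (b : ℝ)
  have hh2 : (h : ℝ) ≤ (h : ℝ) ^ 2 := by nlinarith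
  have hh3 : (1 : ℝ) ≤ (h : ℝ) ^ 2 := by nlinarith
  have hb1 : -|(b : ℝ)| ≤ b := neg_abs_le _
  have hb1' : (b : ℝ) ≤ |(b : ℝ)| := le_abs_self _
  have hc1 : -|(c : ℝ)| ≤ c := neg_abs_le _
  have hc1' : (c : ℝ) ≤ |(c : ℝ)| := le_abs_self _
  have e1 : |(b : ℝ)| * h ≤ |(b : ℝ)| * (h : ℝ) ^ 2 := mul_le_mul_of_nonneg_left hh2 hb0
  have e2 : |(c : ℝ)| ≤ |(c : ℝ)| * (h : ℝ) ^ 2 := by nlinarith
  have e3 : (b : ℝ) ^ 2 ≤ (b : ℝ) ^ 2 * (h : ℝ) ^ 2 := by nlinarith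
  have e4 : (b : ℝ) * h ≤ |(b : ℝ)| * h := mul_le_mul_of_nonneg_right hb1' (by linarith)
  have e5 : -(|(b : ℝ)| * h) ≤ (b : ℝ) * h := by
    have := mul_le_mul_of_nonneg_right hb1 (show (0 : ℝ) ≤ h by linarith)
    linarith
  have p0 : 0 ≤ |(b : ℝ)| * (h : ℝ) ^ 2 := by positivity
  have p1 : 0 ≤ |(c : ℝ)| * (h : ℝ) ^ 2 := by positivity
  have p2 : 0 ≤ (b : ℝ) ^ 2 * (h : ℝ) ^ 2 := by positivity
  have hA' : 10 * (h : ℝ) ^ 2 + 10 * (|(b : ℝ)| * (h : ℝ) ^ 2) + 10 * (|(c : ℝ)| * (h : ℝ) ^ 2) +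
      10 * ((b : ℝ) ^ 2 * (h : ℝ) ^ 2) < H := by nlinarith
  set x2 : ℝ := (n : ℝ) - ((h : ℝ) ^ 2 + b * h + c) with hx2
  set x3 : ℝ := (n : ℝ) - ((h : ℝ) ^ 2 - b * h + c) with hx3
  set x4 : ℝ := 4 * ((n : ℝ) - c) + (b : ℝ) ^ 2 - (h : ℝ) ^ 2 with hx4
  have a2 : 0 < x2 := by linarith
  have a3 : 0 < x3 := by linarith
  have a4 : 0 < x4 := by linarith
  have hHH : (H : ℝ) ≤ (H : ℝ) ^ 2 := by nlinarith
  have b1 : (h : ℝ) ≤ H := by linarith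
  have b2 : x2 ≤ 2 * (H : ℝ) ^ 2 := by linarith
  have b3 : x3 ≤ 2 * (H : ℝ) ^ 2 := by linarith
  have b4 : x4 ≤ 5 * (H : ℝ) ^ 2 := by linarith
  have hcast : ((larM b c n h : ℤ) : ℝ) = h * x2 * x3 * x4 := by
    simp only [larM, hx2, hx3, hx4]
    push_cast
    ring
  have hpos : 0 < h * x2 * x3 * x4 := by positivity
  constructor
  · intro h0
    rw [h0] at hcast
    rw [← hcast] at hpos
    simp at hpos
  · rw [hcast, abs_of_pos hpos]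
    have c1 : h * x2 ≤ H * (2 * (H : ℝ) ^ 2) := mul_le_mul b1 b2 a2.le (by linarith)
    have c2 : h * x2 * x3 ≤ H * (2 * (H : ℝ) ^ 2) * (2 * (H : ℝ) ^ 2) :=
      mul_le_mul c1 b3 a3.le (by positivity)
    have c3 : h * x2 * x3 * x4 ≤ H * (2 * (H : ℝ) ^ 2) * (2 * (H : ℝ) ^ 2) * (5 * (H : ℝ) ^ 2) :=
      mul_le_mul c2 b4 a4.le (by positivity)
    have c4 : H * (2 * (H : ℝ) ^ 2) * (2 * (H : ℝ) ^ 2) * (5 * (H : ℝ) ^ 2) = 20 * (H : ℝ) ^ 7 := by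
      ring
    have c5 : 20 * (H : ℝ) ^ 7 ≤ H * (H : ℝ) ^ 7 := mul_le_mul_of_nonneg_right hH1 (by positivity)
    calc h * x2 * x3 * x4 ≤ 20 * (H : ℝ) ^ 7 := by rw [← c4]; exact c3
      _ ≤ H * (H : ℝ) ^ 7 := c5
      _ = (H : ℝ) ^ 8 := by ring

lemma lar_union (s : Finset ℕ) (T : ℕ → Finset ℕ) (f : ℕ → ℝ) (hf : ∀ x, 0 ≤ f x) :
    ∑ p ∈ s.biUnion T, f p ≤ ∑ h ∈ s, ∑ p ∈ T h, f p := by
  induction s using Finset.induction_on with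
  | empty => simp
  | insert a s ha ih =>
    rw [Finset.biUnion_insert, Finset.sum_insert ha]
    have h1 := Finset.sum_union_inter (s₁ := T a) (s₂ := s.biUnion T) (f := f)
    have h2 : 0 ≤ ∑ p ∈ T a ∩ s.biUnion T, f p := Finset.sum_nonneg fun _ _ => hf _
    linarith

theorem lar (hS : S_SYSQ) : S_LAR := by
  classical
  intro b c B η hη
  have hcast : Tendsto (fun H : ℕ => (H : ℝ)) atTop atTop := tendsto_natCast_atTop_atTop
  have hlog : Tendsto (fun H : ℕ => Real.log (H : ℝ)) atTop atTop :=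
    Real.tendsto_log_atTop.comp hcast
  have hsq : Tendsto (fun H : ℕ => √(Real.log (H : ℝ))) atTop atTop :=
    Real.tendsto_sqrt_atTop.comp hlog
  set A : ℝ := 10 * (1 + |(b : ℝ)| + |(c : ℝ)| + (b : ℝ) ^ 2) with hA
  have hA0 : 0 < A := by positivity
  have e1 : ∀ᶠ H : ℕ in atTop, A * (Real.log H ^ B) ^ 2 < H := by
    have h1 : ∀ᶠ x : ℝ in atTop, ‖Real.log x ^ (2 * B)‖ ≤ (1 / (2 * A)) * ‖id x‖ :=
      (Real.isLittleO_pow_log_id_atTop (n := 2 * B)).def (by positivity)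
    filter_upwards [hcast.eventually h1, hcast.eventually (eventually_gt_atTop 0)] with H h2 h3
    have h3' : (0 : ℝ) < H := h3
    rw [id, Real.norm_of_nonneg h3'.le] at h2
    have h4 : Real.log (H : ℝ) ^ (2 * B) ≤ 1 / (2 * A) * H := le_trans (Real.le_norm_self _) h2
    have h5 : (Real.log (H : ℝ) ^ B) ^ 2 = Real.log (H : ℝ) ^ (2 * B) := by
      rw [← pow_mul, mul_comm]
    rw [h5]
    have h6 : A * Real.log (H : ℝ) ^ (2 * B) ≤ A * (1 / (2 * A) * H) :=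
      mul_le_mul_of_nonneg_left h4 hA0.le
    have h7 : A * (1 / (2 * A) * (H : ℝ)) = H / 2 := by
      field_simp
    linarith
  have e2 : ∀ᶠ H : ℕ in atTop,
      √(Real.log (H : ℝ)) ^ (2 * B + 1) * Real.exp (-√(Real.log (H : ℝ))) < η / 8 := by
    have h1 := (Real.tendsto_pow_mul_exp_neg_atTop_nhds_zero (2 * B + 1)).comp hsq
    exact h1.eventually (gt_mem_nhds (by positivity))
  have e3 : ∀ᶠ H : ℕ in atTop, (4 : ℝ) ≤ Real.log (H : ℝ) := hlog.eventually_ge_atTop 4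
  obtain ⟨H₀, hH₀⟩ := eventually_atTop.1 (e1.and (e2.and (e3.and (eventually_ge_atTop 20))))
  refine ⟨H₀, fun H hH n hn hn' => ?_⟩
  obtain ⟨f1, f2, f3, f4⟩ := hH₀ H hH
  set L : ℝ := Real.log (H : ℝ) with hL
  have hL0 : 0 ≤ L := by linarith
  set E : ℝ := Real.exp (√L) with hE
  have hu : 0 < √L := Real.sqrt_pos.2 (by linarith)
  have hE2 : 2 < E := by
    have h1 : (2 : ℝ) ≤ √L := by
      rw [show (2 : ℝ) = √4 by
        rw [show (4 : ℝ) = 2 ^ 2 by norm_num, Real.sqrt_sq (by norm_num)]]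
      exact Real.sqrt_le_sqrt f3
    have h2 := Real.add_one_le_exp (√L)
    linarith
  have hE0 : 0 < E := Real.exp_pos _
  set T : ℕ → Finset ℕ := fun h => (Icc 1 H).filter (fun p : ℕ => p.Prime ∧ E ≤ p ∧
    (p : ℤ) ∣ larM b c n h) with hT
  -- the size of `T h`
  have hcard : ∀ h ∈ Icc 1 ⌊L ^ B⌋₊, ((T h).card : ℝ) ≤ 8 * √L := by
    intro h hh
    obtain ⟨hh1, hh2⟩ := Finset.mem_Icc.1 hh
    have hhL : (h : ℝ) ≤ L ^ B := (Nat.le_floor_iff (by positivity)).1 hh2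
    have hhA : A * (h : ℝ) ^ 2 < H := by
      refine lt_of_le_of_lt (mul_le_mul_of_nonneg_left ?_ hA0.le) f1
      exact pow_le_pow_left₀ (Nat.cast_nonneg _) hhL 2
    obtain ⟨g1, g2⟩ := lar_bd (b := b) (c := c) hh1 hhA hn hn' f4
    have g3 := lar_cnt g1 hE0.le g2 (T h) fun p hp => (Finset.mem_filter.1 hp).2
    have g4 := Real.log_le_log (pow_pos hE0 _) g3
    rw [Real.log_pow, Real.log_pow, hE, Real.log_exp, ← hL] at g4
    have g5 : L = √L * √L := (Real.mul_self_sqrt hL0).symm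
    have g6 : ((T h).card : ℝ) * √L ≤ (8 * √L) * √L := by
      rw [mul_assoc, ← g5]
      exact_mod_cast g4
    exact le_of_mul_le_mul_right g6 hu
  -- the sum
  have hsub : ((Icc 1 H).filter (fun p : ℕ => p.Prime ∧ Real.exp (√(Real.log H)) ≤ p ∧
      ∃ h : ℕ, 1 ≤ h ∧ (h : ℝ) ≤ Real.log H ^ B ∧ CF (Fq b c n) h p)) ⊆
      (Icc 1 ⌊L ^ B⌋₊).biUnion T := by
    intro p hp
    obtain ⟨hp1, hp2, hp3, h, hh1, hh2, hh3⟩ := Finset.mem_filter.1 hp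
    refine Finset.mem_biUnion.2 ⟨h, Finset.mem_Icc.2 ⟨hh1, Nat.le_floor hh2⟩,
      Finset.mem_filter.2 ⟨hp1, hp2, hp3, ?_⟩⟩
    have hp2' : p ≠ 2 := by
      rintro rfl
      have h1 : E ≤ ((2 : ℕ) : ℝ) := hp3
      have h2 : ((2 : ℕ) : ℝ) = 2 := by norm_num
      linarith
    unfold larM
    rcases (hS b c n).2 h p hp2 hp2' hh3 with h1 | h1 | h1 | h1
    · have h2 : (p : ℤ) ∣ (h : ℤ) := Int.natCast_dvd_natCast.2 h1
      exact ((h2.mul_right _).mul_right _).mul_right _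
    · exact ((h1.mul_left _).mul_right _).mul_right _
    · exact (h1.mul_left _).mul_right _
    · exact h1.mul_left _
  have hin : ∀ h ∈ Icc 1 ⌊L ^ B⌋₊, ∑ p ∈ T h, (1 : ℝ) / p ≤ 8 * √L * Real.exp (-√L) := by
    intro h hh
    have h1 : ∀ p ∈ T h, (1 : ℝ) / p ≤ Real.exp (-√L) := by
      intro p hp
      obtain ⟨-, -, h2, -⟩ := Finset.mem_filter.1 hp
      rw [Real.exp_neg, ← hE, one_div]
      exact inv_anti₀ hE0 h2
    calc ∑ p ∈ T h, (1 : ℝ) / p ≤ ∑ _p ∈ T h, Real.exp (-√L) := Finset.sum_le_sum h1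
      _ = (T h).card * Real.exp (-√L) := by rw [Finset.sum_const, nsmul_eq_mul]
      _ ≤ 8 * √L * Real.exp (-√L) :=
        mul_le_mul_of_nonneg_right (hcard h hh) (Real.exp_pos _).le
  calc _ ≤ ∑ p ∈ (Icc 1 ⌊L ^ B⌋₊).biUnion T, (1 : ℝ) / p :=
        Finset.sum_le_sum_of_subset_of_nonneg hsub fun _ _ _ => by positivity
    _ ≤ ∑ h ∈ Icc 1 ⌊L ^ B⌋₊, ∑ p ∈ T h, (1 : ℝ) / p :=
        lar_union _ _ _ fun _ => by positivity
    _ ≤ ∑ _h ∈ Icc 1 ⌊L ^ B⌋₊, 8 * √L * Real.exp (-√L) := Finset.sum_le_sum hin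
    _ = (⌊L ^ B⌋₊ : ℝ) * (8 * √L * Real.exp (-√L)) := by
        rw [Finset.sum_const, nsmul_eq_mul, Nat.card_Icc, Nat.add_sub_cancel]
    _ ≤ L ^ B * (8 * √L * Real.exp (-√L)) :=
        mul_le_mul_of_nonneg_right (Nat.floor_le (by positivity)) (by positivity)
    _ = 8 * (√L ^ (2 * B + 1) * Real.exp (-√L)) := by
        have h1 : √L ^ (2 * B + 1) = L ^ B * √L := by
          rw [pow_succ, pow_mul, Real.sq_sqrt hL0]
        rw [h1]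
        ring
    _ ≤ η := by linarith

end Pool.Agent.K3h89.SZ
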