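import Pool.Agent.K3h89.SZ.Stm

/-! SZ brick SYSQ: the systems `x (n - f(x))` and their common prime factors. -/

set_option autoImplicit false

open Finset

namespace Pool.Agent.K3h89.SZ

open Pool.Agent.Y677.RSZ (rt)

lemma sysq_int {b c : ℤ} {n : ℕ} {p : ℕ} (hp : p.Prime) {x : ℤ}
    (h : (p : ℤ) ∣ Fq b c n x) :
    (p : ℤ) ∣ x ∨ (p : ℤ) ∣ (n : ℤ) - (x ^ 2 + b * x + c) :=
  (Nat.prime_iff_prime_int.1 hp).dvd_or_dvd h

lemma sysq_rt (b c : ℤ) (n : ℕ) {p : ℕ} (hp : p.Prime) : rt (Fq b c n) p ≤ 3 := by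
  classical
  have := Fact.mk hp
  let P : Polynomial (ZMod p) := Polynomial.X ^ 3 + (Polynomial.C ((b : ℤ) : ZMod p) *
    Polynomial.X ^ 2 + Polynomial.C (((c : ℤ) : ZMod p) - ((n : ℕ) : ZMod p)) * Polynomial.X)
  have hlow : (Polynomial.C ((b : ℤ) : ZMod p) * Polynomial.X ^ 2 +
      Polynomial.C (((c : ℤ) : ZMod p) - ((n : ℕ) : ZMod p)) * Polynomial.X).degree
        < ((3 : ℕ) : WithBot ℕ) := by
    refine lt_of_le_of_lt (Polynomial.degree_add_le _ _) (max_lt ?_ ?_)
    · refine lt_of_le_of_lt (Polynomial.degree_C_mul_X_pow_le 2 _) ?_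
      norm_num
    · refine lt_of_le_of_lt (Polynomial.degree_C_mul_X_le _) ?_
      norm_num
  have hmon : P.Monic := Polynomial.monic_X_pow_add hlow
  have hP0 : P ≠ 0 := hmon.ne_zero
  have hdeg : P.natDegree ≤ 3 := by
    have h1 : P.degree ≤ ((3 : ℕ) : WithBot ℕ) := by
      refine le_trans (Polynomial.degree_add_le _ _) (max_le ?_ hlow.le)
      exact Polynomial.degree_X_pow_le 3
    exact Polynomial.natDegree_le_iff_degree_le.2 h1
  have hcard : P.roots.toFinset.card ≤ 3 :=
    le_trans (Multiset.toFinset_card_le _) (le_trans (Polynomial.card_roots' P) hdeg)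
  refine le_trans ?_ hcard
  unfold rt
  refine Finset.card_le_card_of_injOn (fun r : ℕ => (r : ZMod p)) ?_ ?_
  · intro r hr
    have hr' := (Finset.mem_filter.1 hr).2
    rw [Finset.mem_coe, Multiset.mem_toFinset, Polynomial.mem_roots hP0]
    have h1 : ((Fq b c n (r : ℤ) : ℤ) : ZMod p) = 0 :=
      (ZMod.intCast_zmod_eq_zero_iff_dvd _ p).2 hr'
    unfold Fq at h1
    push_cast at h1
    show P.eval (r : ZMod p) = 0
    simp only [P, Polynomial.eval_add, Polynomial.eval_pow, Polynomial.eval_X,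
      Polynomial.eval_mul, Polynomial.eval_C]
    linear_combination -h1
  · intro r hr s hs hrs
    have hr1 := Finset.mem_range.1 (Finset.mem_filter.1 hr).1
    have hs1 := Finset.mem_range.1 (Finset.mem_filter.1 hs).1
    have h1 : (r : ZMod p) = (s : ZMod p) := hrs
    rw [ZMod.natCast_eq_natCast_iff'] at h1
    rwa [Nat.mod_eq_of_lt hr1, Nat.mod_eq_of_lt hs1] at h1

lemma sysq_lt {F : ℤ → ℤ} {p r : ℕ} (hr : r < p) (h : ¬ (p : ℤ) ∣ F r) : rt F p < p := by
  classical
  unfold rt
  conv_rhs => rw [← Finset.card_range p]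
  refine Finset.card_lt_card ((Finset.ssubset_iff_of_subset (Finset.filter_subset _ _)).2
    ⟨r, Finset.mem_range.2 hr, fun h' => h (Finset.mem_filter.1 h').2⟩)

theorem sysq : S_SYSQ := by
  intro b c n
  refine ⟨fun hbc hb hn => ⟨?_, ?_⟩, ?_⟩
  · -- periodicity
    intro p hp x
    have h1 : (p : ℤ) ∣ Fq b c n (x + p) - Fq b c n x := by
      refine ⟨(n : ℤ) - ((x + p) ^ 2 + b * (x + p) + c) - x * (2 * x + p + b), ?_⟩
      unfold Fq
      ring
    constructor
    · intro h
      have := (Int.dvd_iff_dvd_of_dvd_sub h1).1 h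
      exact this
    · intro h
      exact (Int.dvd_iff_dvd_of_dvd_sub h1).2 h
  · intro p hp
    have h3 := sysq_rt b c n hp
    refine ⟨h3.trans (by norm_num), ?_⟩
    by_cases h5 : 5 ≤ p
    · omega
    have hp2 := hp.two_le
    have h4 : p ≠ 4 := by
      rintro rfl
      exact absurd hp (by norm_num)
    have h6 : p = 2 ∨ p = 3 := by omega
    rcases h6 with rfl | rfl
    · refine sysq_lt (r := 1) (by norm_num) ?_
      unfold Fq
      intro h
      obtain ⟨u, hu⟩ := hbc
      obtain ⟨w, hw⟩ := hn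
      push_cast at h
      have hn' : (n : ℤ) = 2 * w + 1 := by exact_mod_cast hw
      rw [hn'] at h
      obtain ⟨z, hz⟩ := h
      omega
    · by_cases h1 : ((3 : ℕ) : ℤ) ∣ Fq b c n ((1 : ℕ) : ℤ)
      · refine sysq_lt (r := 2) (by norm_num) ?_
        intro h2
        apply hb
        unfold Fq at h1 h2
        push_cast at h1 h2
        obtain ⟨z, hz⟩ := h1
        obtain ⟨w, hw⟩ := h2
        omega
      · exact sysq_lt (r := 1) (by norm_num) h1
  · rintro h p hp hp2 ⟨x, hx, hy⟩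
    have hpi := Nat.prime_iff_prime_int.1 hp
    rcases sysq_int hp hx with h1 | h1 <;> rcases sysq_int hp hy with h2 | h2
    · left
      have h3 : (p : ℤ) ∣ (h : ℤ) := by
        have := dvd_sub h2 h1
        have e : x + (h : ℤ) - x = h := by ring
        rwa [e] at this
      exact Int.natCast_dvd_natCast.1 h3
    · right; left
      have h3 : (n : ℤ) - ((h : ℤ) ^ 2 + b * h + c) =
          ((n : ℤ) - ((x + h) ^ 2 + b * (x + h) + c)) + x * (x + 2 * h + b) := by ring
      rw [h3]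
      exact dvd_add h2 (Dvd.dvd.mul_right h1 _)
    · right; right; left
      have h3 : (n : ℤ) - ((h : ℤ) ^ 2 - b * h + c) =
          ((n : ℤ) - (x ^ 2 + b * x + c)) + (x + h) * (x - h + b) := by ring
      rw [h3]
      exact dvd_add h1 (Dvd.dvd.mul_right h2 _)
    · have h3 : (p : ℤ) ∣ (h : ℤ) * (2 * x + h + b) := by
        have := dvd_sub h1 h2
        have e : (n : ℤ) - (x ^ 2 + b * x + c) - ((n : ℤ) - ((x + h) ^ 2 + b * (x + h) + c)) =
            (h : ℤ) * (2 * x + h + b) := by ring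
        rwa [e] at this
      rcases hpi.dvd_or_dvd h3 with h4 | h4
      · left
        exact Int.natCast_dvd_natCast.1 h4
      · right; right; right
        have h5 : 4 * ((n : ℤ) - c) + b ^ 2 - (h : ℤ) ^ 2 =
            4 * ((n : ℤ) - (x ^ 2 + b * x + c)) + (2 * x + h + b) * (2 * x + b - h) := by ring
        rw [h5]
        exact dvd_add (Dvd.dvd.mul_left h1 _) (Dvd.dvd.mul_right h4 _)

end Pool.Agent.K3h89.SZ
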