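import Pool.Agent.K3h89.SZ.Stm
import Pool.Agent.Y677.RSZ.Eng2

/-!
# Project SZ (helper89): basic facts for weak systems
-/

set_option autoImplicit false

open Finset

namespace Pool.Agent.K3h89.SZ

open Pool.Agent.TH423.SH (PS)
open Pool.Agent.Y677.RSZ (rt rhoT V rs qfr PR rt_le fac_nonneg fac_le V_le_one V_split)

/-- periodicity -/
theorem perP {F : ℤ → ℤ} {p : ℕ} (hper : ∀ n : ℤ, (p : ℤ) ∣ F (n + p) ↔ (p : ℤ) ∣ F n) (n n' : ℤ)
    (h : (p : ℤ) ∣ n' - n) : (p : ℤ) ∣ F n' ↔ (p : ℤ) ∣ F n := by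
  obtain ⟨k, hk⟩ := h
  have key : ∀ k : ℤ, ((p : ℤ) ∣ F (n + p * k) ↔ (p : ℤ) ∣ F n) := by
    intro k
    induction k using Int.induction_on with
    | zero => simp
    | succ i ih =>
      have h1 := hper (n + p * i)
      have e : n + (p : ℤ) * (i + 1) = n + p * i + p := by ring
      rw [e, h1, ih]
    | pred i ih =>
      have h1 := hper (n + p * (-(i : ℤ) - 1))
      have e : n + (p : ℤ) * (-(i : ℤ) - 1) + p = n + p * (-(i : ℤ)) := by ring
      rw [e] at h1
      rw [← h1, ih]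
  have h1 := key k
  rw [← hk] at h1
  have e : n + (n' - n) = n' := by ring
  rwa [e] at h1

/-- periodicity, natural numbers -/
theorem perP_mod {F : ℤ → ℤ} {p : ℕ} (hper : ∀ n : ℤ, (p : ℤ) ∣ F (n + p) ↔ (p : ℤ) ∣ F n)
    (m n : ℕ) (h : m ≡ n [MOD p]) : (p : ℤ) ∣ F m ↔ (p : ℤ) ∣ F n :=
  perP hper n m (Nat.modEq_iff_dvd.1 h.symm)

open Classical in
/-- the indicator function at one prime -/
noncomputable def ind (F : ℤ → ℤ) (p : ℕ) (x : ℤ) : ℤ := if (p : ℤ) ∣ F x then 0 else 1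

theorem ind_dvd (F : ℤ → ℤ) {p : ℕ} (hp : p.Prime) (x : ℤ) : (p : ℤ) ∣ ind F p x ↔ (p : ℤ) ∣ F x := by
  unfold ind
  split_ifs with h
  · simp [h]
  · simp only [h, iff_false]
    intro h1
    exact hp.one_lt.ne' (Nat.dvd_one.1 (by exact_mod_cast h1))

theorem ind_per {F : ℤ → ℤ} {p : ℕ} (hper : ∀ n : ℤ, (p : ℤ) ∣ F (n + p) ↔ (p : ℤ) ∣ F n) (n : ℤ) :
    (p : ℤ) ∣ ind F p (n + p) - ind F p n := by
  unfold ind
  by_cases h : (p : ℤ) ∣ F n
  · rw [if_pos h, if_pos ((hper n).2 h)]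
    simp
  · rw [if_neg h, if_neg (fun h1 => h ((hper n).1 h1))]
    simp

theorem rt_ind (F : ℤ → ℤ) {p : ℕ} (hp : p.Prime) : rt (ind F p) p = rt F p := by
  unfold rt
  congr 1
  ext r
  rw [mem_filter, mem_filter, ind_dvd F hp]

theorem card_filter_eq' {s : Finset ℕ} {P Q : ℕ → Prop} {i : DecidablePred P}
    {j : DecidablePred Q} (h : ∀ r ∈ s, P r ↔ Q r) :
    (@Finset.filter _ P i s).card = (@Finset.filter _ Q j s).card := by
  congr 1
  ext r
  simp only [mem_filter]
  exact and_congr_right fun hr => h r hr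

/-- the roots along a progression with difference prime to `p` -/
theorem card_shiftP {F : ℤ → ℤ} {p : ℕ} (hp : p.Prime)
    (hper : ∀ n : ℤ, (p : ℤ) ∣ F (n + p) ↔ (p : ℤ) ∣ F n) (W b t : ℕ) (hW : ¬ p ∣ W) :
    ((range p).filter (fun r : ℕ => (p : ℤ) ∣ F ((W * (r + t) + b : ℕ) : ℤ))).card = rt F p := by
  have h := Pool.Agent.Y833.RSZ.card_shift (F := ind F p) hp (ind_per hper) W b t hW
  rw [rt_ind F hp] at h
  rw [← h]
  exact card_filter_eq' fun r _ => (ind_dvd F hp _).symm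

section basic

variable {F : ℤ → ℤ} {g : ℕ}

theorem fac_posP (hF : SysP g F) {p : ℕ} (hp : p.Prime) : 0 < 1 - (rt F p : ℝ) / p := by
  have h0 : (0 : ℝ) < p := by exact_mod_cast hp.pos
  rw [sub_pos, div_lt_one h0]
  exact_mod_cast (hF.root p hp).2

theorem V_posP (hF : SysP g F) (W z : ℕ) : 0 < V F W z := by
  unfold V
  apply prod_pos
  intro p hp
  unfold PS at hp
  rw [mem_filter] at hp
  exact fac_posP hF hp.2.1

end basic

open Classical in
/-- the number of good classes modulo a squarefree number; `S_PIG` for weak systems -/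
theorem pigP (F : ℤ → ℤ) (hF : ∀ p : ℕ, p.Prime → ∀ n : ℤ, (p : ℤ) ∣ F (n + p) ↔ (p : ℤ) ∣ F n)
    (W : ℕ) (hW : Squarefree W) :
    ((range W).filter (fun b : ℕ => ∀ p ∈ W.primeFactors, ¬ (p : ℤ) ∣ F b)).card =
      ∏ p ∈ W.primeFactors, (p - rt F p) := by
  have h1 := Pool.Agent.Y833.RSZ.card_prod W.primeFactors (fun p hp => Nat.prime_of_mem_primeFactors hp)
    (fun p r => ¬ (p : ℤ) ∣ F ((r : ℕ) : ℤ)) (by
      intro p hp r
      rw [not_iff_not]
      exact perP_mod (hF p (Nat.prime_of_mem_primeFactors hp)) _ _ (Nat.mod_modEq r p).symm)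
  rw [Nat.prod_primeFactors_of_squarefree hW] at h1
  refine Eq.trans ?_ (h1.trans ?_)
  · exact card_filter_eq' fun r _ => Iff.rfl
  · apply prod_congr rfl
    intro p _
    have h2 := card_filter_add_card_filter_not (s := range p) (p := fun r : ℕ => (p : ℤ) ∣ F (r : ℤ))
    rw [card_range] at h2
    unfold rt
    have e1 : ((range p).filter (fun r : ℕ => ¬ (p : ℤ) ∣ F (r : ℤ))).card =
      p - ((range p).filter (fun r : ℕ => (p : ℤ) ∣ F (r : ℤ))).card := by
        have e2 : ((range p).filter (fun r : ℕ => (p : ℤ) ∣ F (r : ℤ))).card =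
          (@Finset.filter _ (fun r : ℕ => (p : ℤ) ∣ F (r : ℤ)) (fun r => Classical.propDecidable _) (range p)).card :=
          card_filter_eq' fun r _ => Iff.rfl
        omega
    convert e1

/-- a lower bound for the sieve product -/
theorem V_lowerP : ∃ K : ℝ, 1 ≤ K ∧ ∀ (g : ℕ) (F : ℤ → ℤ) (W H : ℕ), SysP g F → 2 ≤ H →
    (∀ p : ℕ, p.Prime → p ≤ 2 * g + 2 → p ∣ W) → 1 / (K * Real.log H) ^ (2 * g) ≤ V F W H := by
  obtain ⟨K, hK, hV⟩ := Pool.Agent.Y674.PSP.VV_le
  refine ⟨max K 1 * (1 / Real.log 2), ?_, fun g F W H hF hH hW => ?_⟩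
  · have h2 : 0 < Real.log 2 := Real.log_pos (by norm_num)
    have h3 : Real.log 2 ≤ 1 := by linarith [Real.log_two_lt_d9]
    have h4 : 1 ≤ 1 / Real.log 2 := by rw [le_div_iff₀ h2]; linarith
    have h5 : 1 ≤ max K 1 := le_max_right _ _
    nlinarith
  have hlog2 : 0 < Real.log 2 := Real.log_pos (by norm_num)
  have hlogH : Real.log 2 ≤ Real.log H := Real.log_le_log (by norm_num) (by exact_mod_cast hH)
  have h1 := hV H hH
  have hVV0 : 0 < Pool.Agent.Y674.PSP.VV H := by
    unfold Pool.Agent.Y674.PSP.VV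
    apply prod_pos
    intro p hp
    rw [mem_filter] at hp
    have h2 : (1 : ℝ) < p := by exact_mod_cast hp.2.one_lt
    have h3 : (p : ℝ)⁻¹ < 1 := inv_lt_one_of_one_lt₀ h2
    have : 0 < 1 - (p : ℝ)⁻¹ := by linarith
    positivity
  have hmax : Pool.Agent.Y674.PSP.VV H ≤ max K 1 * (1 / Real.log 2) * Real.log H := by
    refine h1.trans ?_
    have h4 : 1 ≤ 1 / Real.log 2 := by
      rw [le_div_iff₀ hlog2]; linarith [Real.log_two_lt_d9]
    have h5 : K ≤ max K 1 := le_max_left _ _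
    have h6 : (0 : ℝ) < max K 1 := lt_of_lt_of_le one_pos (le_max_right _ _)
    have h7 : K ≤ max K 1 * (1 / Real.log 2) := by nlinarith
    exact mul_le_mul_of_nonneg_right h7 (by linarith)
  calc 1 / (max K 1 * (1 / Real.log 2) * Real.log H) ^ (2 * g) ≤
      1 / (Pool.Agent.Y674.PSP.VV H) ^ (2 * g) := by
        apply one_div_le_one_div_of_le (by positivity)
        exact pow_le_pow_left₀ hVV0.le hmax _
    _ = ∏ p ∈ (Icc 1 H).filter Nat.Prime, (1 - (p : ℝ)⁻¹) ^ (2 * g) := by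
        unfold Pool.Agent.Y674.PSP.VV
        rw [prod_pow, one_div, ← inv_pow, ← prod_inv_distrib]
        simp only [inv_inv]
    _ ≤ ∏ p ∈ PS W H, (1 - (p : ℝ)⁻¹) ^ (2 * g) := by
        have hsub : PS W H ⊆ (Icc 1 H).filter Nat.Prime := by
          intro p hp
          unfold PS at hp
          rw [mem_filter] at hp ⊢
          exact ⟨hp.1, hp.2.1⟩
        have hall : ∀ p ∈ (Icc 1 H).filter Nat.Prime, 0 ≤ (1 - (p : ℝ)⁻¹) ^ (2 * g) ∧
            (1 - (p : ℝ)⁻¹) ^ (2 * g) ≤ 1 := by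
          intro p hp
          rw [mem_filter] at hp
          have h2 : (1 : ℝ) < p := by exact_mod_cast hp.2.one_lt
          have h3 : (p : ℝ)⁻¹ < 1 := inv_lt_one_of_one_lt₀ h2
          have h4 : 0 < (p : ℝ)⁻¹ := by positivity
          exact ⟨pow_nonneg (by linarith) _, pow_le_one₀ (by linarith) (by linarith)⟩
        rw [← prod_sdiff hsub]
        apply mul_le_of_le_one_left
        · exact prod_nonneg fun p hp => (hall p (hsub hp)).1
        · exact prod_le_one (fun p hp => (hall p (mem_sdiff.1 hp).1).1)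
            (fun p hp => (hall p (mem_sdiff.1 hp).1).2)
    _ ≤ V F W H := by
        unfold V
        apply prod_le_prod
        · intro p hp
          unfold PS at hp
          rw [mem_filter] at hp
          have h2 : (1 : ℝ) < p := by exact_mod_cast hp.2.1.one_lt
          have h3 : (p : ℝ)⁻¹ < 1 := inv_lt_one_of_one_lt₀ h2
          have : 0 ≤ 1 - (p : ℝ)⁻¹ := by linarith
          positivity
        · intro p hp
          unfold PS at hp
          rw [mem_filter] at hp
          have hpg : 2 * g + 2 < p := by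
            by_contra hcon
            exact hp.2.2 (hW p hp.2.1 (by omega))
          have hp0 : (0 : ℝ) < p := by exact_mod_cast hp.2.1.pos
          have hpg' : (2 : ℝ) * g + 2 ≤ p := by exact_mod_cast hpg.le
          have hr : (rt F p : ℝ) ≤ g := by exact_mod_cast (hF.root p hp.2.1).1
          have hx : (p : ℝ)⁻¹ * (2 * g + 2) ≤ 1 := by
            rw [inv_mul_le_iff₀ hp0]; linarith
          have hx0 : 0 < (p : ℝ)⁻¹ := by positivity
          have h5 : (1 - (p : ℝ)⁻¹) ^ (2 * g) ≤ 1 - g * (p : ℝ)⁻¹ := by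
            have hg0 := (Nat.cast_nonneg g : (0 : ℝ) ≤ g)
            have hx1 : (p : ℝ)⁻¹ ≤ 1 := by nlinarith
            have h6 : 1 + ((2 * g : ℕ) : ℝ) * (p : ℝ)⁻¹ ≤ (1 + (p : ℝ)⁻¹) ^ (2 * g) :=
              one_add_mul_le_pow (by linarith) _
            push_cast at h6
            have h8 : (1 - (p : ℝ)⁻¹) ^ (2 * g) * (1 + (p : ℝ)⁻¹) ^ (2 * g) ≤ 1 := by
              rw [← mul_pow]
              apply pow_le_one₀
              · nlinarith
              · nlinarith
            have h9 : 0 ≤ (1 - (p : ℝ)⁻¹) ^ (2 * g) := pow_nonneg (by linarith) _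
            have h10 : (1 - (p : ℝ)⁻¹) ^ (2 * g) * (1 + 2 * g * (p : ℝ)⁻¹) ≤ 1 :=
              (mul_le_mul_of_nonneg_left h6 h9).trans h8
            have h11 : 1 ≤ (1 - g * (p : ℝ)⁻¹) * (1 + 2 * g * (p : ℝ)⁻¹) := by
              have h12 : 0 ≤ (g : ℝ) * (p : ℝ)⁻¹ := by positivity
              nlinarith
            have h13 : 0 < 1 + 2 * g * (p : ℝ)⁻¹ := by positivity
            exact le_of_mul_le_mul_right (h10.trans h11) h13
          have h7 : (rt F p : ℝ) / p ≤ g * (p : ℝ)⁻¹ := by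
            rw [div_eq_mul_inv]
            exact mul_le_mul_of_nonneg_right hr hx0.le
          linarith

end Pool.Agent.K3h89.SZ
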