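import Pool.Agent.K3h89.SZ.Base
import Pool.Agent.Y677.RSZ.Eng4

/-! SZ brick ENGP: assembly of the relative Szemerédi theorem for weak systems. -/

set_option autoImplicit false

open Finset

namespace Pool.Agent.K3h89.SZ

open Pool.Agent.H602R3.DHJ
open Pool.Agent.TH423.SH (PS)
open Pool.Agent.Y677.RSZ (rt rhoT V rs rt_le V_split wK gK gK_nonneg gK_le goodK nums exN exW)
open Pool.Agent.Y727.PSP (LFk rp rp_pos rp_le sum_rp exAP lift LF_mono rp_cast)

/-- some class modulo `W` contains as many elements of `A` as expected -/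
theorem exbP {g : ℕ} {F : ℤ → ℤ} (hF : SysP g F) (W H : ℕ) (hW : Squarefree W)
    (hWH : ∀ p : ℕ, p.Prime → p ∣ W → p ≤ H) (A : Finset ℕ) (κ : ℝ) (hκ : 0 < κ) (hH : 1 ≤ H)
    (hA : ∀ n ∈ A, ∀ p ∈ W.primeFactors, ¬ (p : ℤ) ∣ F (n : ℤ))
    (hAc : κ * (H * V F 1 H) ≤ A.card) :
    ∃ b < W, κ * (H / W * V F W H) ≤ ((A.filter (fun n => n % W = b)).card : ℝ) := by
  classical
  have hW0 : 0 < W := Nat.pos_of_ne_zero hW.ne_zero
  have hW0' : (0 : ℝ) < W := by exact_mod_cast hW0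
  have hH0 : (0 : ℝ) < H := by exact_mod_cast hH
  set Bs := (range W).filter (fun b : ℕ => ∀ p ∈ W.primeFactors, ¬ (p : ℤ) ∣ F b) with hBs
  have hBc : (Bs.card : ℝ) = W * ∏ p ∈ W.primeFactors, (1 - (rt F p : ℝ) / p) := by
    have h1 : Bs.card = ∏ p ∈ W.primeFactors, (p - rt F p) := by
      rw [hBs]
      have := pigP F hF.per W hW
      convert this
    rw [h1, Nat.cast_prod]
    have h2 : (W : ℝ) = ∏ p ∈ W.primeFactors, (p : ℝ) := by
      conv_lhs => rw [← Nat.prod_primeFactors_of_squarefree hW]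
      push_cast
      rfl
    conv_rhs => rw [h2]
    rw [← prod_mul_distrib]
    apply prod_congr rfl
    intro p hp
    have hp0 : (p : ℝ) ≠ 0 := by
      have := (Nat.prime_of_mem_primeFactors hp).pos
      positivity
    rw [Nat.cast_sub (rt_le p)]
    field_simp
  have hmaps : ∀ n ∈ A, n % W ∈ Bs := by
    intro n hn
    rw [hBs, mem_filter, mem_range]
    refine ⟨Nat.mod_lt _ hW0, fun p hp h => ?_⟩
    apply hA n hn p hp
    have hpp := Nat.prime_of_mem_primeFactors hp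
    refine (perP_mod (hF.per p hpp) n (n % W) ?_).2 h
    exact (Nat.mod_modEq n W).symm.of_dvd (Nat.dvd_of_mem_primeFactors hp)
  have hVp := V_posP hF 1 H
  have hAne : A.Nonempty := by
    rw [← card_pos]
    have : (0 : ℝ) < A.card := lt_of_lt_of_le (by positivity) hAc
    exact_mod_cast this
  have hBne : Bs.Nonempty := by
    obtain ⟨n, hn⟩ := hAne
    exact ⟨_, hmaps n hn⟩
  have hBpos : (0 : ℝ) < Bs.card := by
    have := card_pos.2 hBne
    exact_mod_cast this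
  have hprod : 0 < ∏ p ∈ W.primeFactors, (1 - (rt F p : ℝ) / p) := by
    rw [hBc] at hBpos
    exact (mul_pos_iff_of_pos_left hW0').1 hBpos
  by_contra hcon
  push Not at hcon
  have h3 : (A.card : ℝ) = ∑ b ∈ Bs, ((A.filter (fun n => n % W = b)).card : ℝ) := by
    rw [card_eq_sum_card_fiberwise hmaps]
    push_cast
    rfl
  have h4 : (A.card : ℝ) < ∑ _b ∈ Bs, κ * (H / W * V F W H) := by
    rw [h3]
    apply sum_lt_sum_of_nonempty hBne
    intro b hb
    rw [hBs, mem_filter, mem_range] at hb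
    exact hcon b hb.1
  rw [sum_const, nsmul_eq_mul, hBc] at h4
  have h5 := V_split (F := F) W H hW0.ne' hWH
  have h6 : (W : ℝ) * (∏ p ∈ W.primeFactors, (1 - (rt F p : ℝ) / p)) * (κ * (H / W * V F W H)) =
      κ * (H * V F 1 H) := by
    rw [h5]
    field_simp
  rw [h6] at h4
  linarith

open Classical in
theorem engP (hRS : Pool.Agent.Y727.PSP.S_RS) (hMK : Pool.Agent.Y677.RSZ.S_MK) (hMAJ : S_MAJP) :
    S_ENGP := by
  intro k g δ κ hk hδ hκ
  set M : ℕ := 2 * (k * 2 ^ k) with hM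
  obtain ⟨c, hc, hMAJ⟩ := hMAJ g M δ hδ
  obtain ⟨δ₀, hδ₀d⟩ : ∃ δ₀ : ℝ, δ₀ = c * κ / 24 := ⟨_, rfl⟩
  have hδ₀ : 0 < δ₀ := by rw [hδ₀d]; positivity
  obtain ⟨cR, ηR, hcR, hηR, hRS⟩ := hRS k hk δ₀ hδ₀
  obtain ⟨η, hηd⟩ : ∃ η : ℝ, η = min ηR δ₀ := ⟨_, rfl⟩
  have hη : 0 < η := by rw [hηd]; exact lt_min hηR hδ₀
  have hηR' : η ≤ ηR := by rw [hηd]; exact min_le_left _ _
  have hηδ : η ≤ δ₀ := by rw [hηd]; exact min_le_right _ _
  obtain ⟨η', hη', hMK⟩ := hMK k hk η hη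
  obtain ⟨ε, hε, B, s₀, hMAJ⟩ := hMAJ η' hη'
  obtain ⟨BN, hBN⟩ : ∃ BN : ℕ, BN = M * B + k * B + 1 := ⟨_, rfl⟩
  obtain ⟨B', hB'⟩ : ∃ B' : ℕ, B' = 2 * BN + 3 := ⟨_, rfl⟩
  obtain ⟨H₁, hMAJ⟩ := hMAJ B'
  obtain ⟨q, hq1, hq⟩ := Nat.exists_infinite_primes (2 * g + 2)
  obtain ⟨s1, hs1⟩ : ∃ s1 : ℕ, s1 = ⌈s₀⌉₊ + q := ⟨_, rfl⟩
  obtain ⟨KV, hKV1, hKV⟩ := V_lowerP
  obtain ⟨H₂, hnum⟩ := nums k g BN s1 B' δ κ η' cR KV hδ hκ hη' hcR hB'
  refine ⟨ε, hε, 2 * B', max H₁ H₂, ?_⟩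
  intro F Y H A hF hH hsize hCF1 hCF2 hAsub hArough hAcard
  obtain ⟨n1, n2, n3, n4, n5, n6, n7, n8, n9, n10⟩ := hnum H ((le_max_right _ _).trans hH)
  have hHH₁ : H₁ ≤ H := (le_max_left _ _).trans hH
  obtain ⟨l, hl⟩ : ∃ l : ℝ, l = Real.log H := ⟨_, rfl⟩
  rw [← hl] at n2 n3 n4 n5 n6 n7 n8 n9 n10 hCF1 hCF2 ⊢
  have hk0 := (Nat.cast_nonneg k : (0 : ℝ) ≤ k)
  have hl8 : 8 ≤ l := by linarith
  have hl1 : 1 ≤ l := by linarith
  have hl0 : 0 < l := by linarith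
  have hH0 : (0 : ℝ) < H := by exact_mod_cast (show 0 < H by omega)
  have hlBN : l ≤ l ^ BN := le_self_pow₀ hl1 (by omega)
  obtain ⟨N, hNp, hNk, hN1, hN2⟩ := exN k (l ^ BN) (n2.trans hlBN)
  have : NeZero N := ⟨hNp.ne_zero⟩
  have hN0 : (0 : ℝ) < N := by exact_mod_cast hNp.pos
  have hNB' : (N : ℝ) ≤ l ^ B' := hN2.trans n6
  obtain ⟨S, hS⟩ : ∃ S : ℕ, S = s1 + ⌈Real.log N⌉₊ := ⟨_, rfl⟩
  obtain ⟨W, hW⟩ : ∃ W : ℕ, W = primorial S := ⟨_, rfl⟩
  obtain ⟨hW1, hW2⟩ := exW s1 N hNp.one_lt.le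
  rw [← hS, ← hW] at hW1 hW2
  have hWpos : 0 < W := by rw [hW]; exact primorial_pos S
  have hW0 : (0 : ℝ) < W := by exact_mod_cast hWpos
  have hWB' : (W : ℝ) ≤ l ^ B' := by
    refine hW1.trans (le_trans ?_ n5)
    gcongr
  have hWsq : Squarefree W := by
    rw [hW]
    unfold primorial
    exact Finset.squarefree_prod_of_pairwise_isCoprime (by
      intro a ha b hb hab
      rw [mem_coe, mem_filter] at ha hb
      exact Nat.coprime_iff_isRelPrime.1 ((Nat.coprime_primes ha.2 hb.2).2 hab)) (by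
      intro p hp
      rw [mem_filter] at hp
      exact hp.2.prime.squarefree)
  have hqW : q ∣ W := by
    rw [hW]
    exact hq.dvd_primorial_iff.2 (by omega)
  have hqle : q ≤ W := Nat.le_of_dvd hWpos hqW
  have hgW : g ≤ W := by omega
  have hWp : ∀ p : ℕ, p.Prime → p ≤ S → p ∣ W := fun p hp hpS => by
    rw [hW]; exact hp.dvd_primorial_iff.2 hpS
  have hWp' : ∀ p : ℕ, p.Prime → p ∣ W → p ≤ S := fun p hp hpW => by
    rw [hW] at hpW; exact hp.dvd_primorial_iff.1 hpW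
  have hlogN : Real.log N ≤ B' * l := by
    calc Real.log N ≤ Real.log (l ^ B') := Real.log_le_log hN0 hNB'
      _ = B' * Real.log l := by rw [Real.log_pow]
      _ ≤ B' * l := by
          gcongr
          linarith [Real.log_le_sub_one_of_pos hl0]
  have hSle : (S : ℝ) ≤ ((s1 : ℝ) + 1 + B') * l := by
    have h1 : ((⌈Real.log N⌉₊ : ℕ) : ℝ) ≤ Real.log N + 1 :=
      (Nat.ceil_lt_add_one (Real.log_nonneg (by exact_mod_cast hNp.one_lt.le))).le
    have h2 : (s1 : ℝ) ≤ s1 * l := by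
      have := (Nat.cast_nonneg s1 : (0 : ℝ) ≤ s1)
      nlinarith
    rw [hS]
    push_cast
    nlinarith
  have hSδ : (S : ℝ) ≤ (H : ℝ) ^ δ := hSle.trans n8
  have hSH : S ≤ H := by
    have : (S : ℝ) ≤ H := hSle.trans n9
    exact_mod_cast this
  -- the class
  obtain ⟨b, hbW, hAb⟩ := exbP hF W H hWsq (fun p hp hpW => (hWp' p hp hpW).trans hSH) A κ hκ (by omega)
    (by
      intro n hn p hp
      have hpp := Nat.prime_of_mem_primeFactors hp
      apply hArough n hn p hpp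
      have h1 : (p : ℝ) ≤ S := by exact_mod_cast hWp' p hpp (Nat.dvd_of_mem_primeFactors hp)
      exact h1.trans hSδ) hAcard
  -- the common prime factors
  have hWk : ∀ k : ℕ, 1 ≤ k → k ≤ N → 1 ≤ W * k ∧ ((W * k : ℕ) : ℝ) ≤ l ^ (2 * B') := by
    intro k hk1 hkN
    refine ⟨Nat.mul_pos hWpos hk1, ?_⟩
    have h1 : (k : ℝ) ≤ l ^ B' := le_trans (by exact_mod_cast hkN) hNB'
    push_cast
    calc (W : ℝ) * k ≤ l ^ B' * l ^ B' := by gcongr
      _ = l ^ (2 * B') := by rw [← pow_add, two_mul]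
  have hSl : Real.log l ≤ S := by
    have h1 : Real.log l ≤ Real.log N := by
      have h2 : l ≤ N := hlBN.trans hN1
      exact Real.log_le_log hl0 h2
    have h3 : Real.log N ≤ (⌈Real.log N⌉₊ : ℕ) := Nat.le_ceil _
    have h4 : ((⌈Real.log N⌉₊ : ℕ) : ℝ) ≤ S := by
      rw [hS]
      push_cast
      linarith [(Nat.cast_nonneg s1 : (0 : ℝ) ≤ s1)]
    linarith
  have hc1 : ∀ k : ℕ, 1 ≤ k → k ≤ N →
      ∑ p ∈ (PS W H).filter (fun p : ℕ => CF F (W * k) p), (1 : ℝ) / p ≤ ε := by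
    intro k hk1 hkN
    obtain ⟨h1, h2⟩ := hWk k hk1 hkN
    refine le_trans ?_ (hCF1 (W * k) h1 h2)
    refine sum_le_sum_of_subset_of_nonneg ?_ fun _ _ _ => by positivity
    intro p hp
    rw [mem_filter] at hp ⊢
    have hp1 := hp.1
    unfold PS at hp1
    rw [mem_filter] at hp1
    refine ⟨hp1.1, hp1.2.1, ?_, hp.2⟩
    have h3 : S < p := by
      by_contra hcon
      exact hp1.2.2 (hWp p hp1.2.1 (by omega))
    have h4 : (S : ℝ) < p := by exact_mod_cast h3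
    linarith
  have hc2 : ∀ k : ℕ, 1 ≤ k → k ≤ N → ∀ p : ℕ, p.Prime → Real.exp (√l) ≤ p →
      ¬ CF F (W * k) p := by
    intro k hk1 hkN
    obtain ⟨h1, h2⟩ := hWk k hk1 hkN
    exact hCF2 (W * k) h1 h2
  -- the majorant
  obtain ⟨ν, hν0, hνB, hνA, hνc⟩ := hMAJ F Y H W N (S : ℝ) hF hHH₁ hsize hWpos hNp.one_lt.le
    (by rw [← hl]; exact hWB') (by rw [← hl]; exact hNB') (by
      rw [hS, hs1]
      push_cast
      have h1 := Nat.le_ceil s₀
      have h2 := (Nat.cast_nonneg q : (0 : ℝ) ≤ q)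
      have h3 := (Nat.cast_nonneg ⌈Real.log N⌉₊ : (0 : ℝ) ≤ _)
      linarith) (fun p hp hps => hWp p hp (by exact_mod_cast hps)) hc1
    (by rw [← hl]; exact hc2)
  rw [← hl] at hνB
  have hVpos := V_posP hF W H
  have hVlow := hKV g F W H hF n1 (fun p hp hpg => hWp p hp (by omega))
  rw [← hl] at hVlow
  -- the windows
  have hHW : (H : ℝ) / W - 1 ≤ ((H / W : ℕ) : ℝ) := by
    have h1 := Nat.lt_div_mul_add (a := H) hWpos
    have h2 : (H : ℝ) < (H / W : ℕ) * W + W := by exact_mod_cast h1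
    rw [sub_le_iff_le_add, div_le_iff₀ hW0]
    linarith
  have hbigL : (H : ℝ) ^ (1 / 2 : ℝ) + N + 3 ≤ H / W := by
    rw [le_div_iff₀ hW0]
    refine le_trans ?_ n10
    have : 0 ≤ (H : ℝ) ^ (1 / 2 : ℝ) := by positivity
    gcongr
  obtain ⟨L, hL⟩ : ∃ L : ℕ, L + N + 1 = H / W := by
    refine ⟨H / W - N - 1, ?_⟩
    have h1 : (N : ℝ) + 1 ≤ ((H / W : ℕ) : ℝ) := by
      have : 0 ≤ (H : ℝ) ^ (1 / 2 : ℝ) := by positivity
      linarith
    have h2 : N + 1 ≤ H / W := by exact_mod_cast h1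
    omega
  have hLreal : (H : ℝ) ^ (1 / 2 : ℝ) + 1 ≤ L := by
    have h1 : (L : ℝ) + N + 1 = ((H / W : ℕ) : ℝ) := by exact_mod_cast hL
    linarith
  have hL0 : (0 : ℝ) < L := by
    have : 0 ≤ (H : ℝ) ^ (1 / 2 : ℝ) := by positivity
    linarith
  have hL1 : 1 ≤ L := by exact_mod_cast hL0
  obtain ⟨M₀, hM₀⟩ : ∃ M₀ : ℕ, M₀ = Y / W := ⟨_, rfl⟩
  have hwin : ∀ K ∈ Ioc M₀ (M₀ + L), ∀ a : ZMod N, W * (K + rp a) + b ∈ Ioc Y (Y + H) := by
    intro K hK a
    rw [mem_Ioc] at hK ⊢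
    have ha1 := rp_pos a
    have ha2 := rp_le a
    have h1 : W * (Y / W) ≤ Y := Nat.mul_div_le Y W
    have h2 : Y < W * (Y / W) + W := Nat.lt_mul_div_succ Y hWpos |>.trans_eq (by ring)
    have h3 : W * (H / W) ≤ H := Nat.mul_div_le H W
    constructor
    · have h4 : W * (M₀ + 2) ≤ W * (K + rp a) := Nat.mul_le_mul_left _ (by omega)
      have h5 : W * (M₀ + 2) = W * (Y / W) + W + W := by rw [hM₀]; ring
      omega
    · have h4 : W * (K + rp a) ≤ W * (M₀ + L + N) := Nat.mul_le_mul_left _ (by omega)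
      have h5 : W * (M₀ + L + N) + W = W * (Y / W) + W * (L + N + 1) := by rw [hM₀]; ring
      rw [hL] at h5
      omega
  -- the linear forms condition
  have hcardI : (Ioc M₀ (M₀ + L)).card = L := by rw [Nat.card_Ioc]; omega
  have hlN1 : l ^ (M * B) * l ≤ N := by
    refine le_trans ?_ hN1
    rw [← pow_succ]
    exact pow_le_pow_right₀ hl1 (by omega)
  have hlN2 : l ^ (k * B) * l ≤ N := by
    refine le_trans ?_ hN1
    rw [← pow_succ]
    apply pow_le_pow_right₀ hl1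
    rw [hBN]
    have := Nat.zero_le (M * B)
    omega
  obtain ⟨hav, hLF⟩ := hMK N hNp (by omega) (Ioc M₀ (M₀ + L)) (wK ν N W b) (l ^ B)
    (by rw [← card_pos, hcardI]; omega) (one_le_pow₀ hl1) (fun K a => hν0 _)
    (fun K hK a => hνB _ (hwin K hK a))
    (by
      refine le_trans ?_ n3
      rw [← hM, ← pow_mul, mul_comm B M, div_le_div_iff₀ hN0 hl0, one_mul]
      exact hlN1)
    (by
      intro m hm u hu
      rw [hcardI]
      exact hνc m hm (fun i => rp (u i)) (by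
        intro i j hij
        apply hu
        have h1 := congrArg (fun x : ℕ => (x : ZMod N)) hij
        simp only [rp_cast] at h1
        exact h1) (fun i => ⟨rp_pos _, rp_le _⟩) b M₀ L (by linarith))
  rw [hcardI] at hav hLF
  obtain ⟨h, hh⟩ : ∃ h : ℕ, h = (N - 1) / 2 := ⟨_, rfl⟩
  have hνA' : ∀ n ∈ A, c ≤ ν n * V F W H := fun n hn => hνA n (hAsub hn) (hArough n hn)
  have hbig : 2 * ((N : ℝ) + 4) ≤ κ * (H / W * V F W H) := by
    have hKVl : 0 < (KV * l) ^ (2 * g) := by positivity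
    have h1 : 2 * ((N : ℝ) + 4) ≤ 10 * l ^ B' := by
      have : 1 ≤ l ^ B' := one_le_pow₀ hl1
      linarith
    have h2 : 10 * l ^ B' * (W * (KV * l) ^ (2 * g)) ≤ κ * H := by
      refine le_trans ?_ n7
      calc 10 * l ^ B' * (W * (KV * l) ^ (2 * g)) ≤ 10 * l ^ B' * (l ^ B' * (KV * l) ^ (2 * g)) := by
            gcongr
        _ = _ := by ring
    calc 2 * ((N : ℝ) + 4) ≤ 10 * l ^ B' := h1
      _ ≤ κ * (H / W * (1 / (KV * l) ^ (2 * g))) := by
          rw [div_mul_div_comm, mul_one, mul_div_assoc', le_div_iff₀ (by positivity)]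
          exact h2
      _ ≤ _ := by gcongr
  obtain ⟨K, hK, hKB, hKδ⟩ := goodK ν A Y H W b M₀ L N h c (V F W H) κ δ₀ η
    ((Ioc M₀ (M₀ + L)).filter (fun K => ¬ LFk k N (wK ν N W b K) η)) hν0 hWpos hbW hAsub hM₀ hL hL1
    (by omega) hh hVpos hc hκ hνA' hAb hbig hδ₀ (by rw [hδ₀d]; linarith) hav (filter_subset _ _) hLF hηδ
  rw [mem_filter, not_and, not_not] at hKB
  have hKLF := hKB hK
  -- the progression
  have hAP := hRS N hNp (by omega) (wK ν N W b K) (gK ν A N W b h K)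
    (fun a => ⟨gK_nonneg ν hν0 A N W b h K a, gK_le ν hν0 A N W b h K a⟩) (LF_mono hKLF hηR') hKδ
  have hMb : ∀ a, gK ν A N W b h K a ≤ l ^ B := fun a =>
    (gK_le ν hν0 A N W b h K a).trans (hνB _ (hwin K hK a))
  obtain ⟨a, d, hd, had⟩ := exAP k N (gK ν A N W b h K) (gK_nonneg ν hν0 A N W b h K) _ cR hMb hAP (by
    refine lt_of_le_of_lt ?_ n4
    rw [← pow_mul, mul_comm B k, div_le_div_iff₀ hN0 hl0, one_mul]
    exact hlN2)
  have had2 : ∀ j < k, rp (a + (j : ZMod N) * d) ≤ h ∧ W * (K + rp (a + (j : ZMod N) * d)) + b ∈ A := by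
    intro j hj
    have := had j hj
    unfold gK at this
    by_contra hcon
    rw [if_neg hcon] at this
    exact this rfl
  obtain ⟨a', r, ha', hr, hlift⟩ := lift k N h hk (by omega) a d hd (fun j hj => (had2 j hj).1)
  refine ⟨W * (K + a') + b, W * r, Nat.mul_pos hWpos hr, ?_, ?_⟩
  · have h1 : a' + 1 * r ≤ h := by
      obtain ⟨j', hj', e⟩ := hlift 1 (by omega)
      rw [e]
      exact (had2 j' hj').1
    have h2 : (r : ℝ) ≤ N := by
      have : r ≤ N := by omega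
      exact_mod_cast this
    push_cast
    calc (W : ℝ) * r ≤ l ^ B' * l ^ B' := by
          gcongr
          exact h2.trans hNB'
      _ = l ^ (2 * B') := by rw [← pow_add, two_mul]
  · intro i hi
    obtain ⟨j', hj', e⟩ := hlift i hi
    have h1 := (had2 j' hj').2
    rw [← e] at h1
    have h2 : W * (K + a') + b + i * (W * r) = W * (K + (a' + i * r)) + b := by ring
    rw [h2]
    exact h1

end Pool.Agent.K3h89.SZ
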