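import Pool.Agent.K3h89.SZ.Base

/-!
# Project SZ (job 291): classes with divisibility conditions, weak systems (adapted from
`Pool/Agent/Y833/RSZ/CLS.lean`)
-/

set_option autoImplicit false

open Finset

namespace Pool.Agent.K3h89.SZ

open Pool.Agent.Y677.RSZ (rt rs)
open Pool.Agent.Y833.RSZ (card_prod rs_prod sqf_prod sqf_dvd card_filter_eq)

/-- (CLSP) -/
theorem clsP : S_CLSP := by
  classical
  intro F hper W b m D t hD hc
  set P : ℕ := ∏ i, D i with hP
  have hPs : Squarefree P := sqf_prod D (fun i => (hD i).1) hc univ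
  have hP0 : P ≠ 0 := hPs.ne_zero
  let Q : ℕ → ℕ → Prop := fun p r => ∀ i, p ∣ D i → (p : ℤ) ∣ F ((W * (r + t i) + b : ℕ) : ℤ)
  have hQ : ∀ p ∈ P.primeFactors, ∀ r, Q p r ↔ Q p (r % p) := by
    intro p hp r
    have hpp := Nat.prime_of_mem_primeFactors hp
    refine forall_congr' fun i => imp_congr Iff.rfl ?_
    apply perP (hper p hpp)
    have e : ((W * (r + t i) + b : ℕ) : ℤ) - ((W * (r % p + t i) + b : ℕ) : ℤ) =
        W * ((r : ℤ) - (r : ℤ) % (p : ℤ)) := by
      push_cast
      ring
    rw [e]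
    exact Dvd.dvd.mul_left Int.dvd_self_sub_emod _
  have h1 : (range P).filter (fun r : ℕ => ∀ i, (D i : ℤ) ∣ F ((W * (r + t i) + b : ℕ) : ℤ)) =
      (range (∏ p ∈ P.primeFactors, p)).filter (fun r => ∀ p ∈ P.primeFactors, Q p r) := by
    rw [Nat.prod_primeFactors_of_squarefree hPs]
    apply Finset.filter_congr
    intro r _
    constructor
    · intro h p hp i hi
      exact (Int.natCast_dvd_natCast.2 hi).trans (h i)
    · intro h i
      rw [sqf_dvd (hD i).1]
      intro p hp
      have hpi := Nat.dvd_of_mem_primeFactors hp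
      refine h p ?_ i hpi
      rw [Nat.mem_primeFactors]
      exact ⟨Nat.prime_of_mem_primeFactors hp, hpi.trans (Finset.dvd_prod_of_mem _ (mem_univ i)), hP0⟩
  have h2 := card_prod P.primeFactors (fun p hp => Nat.prime_of_mem_primeFactors hp) Q hQ
  rw [h1, ← rs_prod (rt F) D hc univ]
  refine Eq.trans (congrArg Finset.card ?_) (h2.trans ?_)
  · ext r
    simp only [mem_filter]
  show _ = ∏ p ∈ P.primeFactors, rt F p
  refine Finset.prod_congr rfl fun p hp => ?_
  have hpp := Nat.prime_of_mem_primeFactors hp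
  have hpP := Nat.dvd_of_mem_primeFactors hp
  obtain ⟨i, _, hi⟩ := (hpp.prime.dvd_finset_prod_iff _).1 hpP
  have hpW : ¬ p ∣ W := by
    intro hw
    have := Nat.dvd_gcd hi hw
    rw [(hD i).2] at this
    exact hpp.one_lt.ne' (Nat.dvd_one.1 this)
  rw [← card_shiftP hpp (hper p hpp) W b (t i) hpW]
  apply card_filter_eq
  intro r _
  constructor
  · intro h
    exact h i hi
  · intro h j hj
    by_cases hij : i = j
    · rw [← hij]; exact h
    · exfalso
      have := Nat.dvd_gcd hi hj
      rw [hc i j hij] at this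
      exact hpp.one_lt.ne' (Nat.dvd_one.1 this)

end Pool.Agent.K3h89.SZ
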