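import Pool.Agent.K3h89.SZ.Stm

/-!
# Project SZ (helper89), brick EXC: few `n` have many common prime factors of medium size
-/

set_option autoImplicit false

open Finset

namespace Pool.Agent.K3h89.SZ

namespace EXC

/-- the number of the `K`-tuples of different elements, with the weights `1 / p` -/
noncomputable def M : ℕ → Finset ℕ → ℝ
  | 0, _ => 1
  | K + 1, X => ∑ p ∈ X, (1 / (p : ℝ)) * M K (X.erase p)

lemma M_nonneg (K : ℕ) (X : Finset ℕ) : 0 ≤ M K X := by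
  induction K generalizing X with
  | zero => simp [M]
  | succ K ih =>
    rw [M]
    exact sum_nonneg fun p _ => mul_nonneg (by positivity) (ih _)

lemma M_lower (δ η : ℝ) (hη : 0 ≤ η) (hδ : 0 ≤ δ) (K : ℕ) (X : Finset ℕ)
    (hX : ∀ p ∈ X, 1 / (p : ℝ) ≤ δ) (hS : η + K * δ ≤ ∑ p ∈ X, 1 / (p : ℝ)) :
    η ^ K ≤ M K X := by
  induction K generalizing X with
  | zero => simp [M]
  | succ K ih =>
    rw [M]
    push_cast at hS
    have h1 : ∀ p ∈ X, 1 / (p : ℝ) * η ^ K ≤ 1 / (p : ℝ) * M K (X.erase p) := by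
      intro p hp
      refine mul_le_mul_of_nonneg_left (ih _ (fun q hq => hX q (mem_of_mem_erase hq)) ?_)
        (by positivity)
      have h2 := Finset.sum_erase_add X (fun p => 1 / (p : ℝ)) hp
      have h3 := hX p hp
      linarith
    have h0 : 0 ≤ (K : ℝ) * δ := by positivity
    calc η ^ (K + 1) = η * η ^ K := by ring
      _ ≤ (∑ p ∈ X, 1 / (p : ℝ)) * η ^ K := by
        apply mul_le_mul_of_nonneg_right _ (by positivity)
        linarith
      _ = ∑ p ∈ X, 1 / (p : ℝ) * η ^ K := by rw [sum_mul]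
      _ ≤ _ := sum_le_sum h1

lemma card_class (N Q a : ℕ) :
    ((Icc 1 N).filter (fun n => n % Q = a % Q)).card ≤ N / Q + 1 := by
  have h1 : ((Icc 1 N).filter (fun n => n % Q = a % Q)).card ≤ (range (N / Q + 1)).card := by
    apply card_le_card_of_injOn (fun n => n / Q)
    · intro n hn
      have hn' := (mem_filter.1 (mem_coe.1 hn)).1
      rw [mem_Icc] at hn'
      simp only [coe_range, Set.mem_Iio]
      exact Nat.lt_succ_of_le (Nat.div_le_div_right hn'.2)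
    · intro n hn m hm hnm
      have hn' := (mem_filter.1 (mem_coe.1 hn)).2
      have hm' := (mem_filter.1 (mem_coe.1 hm)).2
      dsimp only at hnm
      rw [← Nat.div_add_mod n Q, ← Nat.div_add_mod m Q, hnm, hn', hm']
  rwa [card_range] at h1

lemma M_avg (R : ℕ → Finset ℕ) (hR : ∀ p, (R p).card ≤ 3) (N Y : ℕ) (σ : ℝ)
    (hσ : 0 ≤ σ) (K : ℕ) : ∀ (Q a : ℕ) (U : Finset ℕ), 1 ≤ Q →
    (∀ p ∈ U, p.Prime ∧ Nat.Coprime Q p ∧ p ≤ Y) → (∑ p ∈ U, 1 / (p : ℝ) ^ 2 ≤ σ) →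
    Q * Y ^ K ≤ N →
    ∑ n ∈ (Icc 1 N).filter (fun n => n % Q = a % Q), M K (U.filter (fun p => n % p ∈ R p)) ≤
      2 * N / Q * (3 * σ) ^ K := by
  induction K with
  | zero =>
    intro Q a U hQ hU hS hN
    simp only [M, sum_const, pow_zero, mul_one, nsmul_eq_mul]
    have hQ0 : (0 : ℝ) < Q := by exact_mod_cast hQ
    have hQN : (Q : ℝ) ≤ N := by
      rw [pow_zero, mul_one] at hN
      exact_mod_cast hN
    have h1 : ((((Icc 1 N).filter (fun n => n % Q = a % Q)).card : ℕ) : ℝ) ≤ ((N / Q + 1 : ℕ) : ℝ) := by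
      exact_mod_cast card_class N Q a
    have h2 : ((N / Q : ℕ) : ℝ) ≤ (N : ℝ) / Q := Nat.cast_div_le
    have h3 : (1 : ℝ) ≤ (N : ℝ) / Q := by rw [le_div_iff₀ hQ0]; linarith
    push_cast at h1
    calc _ ≤ ((N / Q : ℕ) : ℝ) + 1 := h1
      _ ≤ (N : ℝ) / Q + (N : ℝ) / Q := by linarith
      _ = 2 * N / Q := by ring
  | succ K ih =>
    intro Q a U hQ hU hS hN
    have hQ0 : (0 : ℝ) < Q := by exact_mod_cast hQ
    set A := (Icc 1 N).filter (fun n => n % Q = a % Q) with hA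
    have h1 : ∀ n ∈ A, M (K + 1) (U.filter (fun p => n % p ∈ R p)) = ∑ p ∈ U, ∑ r ∈ R p,
        if n % p = r then 1 / (p : ℝ) * M K ((U.erase p).filter (fun p => n % p ∈ R p)) else 0 := by
      intro n _
      rw [M, sum_filter]
      refine sum_congr rfl fun p _ => ?_
      rw [sum_ite_eq]
      split_ifs with h2
      · rw [← filter_erase]
      · rfl
    rw [sum_congr rfl h1, sum_comm]
    have h3 : ∀ p ∈ U, ∑ n ∈ A, ∑ r ∈ R p,
        (if n % p = r then 1 / (p : ℝ) * M K ((U.erase p).filter (fun p => n % p ∈ R p)) else 0) ≤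
        (2 * N / Q * (3 * σ) ^ K * 3) * (1 / (p : ℝ) ^ 2) := by
      intro p hp
      obtain ⟨hpp, hpQ, hpY⟩ := hU p hp
      have hp0 : (0 : ℝ) < p := by exact_mod_cast hpp.pos
      rw [sum_comm]
      have h4 : ∀ r ∈ R p, ∑ n ∈ A,
          (if n % p = r then 1 / (p : ℝ) * M K ((U.erase p).filter (fun p => n % p ∈ R p)) else 0) ≤
          1 / (p : ℝ) * (2 * N / ((Q * p : ℕ) : ℝ) * (3 * σ) ^ K) := by
        intro r _
        obtain ⟨a', ha1, ha2⟩ := Nat.chineseRemainder hpQ a r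
        rw [← sum_filter, ← mul_sum]
        apply mul_le_mul_of_nonneg_left _ (by positivity)
        refine le_trans ?_ (ih (Q * p) a' (U.erase p) ?_ ?_ ?_ ?_)
        · apply sum_le_sum_of_subset_of_nonneg
          · intro n hn
            rw [mem_filter, hA, mem_filter] at hn
            rw [mem_filter]
            refine ⟨hn.1.1, ?_⟩
            have e1 : n ≡ a' [MOD Q] := Nat.ModEq.trans hn.1.2 ha1.symm
            have e2 : n ≡ a' [MOD p] := by
              refine Nat.ModEq.trans ?_ ha2.symm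
              rw [← hn.2]
              exact (Nat.mod_modEq n p).symm
            exact (Nat.modEq_and_modEq_iff_modEq_mul hpQ).1 ⟨e1, e2⟩
          · intro n _ _
            exact M_nonneg _ _
        · exact Nat.one_le_iff_ne_zero.2 (Nat.mul_ne_zero (by omega) hpp.pos.ne')
        · intro q hq
          rw [mem_erase] at hq
          obtain ⟨hqq, hqQ, hqY⟩ := hU q hq.2
          exact ⟨hqq, Nat.Coprime.mul_left hqQ ((Nat.coprime_primes hpp hqq).2 (Ne.symm hq.1)), hqY⟩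
        · refine le_trans ?_ hS
          apply sum_le_sum_of_subset_of_nonneg (erase_subset _ _)
          intro q _ _
          positivity
        · calc Q * p * Y ^ K ≤ Q * Y * Y ^ K := by gcongr
            _ = Q * Y ^ (K + 1) := by ring
            _ ≤ N := hN
      refine (sum_le_sum h4).trans ?_
      rw [sum_const, nsmul_eq_mul]
      have h5 : ((R p).card : ℝ) ≤ 3 := by exact_mod_cast hR p
      have h6 : 0 ≤ 1 / (p : ℝ) * (2 * N / ((Q * p : ℕ) : ℝ) * (3 * σ) ^ K) := by positivity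
      refine (mul_le_mul_of_nonneg_right h5 h6).trans (le_of_eq ?_)
      push_cast
      field_simp
    refine (sum_le_sum h3).trans ?_
    rw [← mul_sum]
    have h7 : 0 ≤ 2 * (N : ℝ) / Q * (3 * σ) ^ K * 3 := by positivity
    refine (mul_le_mul_of_nonneg_left hS h7).trans (le_of_eq ?_)
    ring

/-- the three classes -/
noncomputable def Rh (b c : ℤ) (h p : ℕ) : Finset ℕ := (range p).filter (fun r : ℕ =>
  (p : ℤ) ∣ (r : ℤ) - ((h : ℤ) ^ 2 + b * h + c) ∨ (p : ℤ) ∣ (r : ℤ) - ((h : ℤ) ^ 2 - b * h + c) ∨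
    ((p : ℤ) ∣ 4 * ((r : ℤ) - c) + b ^ 2 - (h : ℤ) ^ 2 ∧ p.Prime ∧ p ≠ 2))

lemma eq_of_dvd_sub {p r r' : ℕ} (hr : r < p) (hr' : r' < p) (h : (p : ℤ) ∣ (r : ℤ) - r') :
    r = r' := by
  have h1 := (Nat.modEq_iff_dvd (n := p) (a := r') (b := r)).2 (by exact_mod_cast h)
  have h2 : r' % p = r % p := h1
  rw [Nat.mod_eq_of_lt hr, Nat.mod_eq_of_lt hr'] at h2
  exact h2.symm

lemma card_Rh (b c : ℤ) (h p : ℕ) : (Rh b c h p).card ≤ 3 := by
  have h1 : Rh b c h p ⊆ ((range p).filter (fun r : ℕ => (p : ℤ) ∣ (r : ℤ) - ((h : ℤ) ^ 2 + b * h + c)) ∪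
      (range p).filter (fun r : ℕ => (p : ℤ) ∣ (r : ℤ) - ((h : ℤ) ^ 2 - b * h + c))) ∪
      (range p).filter (fun r : ℕ => (p : ℤ) ∣ 4 * ((r : ℤ) - c) + b ^ 2 - (h : ℤ) ^ 2 ∧
        p.Prime ∧ p ≠ 2) := by
    intro r hr
    unfold Rh at hr
    rw [mem_filter] at hr
    rw [mem_union, mem_union, mem_filter, mem_filter, mem_filter]
    tauto
  have c1 : ((range p).filter (fun r : ℕ => (p : ℤ) ∣ (r : ℤ) - ((h : ℤ) ^ 2 + b * h + c))).card ≤ 1 := by
    rw [card_le_one]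
    intro x hx y hy
    rw [mem_filter, mem_range] at hx hy
    apply eq_of_dvd_sub hx.1 hy.1
    have h3 := dvd_sub hx.2 hy.2
    rwa [sub_sub_sub_cancel_right] at h3
  have c2 : ((range p).filter (fun r : ℕ => (p : ℤ) ∣ (r : ℤ) - ((h : ℤ) ^ 2 - b * h + c))).card ≤ 1 := by
    rw [card_le_one]
    intro x hx y hy
    rw [mem_filter, mem_range] at hx hy
    apply eq_of_dvd_sub hx.1 hy.1
    have h3 := dvd_sub hx.2 hy.2
    rwa [sub_sub_sub_cancel_right] at h3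
  have c3 : ((range p).filter (fun r : ℕ => (p : ℤ) ∣ 4 * ((r : ℤ) - c) + b ^ 2 - (h : ℤ) ^ 2 ∧
        p.Prime ∧ p ≠ 2)).card ≤ 1 := by
    rw [card_le_one]
    intro x hx y hy
    rw [mem_filter, mem_range] at hx hy
    apply eq_of_dvd_sub hx.1 hy.1
    obtain ⟨_, hx2, hp, hp2⟩ := hx
    have h3 := dvd_sub hx2 hy.2.1
    have h4 : (p : ℤ) ∣ 4 * ((x : ℤ) - y) := by
      have e : 4 * ((x : ℤ) - c) + b ^ 2 - (h : ℤ) ^ 2 - (4 * ((y : ℤ) - c) + b ^ 2 - (h : ℤ) ^ 2) =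
        4 * ((x : ℤ) - y) := by ring
      rwa [e] at h3
    have hp' : Prime (p : ℤ) := Nat.prime_iff_prime_int.1 hp
    rcases hp'.dvd_or_dvd h4 with h5 | h5
    · exfalso
      have h6 : (p : ℤ) ∣ 2 ^ 2 := by norm_num; exact h5
      have h7 := hp'.dvd_of_dvd_pow h6
      have h8 : p ∣ 2 := by exact_mod_cast h7
      exact hp2 ((Nat.prime_dvd_prime_iff_eq hp Nat.prime_two).1 h8)
    · exact h5
  calc (Rh b c h p).card ≤ _ := card_le_card h1
    _ ≤ _ := card_union_le _ _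
    _ ≤ _ := Nat.add_le_add_right (card_union_le _ _) _
    _ ≤ 3 := by omega

lemma mod_mem_Rh (b c : ℤ) (n h p : ℕ) (hp : p.Prime) (hp2 : p ≠ 2)
    (H : (p : ℤ) ∣ (n : ℤ) - ((h : ℤ) ^ 2 + b * h + c) ∨ (p : ℤ) ∣ (n : ℤ) - ((h : ℤ) ^ 2 - b * h + c) ∨
    (p : ℤ) ∣ 4 * ((n : ℤ) - c) + b ^ 2 - (h : ℤ) ^ 2) : n % p ∈ Rh b c h p := by
  unfold Rh
  rw [mem_filter, mem_range]
  refine ⟨Nat.mod_lt _ hp.pos, ?_⟩
  have h0 : (p : ℤ) ∣ (n : ℤ) - ((n % p : ℕ) : ℤ) := by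
    refine ⟨((n / p : ℕ) : ℤ), ?_⟩
    have := Nat.div_add_mod n p
    have h1 : ((p * (n / p) + n % p : ℕ) : ℤ) = (n : ℤ) := by exact_mod_cast this
    push_cast at h1 ⊢
    linarith
  rcases H with H | H | H
  · left
    have h1 := dvd_sub H h0
    rwa [show (n : ℤ) - ((h : ℤ) ^ 2 + b * h + c) - ((n : ℤ) - ((n % p : ℕ) : ℤ)) =
      ((n % p : ℕ) : ℤ) - ((h : ℤ) ^ 2 + b * h + c) by ring] at h1
  · right; left
    have h1 := dvd_sub H h0
    rwa [show (n : ℤ) - ((h : ℤ) ^ 2 - b * h + c) - ((n : ℤ) - ((n % p : ℕ) : ℤ)) =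
      ((n % p : ℕ) : ℤ) - ((h : ℤ) ^ 2 - b * h + c) by ring] at h1
  · right; right
    refine ⟨?_, hp, hp2⟩
    have h1 := dvd_sub H (h0.mul_left 4)
    rwa [show 4 * ((n : ℤ) - c) + b ^ 2 - (h : ℤ) ^ 2 - 4 * ((n : ℤ) - ((n % p : ℕ) : ℤ)) =
      4 * (((n % p : ℕ) : ℤ) - c) + b ^ 2 - (h : ℤ) ^ 2 by ring] at h1

/-- the sum of `1 / p ^ 2` -/
lemma sum_sq {s : ℝ} (hs : 2 ≤ s) (P : Finset ℕ) (H : ℕ) (hP : ∀ p ∈ P, s < p ∧ p ≤ H) :
    ∑ p ∈ P, 1 / (p : ℝ) ^ 2 ≤ 2 / s := by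
  have hk : 2 ≤ ⌊s⌋₊ := Nat.le_floor (by exact_mod_cast hs)
  have h1 : P ⊆ Ioc ⌊s⌋₊ (H + ⌊s⌋₊) := by
    intro p hp
    obtain ⟨h1, h2⟩ := hP p hp
    rw [mem_Ioc]
    refine ⟨?_, by omega⟩
    exact (Nat.floor_lt (by linarith)).2 h1
  have h2 := sum_Ioc_inv_sq_le_sub (α := ℝ) (k := ⌊s⌋₊) (n := H + ⌊s⌋₊) (by omega) (by omega)
  have h3 : s - 1 ≤ (⌊s⌋₊ : ℝ) := by
    have := Nat.lt_floor_add_one s
    linarith
  calc ∑ p ∈ P, 1 / (p : ℝ) ^ 2 ≤ ∑ p ∈ Ioc ⌊s⌋₊ (H + ⌊s⌋₊), 1 / (p : ℝ) ^ 2 :=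
        sum_le_sum_of_subset_of_nonneg h1 fun _ _ _ => by positivity
    _ = ∑ p ∈ Ioc ⌊s⌋₊ (H + ⌊s⌋₊), ((p : ℝ) ^ 2)⁻¹ := by simp only [one_div]
    _ ≤ (⌊s⌋₊ : ℝ)⁻¹ - ((H + ⌊s⌋₊ : ℕ) : ℝ)⁻¹ := h2
    _ ≤ (⌊s⌋₊ : ℝ)⁻¹ := by
        have : 0 ≤ ((H + ⌊s⌋₊ : ℕ) : ℝ)⁻¹ := by positivity
        linarith
    _ ≤ 2 / s := by
        rw [inv_eq_one_div, div_le_div_iff₀ (by linarith) (by linarith)]
        linarith

/-- the primes which divide `h` -/
lemma sum_dvd {s : ℝ} (hs : 2 ≤ s) (B : ℕ) (P : Finset ℕ) (h : ℕ) (hh : 1 ≤ h)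
    (hhB : (h : ℝ) ≤ Real.exp (s * B)) (hP : ∀ p ∈ P, p.Prime ∧ s < p ∧ p ∣ h) :
    ∑ p ∈ P, 1 / (p : ℝ) ≤ B / Real.log s := by
  have hlog : 0 < Real.log s := Real.log_pos (by linarith)
  have h1 : ∏ p ∈ P, p ∣ h := Finset.prod_primes_dvd h (fun p hp => (hP p hp).1.prime)
    (fun p hp => (hP p hp).2.2)
  have h2 : ((∏ p ∈ P, p : ℕ) : ℝ) ≤ Real.exp (s * B) :=
    le_trans (by exact_mod_cast Nat.le_of_dvd hh h1) hhB
  have h3 : s ^ P.card ≤ ((∏ p ∈ P, p : ℕ) : ℝ) := by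
    rw [Nat.cast_prod, ← prod_const]
    exact prod_le_prod (fun _ _ => by linarith) fun p hp => (hP p hp).2.1.le
  have h4 : (P.card : ℝ) * Real.log s ≤ s * B := by
    have h5 := Real.log_le_log (by positivity) (h3.trans h2)
    rwa [Real.log_pow, Real.log_exp] at h5
  calc ∑ p ∈ P, 1 / (p : ℝ) ≤ ∑ p ∈ P, 1 / s :=
        sum_le_sum fun p hp => one_div_le_one_div_of_le (by linarith) (hP p hp).2.1.le
    _ = P.card / s := by rw [sum_const, nsmul_eq_mul]; ring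
    _ ≤ B / Real.log s := by
        rw [div_le_div_iff₀ (by linarith) hlog]
        linarith

end EXC

open EXC

open Classical in
theorem exc (h : S_SYSQ) : S_EXC := by
  intro b c B ε ε₁ hε hε₁
  -- conditions for large `H`
  have t1 : Filter.Tendsto (fun H : ℕ => Real.log (H : ℝ)) Filter.atTop Filter.atTop :=
    Real.tendsto_log_atTop.comp tendsto_natCast_atTop_atTop
  have t2 : Filter.Tendsto (fun H : ℕ => Real.log (Real.log (H : ℝ))) Filter.atTop Filter.atTop :=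
    Real.tendsto_log_atTop.comp t1
  have t3 : Filter.Tendsto (fun H : ℕ => Real.log (Real.log (Real.log (H : ℝ))))
      Filter.atTop Filter.atTop := Real.tendsto_log_atTop.comp t2
  have t4 : Filter.Tendsto (fun H : ℕ => √(Real.log (H : ℝ))) Filter.atTop Filter.atTop :=
    Real.tendsto_sqrt_atTop.comp t1
  obtain ⟨H₀, hH₀⟩ := Filter.eventually_atTop.1 ((t2.eventually_ge_atTop (2 : ℝ)).and
    ((t3.eventually_ge_atTop (2 * B / ε)).and
    ((t2.eventually_ge_atTop (24 * Real.exp (8 * (B + 1) / ε) / ε)).and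
    ((t2.eventually_ge_atTop (8 / ε)).and
    ((t4.eventually (Real.isLittleO_log_id_atTop.def (c := 4 / ε) (by positivity))).and
    ((t1.eventually_ge_atTop (2 / ε₁)).and
    ((t1.eventually_ge_atTop (1 : ℝ)).and (t4.eventually_ge_atTop (1 : ℝ)))))))))
  refine ⟨H₀, fun H hH => ?_⟩
  obtain ⟨k1, k2, k3, k4, k5, k6, k7, k8⟩ := hH₀ H hH
  set L : ℝ := Real.log H with hL
  set s : ℝ := Real.log L with hs
  have hL0 : 0 < L := by linarith
  have hLs : L = Real.exp s := by rw [hs, Real.exp_log hL0]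
  have hs0 : 0 < s := by linarith
  have hH0 : (0 : ℝ) < H := by
    rcases Nat.eq_zero_or_pos H with h0 | h0
    · exfalso; rw [h0] at hL; simp at hL; linarith
    · exact_mod_cast h0
  have hHL : (H : ℝ) = Real.exp L := by rw [hL, Real.exp_log hH0]
  have hLB : L ^ B = Real.exp (s * B) := by
    rw [hLs, ← Real.exp_nat_mul]; congr 1; ring
  set K : ℕ := ⌊ε * s / 4⌋₊ with hK
  have hK1 : (K : ℝ) ≤ ε * s / 4 := Nat.floor_le (by positivity)
  have hK2 : ε * s / 8 ≤ K := by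
    have h1 := Nat.lt_floor_add_one (ε * s / 4)
    rw [← hK] at h1
    have h2 : 8 ≤ ε * s := by
      have := mul_le_mul_of_nonneg_left k4 hε.le
      rwa [mul_div_cancel₀ _ hε.ne'] at this
    linarith
  set Y : ℕ := ⌊Real.exp (√L)⌋₊ with hY
  have hY1 : (Y : ℝ) ≤ Real.exp (√L) := Nat.floor_le (Real.exp_pos _).le
  have hYK : 1 * Y ^ K ≤ H ^ 2 := by
    have h1 : (Y : ℝ) ^ K ≤ (H : ℝ) ^ 2 := by
      calc (Y : ℝ) ^ K ≤ (Real.exp (√L)) ^ K := pow_le_pow_left₀ (Nat.cast_nonneg _) hY1 _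
        _ = Real.exp (K * √L) := by rw [← Real.exp_nat_mul]
        _ ≤ Real.exp (2 * L) := by
          apply Real.exp_le_exp.2
          have h2 : √L * √L = L := Real.mul_self_sqrt hL0.le
          have h3 : Real.log (√L) = s / 2 := by rw [Real.log_sqrt hL0.le]
          have h4 : s / 2 ≤ 4 / ε * √L := by
            simp only [id] at k5
            rw [h3, Real.norm_of_nonneg (by positivity), Real.norm_of_nonneg (Real.sqrt_nonneg _)] at k5
            exact k5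
          have h5 : ε * s / 4 ≤ 2 * √L := by
            have h6 := mul_le_mul_of_nonneg_left h4 (by positivity : 0 ≤ ε / 2)
            have h7 : ε / 2 * (4 / ε * √L) = 2 * √L := by field_simp; ring
            rw [h7] at h6
            linarith
          calc (K : ℝ) * √L ≤ (2 * √L) * √L :=
                mul_le_mul_of_nonneg_right (hK1.trans h5) (Real.sqrt_nonneg _)
            _ = 2 * L := by rw [mul_assoc, h2]
        _ = (H : ℝ) ^ 2 := by rw [hHL, ← Real.exp_nat_mul]; norm_num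
    rw [one_mul]
    exact_mod_cast h1
  -- the primes
  set P : Finset ℕ := (Icc 1 H).filter (fun p : ℕ => p.Prime ∧ s < p ∧ (p : ℝ) < Real.exp (√L))
    with hP
  have hPm : ∀ p ∈ P, p ≤ H ∧ p.Prime ∧ s < p ∧ (p : ℝ) < Real.exp (√L) := by
    intro p hp
    rw [hP, mem_filter, mem_Icc] at hp
    exact ⟨hp.1.2, hp.2⟩
  have hσ : ∑ p ∈ P, 1 / (p : ℝ) ^ 2 ≤ 2 / s :=
    sum_sq k1 P H fun p hp => ⟨(hPm p hp).2.2.1, (hPm p hp).1⟩
  -- the exceptional sets
  set T : ℕ → Finset ℕ := fun h => (Icc 1 (H ^ 2)).filter (fun n : ℕ =>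
    ε / 2 < ∑ p ∈ P.filter (fun p => n % p ∈ Rh b c h p), 1 / (p : ℝ)) with hT
  have hTcard : ∀ h : ℕ, ((T h).card : ℝ) ≤ 2 * (H : ℝ) ^ 2 * Real.exp (-((B + 1) * s)) := by
    intro h
    have h1 := M_avg (fun p => Rh b c h p) (fun p => card_Rh b c h p) (H ^ 2) Y (2 / s)
      (by positivity) K 1 0 P le_rfl (fun p hp => ⟨(hPm p hp).2.1, Nat.coprime_one_left _,
        Nat.le_floor (hPm p hp).2.2.2.le⟩) hσ hYK
    have h2 : ((T h).card : ℝ) * (ε / 4) ^ K ≤
        ∑ n ∈ (Icc 1 (H ^ 2)).filter (fun n => n % 1 = 0 % 1),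
          M K (P.filter (fun p => n % p ∈ Rh b c h p)) := by
      calc ((T h).card : ℝ) * (ε / 4) ^ K = ∑ n ∈ T h, (ε / 4) ^ K := by
            rw [sum_const, nsmul_eq_mul]
        _ ≤ ∑ n ∈ T h, M K (P.filter (fun p => n % p ∈ Rh b c h p)) := by
            apply sum_le_sum
            intro n hn
            rw [hT, mem_filter] at hn
            apply M_lower (1 / s) (ε / 4) (by positivity) (by positivity) K
            · intro p hp
              rw [mem_filter] at hp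
              exact one_div_le_one_div_of_le hs0 (hPm p hp.1).2.2.1.le
            · have h3 : (K : ℝ) * (1 / s) ≤ ε / 4 := by
                rw [mul_one_div, div_le_iff₀ hs0]
                linarith
              linarith [hn.2]
        _ ≤ _ := by
            apply sum_le_sum_of_subset_of_nonneg
            · intro n hn
              rw [hT, mem_filter] at hn
              rw [mem_filter]
              exact ⟨hn.1, by rw [Nat.mod_one, Nat.mod_one]⟩
            · intro n _ _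
              exact M_nonneg _ _
    have h3 := h2.trans h1
    have h4 : (0 : ℝ) < (ε / 4) ^ K := by positivity
    have h5 : ((T h).card : ℝ) ≤ 2 * (H : ℝ) ^ 2 * (24 / (ε * s)) ^ K := by
      rw [← le_div_iff₀ h4] at h3
      refine h3.trans (le_of_eq ?_)
      push_cast
      rw [div_one, mul_div_assoc, ← div_pow]
      congr 2
      field_simp
      ring
    refine h5.trans ?_
    apply mul_le_mul_of_nonneg_left _ (by positivity)
    have h6 : 24 / (ε * s) ≤ Real.exp (-(8 * (B + 1) / ε)) := by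
      rw [Real.exp_neg, div_le_iff₀ (by positivity), inv_mul_eq_div,
        le_div_iff₀ (Real.exp_pos _)]
      rw [div_le_iff₀ hε] at k3
      linarith
    calc (24 / (ε * s)) ^ K ≤ (Real.exp (-(8 * (B + 1) / ε))) ^ K :=
          pow_le_pow_left₀ (by positivity) h6 _
      _ = Real.exp (-(8 * (B + 1) / ε * K)) := by rw [← Real.exp_nat_mul]; congr 1; ring
      _ ≤ Real.exp (-((B + 1) * s)) := by
        apply Real.exp_le_exp.2
        apply neg_le_neg
        have h7 : 0 ≤ 8 * ((B : ℝ) + 1) / ε := by positivity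
        calc ((B : ℝ) + 1) * s = 8 * (B + 1) / ε * (ε * s / 8) := by field_simp
          _ ≤ _ := mul_le_mul_of_nonneg_left hK2 h7
  -- the union
  have hsub : ((Icc 1 (H ^ 2)).filter (fun n : ℕ => ∃ h : ℕ, 1 ≤ h ∧ (h : ℝ) ≤ L ^ B ∧
    ε < ∑ p ∈ (Icc 1 H).filter (fun p : ℕ => p.Prime ∧ s < p ∧
      (p : ℝ) < Real.exp (√L) ∧ CF (Fq b c n) h p), (1 : ℝ) / p)) ⊆
      (Icc 1 ⌊L ^ B⌋₊).biUnion T := by
    intro n hn
    rw [mem_filter] at hn
    obtain ⟨hn1, m, hm1, hm2, hm3⟩ := hn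
    rw [mem_biUnion]
    refine ⟨m, mem_Icc.2 ⟨hm1, Nat.le_floor hm2⟩, ?_⟩
    rw [hT, mem_filter]
    refine ⟨hn1, ?_⟩
    have e1 : ∑ p ∈ P.filter (fun p => p ∣ m), 1 / (p : ℝ) ≤ ε / 2 := by
      refine (sum_dvd k1 B (P.filter (fun p => p ∣ m)) m hm1 (by rw [← hLB]; exact hm2) ?_).trans ?_
      · intro p hp
        rw [mem_filter] at hp
        exact ⟨(hPm p hp.1).2.1, (hPm p hp.1).2.2.1, hp.2⟩
      · have hls : 0 < Real.log s := Real.log_pos (by linarith)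
        rw [div_le_iff₀ hls]
        rw [div_le_iff₀ hε] at k2
        linarith
    have e2 : (Icc 1 H).filter (fun p : ℕ => p.Prime ∧ s < p ∧
      (p : ℝ) < Real.exp (√L) ∧ CF (Fq b c n) m p) ⊆
        P.filter (fun p => p ∣ m) ∪ P.filter (fun p => n % p ∈ Rh b c m p) := by
      intro p hp
      rw [mem_filter] at hp
      obtain ⟨hp1, hp2, hp3, hp4, hp5⟩ := hp
      have hpP : p ∈ P := by rw [hP, mem_filter]; exact ⟨hp1, hp2, hp3, hp4⟩
      have hp22 : p ≠ 2 := by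
        intro h0
        rw [h0] at hp3
        push_cast at hp3
        linarith
      refine mem_union.2 ?_
      rcases (h b c n).2 m p hp2 hp22 hp5 with h1 | h1
      · left; exact mem_filter.2 ⟨hpP, h1⟩
      · right; exact mem_filter.2 ⟨hpP, mod_mem_Rh b c n m p hp2 hp22 h1⟩
    have e3 : ∑ p ∈ (Icc 1 H).filter (fun p : ℕ => p.Prime ∧ s < p ∧
      (p : ℝ) < Real.exp (√L) ∧ CF (Fq b c n) m p), (1 : ℝ) / p ≤
        ∑ p ∈ P.filter (fun p => p ∣ m), 1 / (p : ℝ) +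
          ∑ p ∈ P.filter (fun p => n % p ∈ Rh b c m p), 1 / (p : ℝ) := by
      refine (sum_le_sum_of_subset_of_nonneg e2 fun _ _ _ => by positivity).trans ?_
      rw [← sum_union_inter]
      exact le_add_of_nonneg_right (sum_nonneg fun _ _ => by positivity)
    linarith
  have hcard := card_le_card hsub
  have hcard2 : (((Icc 1 ⌊L ^ B⌋₊).biUnion T).card : ℝ) ≤
      L ^ B * (2 * (H : ℝ) ^ 2 * Real.exp (-((B + 1) * s))) := by
    have h1 : (((Icc 1 ⌊L ^ B⌋₊).biUnion T).card : ℝ) ≤ ∑ m ∈ Icc 1 ⌊L ^ B⌋₊, ((T m).card : ℝ) := by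
      exact_mod_cast card_biUnion_le
    refine h1.trans ((sum_le_sum fun m _ => hTcard m).trans ?_)
    rw [sum_const, nsmul_eq_mul, Nat.card_Icc, Nat.add_sub_cancel]
    apply mul_le_mul_of_nonneg_right _ (by positivity)
    exact Nat.floor_le (by positivity)
  have hfin : L ^ B * (2 * (H : ℝ) ^ 2 * Real.exp (-((B + 1) * s))) ≤ ε₁ * (H : ℝ) ^ 2 := by
    have h1 : L ^ B * Real.exp (-((B + 1) * s)) = Real.exp (-s) := by
      rw [hLB, ← Real.exp_add]; congr 1; ring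
    have h2 : 2 * Real.exp (-s) ≤ ε₁ := by
      rw [Real.exp_neg, ← hLs, ← div_eq_mul_inv, div_le_iff₀ hL0]
      rw [div_le_iff₀ hε₁] at k6
      linarith
    calc L ^ B * (2 * (H : ℝ) ^ 2 * Real.exp (-((B + 1) * s))) =
        2 * (L ^ B * Real.exp (-((B + 1) * s))) * (H : ℝ) ^ 2 := by ring
      _ = 2 * Real.exp (-s) * (H : ℝ) ^ 2 := by rw [h1]
      _ ≤ _ := mul_le_mul_of_nonneg_right h2 (by positivity)
  calc _ ≤ (((Icc 1 ⌊L ^ B⌋₊).biUnion T).card : ℝ) := by exact_mod_cast hcard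
    _ ≤ _ := hcard2.trans hfin

end Pool.Agent.K3h89.SZ
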