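import Pool.Agent.K3h89.SZ.Base
import Pool.Agent.Y833.RSZ.LOC

/-!
# Project SZ (job 292): local factors with few common primes (adapted from `Pool/Agent/Y833/RSZ/LOC.lean`)
-/

set_option autoImplicit false

open Finset

namespace Pool.Agent.K3h89.SZ

open Pool.Agent.Y677.RSZ (rt rhoT V)
open Pool.Agent.TH423.SH (PS)
open Pool.Agent.Y394.PSP (sum_inv_sq_le pow_le_quad)
open Pool.Agent.Y833.RSZ (rhoT_biUnion card_filter_eq)

theorem rhoT_leP {F : ℤ → ℤ} {p : ℕ} (hp : p.Prime)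
    (hper : ∀ n : ℤ, (p : ℤ) ∣ F (n + p) ↔ (p : ℤ) ∣ F n) (W b : ℕ) {m : ℕ} (t : Fin m → ℕ)
    (hW : ¬ p ∣ W) : rhoT F W b t p ≤ m * rt F p := by
  classical
  have h0 : rhoT F W b t p = ((univ : Finset (Fin m)).biUnion
        (fun i => (range p).filter (fun r : ℕ => (p : ℤ) ∣ F ((W * (r + t i) + b : ℕ) : ℤ)))).card := by
    rw [← rhoT_biUnion]
    unfold rhoT
    exact card_filter_eq fun r _ => Iff.rfl
  rw [h0]
  refine (Finset.card_biUnion_le).trans ?_
  rw [Finset.sum_congr rfl fun i _ => card_shiftP hp hper W b (t i) hW]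
  simp

theorem rhoT_eqP {F : ℤ → ℤ} {p : ℕ} (hp : p.Prime)
    (hper : ∀ n : ℤ, (p : ℤ) ∣ F (n + p) ↔ (p : ℤ) ∣ F n) (W b : ℕ) {m : ℕ} (t : Fin m → ℕ)
    (hW : ¬ p ∣ W) (hd : ∀ i j, i ≠ j → ∀ r : ℕ, (p : ℤ) ∣ F ((W * (r + t i) + b : ℕ) : ℤ) →
      ¬ (p : ℤ) ∣ F ((W * (r + t j) + b : ℕ) : ℤ)) :
    rhoT F W b t p = m * rt F p := by
  classical
  have h0 : rhoT F W b t p = ((univ : Finset (Fin m)).biUnion
        (fun i => (range p).filter (fun r : ℕ => (p : ℤ) ∣ F ((W * (r + t i) + b : ℕ) : ℤ)))).card := by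
    rw [← rhoT_biUnion]
    unfold rhoT
    exact card_filter_eq fun r _ => Iff.rfl
  rw [h0, Finset.card_biUnion]
  · rw [Finset.sum_congr rfl fun i _ => card_shiftP hp hper W b (t i) hW]
    simp
  · intro i _ j _ hij
    show Disjoint _ _
    rw [Finset.disjoint_left]
    intro r hr hr'
    exact hd i j hij r (mem_filter.1 hr).2 (mem_filter.1 hr').2

/-- (LOCP) -/
theorem locP : S_LOCP := by
  classical
  intro g m η hη
  set θ : ℝ := Real.log (1 + η) with hθ
  have hθ0 : 0 < θ := Real.log_pos (by linarith)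
  refine ⟨θ / (4 * (m : ℝ) ^ 3 * g + 4), by positivity,
    max (8 * (m : ℝ) ^ 2 * (g : ℝ) ^ 2 / θ + 2) (2 * m * g + 2 * g + 2), ?_⟩
  intro s hs W N hW1 hN1 hWs F hF R hcf t b ht ht1
  have hs1 : 8 * (m : ℝ) ^ 2 * (g : ℝ) ^ 2 / θ + 2 ≤ s := (le_max_left _ _).trans hs
  have hs2 : 2 * (m : ℝ) * g + 2 * g + 2 ≤ s := (le_max_right _ _).trans hs
  have hm0 : (0 : ℝ) ≤ m := Nat.cast_nonneg m
  have hg0 : (0 : ℝ) ≤ g := Nat.cast_nonneg g
  have hmg0 : (0 : ℝ) ≤ (m : ℝ) * g := mul_nonneg hm0 hg0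
  have hs1' : 1 < s := by linarith
  have hs0 : 0 < s := by linarith
  -- the primes in `PS W R` are larger than `s`
  have hPS : ∀ p ∈ PS W R, p.Prime ∧ ¬ p ∣ W ∧ s < (p : ℝ) := by
    intro p hp
    unfold PS at hp
    rw [mem_filter] at hp
    refine ⟨hp.2.1, hp.2.2, ?_⟩
    by_contra h
    exact hp.2.2 (hWs p hp.2.1 (not_lt.1 h))
  set a : ℕ → ℝ := fun p => 1 - (rhoT F W b t p : ℝ) / p with ha
  set x : ℕ → ℝ := fun p => (rt F p : ℝ) / p with hxdef
  set bb : ℕ → ℝ := fun p => (1 - x p) ^ m with hb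
  -- the differences
  set kk : Fin m × Fin m → ℕ := fun q => ((t q.1 : ℤ) - (t q.2 : ℤ)).natAbs with hkk
  have hkpos : ∀ q ∈ (univ : Finset (Fin m)).offDiag, 1 ≤ kk q ∧ kk q ≤ N := by
    intro q hq
    rw [mem_offDiag] at hq
    constructor
    · rw [Nat.one_le_iff_ne_zero]
      intro h
      apply hq.2.2
      apply ht
      simp only [hkk] at h
      omega
    · have := ht1 q.1
      have := ht1 q.2
      simp only [hkk]
      omega
  -- the exceptional primes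
  set Ex : ℕ → Prop := fun p => ∃ q ∈ (univ : Finset (Fin m)).offDiag, CF F (W * kk q) p with hEx
  have hExs : ∑ p ∈ (PS W R).filter Ex, (1 : ℝ) / p ≤
      (m : ℝ) ^ 2 * (θ / (4 * (m : ℝ) ^ 3 * g + 4)) := by
    rw [sum_filter]
    calc ∑ p ∈ PS W R, (if Ex p then (1 : ℝ) / p else 0)
        ≤ ∑ p ∈ PS W R, ∑ q ∈ (univ : Finset (Fin m)).offDiag,
          (if CF F (W * kk q) p then (1 : ℝ) / p else 0) := by
          apply sum_le_sum
          intro p _
          have hnn : ∀ q ∈ (univ : Finset (Fin m)).offDiag,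
              0 ≤ (if CF F (W * kk q) p then (1 : ℝ) / p else 0) := by
            intro q _
            split_ifs
            · positivity
            · exact le_rfl
          split_ifs with h
          · obtain ⟨q, hq, hc⟩ := h
            refine le_trans ?_ (single_le_sum hnn hq)
            rw [if_pos hc]
          · exact sum_nonneg hnn
      _ = ∑ q ∈ (univ : Finset (Fin m)).offDiag, ∑ p ∈ (PS W R).filter (fun p : ℕ => CF F (W * kk q) p),
          (1 : ℝ) / p := by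
          rw [sum_comm]
          exact sum_congr rfl fun q _ => (sum_filter _ _).symm
      _ ≤ ∑ _q ∈ (univ : Finset (Fin m)).offDiag, θ / (4 * (m : ℝ) ^ 3 * g + 4) := by
          apply sum_le_sum
          intro q hq
          exact hcf (kk q) (hkpos q hq).1 (hkpos q hq).2
      _ = ((univ : Finset (Fin m)).offDiag.card : ℝ) * (θ / (4 * (m : ℝ) ^ 3 * g + 4)) := by
          rw [sum_const, nsmul_eq_mul]
      _ ≤ _ := by
          apply mul_le_mul_of_nonneg_right _ (by positivity)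
          rw [offDiag_card]
          simp only [card_univ, Fintype.card_fin]
          have : m * m - m ≤ m ^ 2 := by
            rw [sq]; omega
          exact_mod_cast this
  -- bounds for the factors
  have hx : ∀ p ∈ PS W R, 0 ≤ x p ∧ x p ≤ g / p ∧ x p ≤ 1 / 2 ∧ (m : ℝ) * x p ≤ 1 / 2 := by
    intro p hp
    obtain ⟨h1, h2, h3⟩ := hPS p hp
    have hp0 : (0 : ℝ) < p := by linarith
    have hr : (rt F p : ℝ) ≤ g := by exact_mod_cast (hF.root p h1).1
    have hr0 : (0 : ℝ) ≤ rt F p := Nat.cast_nonneg _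
    have hxp : x p ≤ g / p := div_le_div_of_nonneg_right hr hp0.le
    refine ⟨div_nonneg hr0 hp0.le, hxp, ?_, ?_⟩
    · refine hxp.trans ?_
      rw [div_le_iff₀ hp0]
      linarith
    · calc (m : ℝ) * x p ≤ m * (g / p) := mul_le_mul_of_nonneg_left hxp hm0
        _ = (m * g) / p := by ring
        _ ≤ 1 / 2 := by
          rw [div_le_iff₀ hp0]
          linarith
  have hb1 : ∀ p ∈ PS W R, 1 - (m : ℝ) * x p ≤ bb p := by
    intro p hp
    obtain ⟨h0, _, h1, h2⟩ := hx p hp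
    have := one_add_mul_le_pow (a := -(x p)) (by linarith) m
    simp only [hb]
    calc 1 - (m : ℝ) * x p = 1 + (m : ℝ) * (-(x p)) := by ring
      _ ≤ (1 + -(x p)) ^ m := this
      _ = (1 - x p) ^ m := by ring
  have hb2 : ∀ p ∈ PS W R, 1 / 2 ≤ bb p := by
    intro p hp
    have := (hx p hp).2.2.2
    have := hb1 p hp
    linarith
  have hb3 : ∀ p ∈ PS W R, bb p ≤ 1 - (m : ℝ) * x p + (m : ℝ) ^ 2 * (x p) ^ 2 := by
    intro p hp
    obtain ⟨h0, _, h1, h2⟩ := hx p hp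
    exact pow_le_quad m (x p) h0 (by linarith)
  have hb4 : ∀ p ∈ PS W R, bb p ≤ 1 := by
    intro p hp
    obtain ⟨h0, _, h1, h2⟩ := hx p hp
    simp only [hb]
    exact pow_le_one₀ (by linarith) (by linarith)
  have ha1 : ∀ p ∈ PS W R, 1 - (m : ℝ) * x p ≤ a p ∧ a p ≤ 1 := by
    intro p hp
    obtain ⟨h1, h2, h3⟩ := hPS p hp
    have hp0 : (0 : ℝ) < p := by linarith
    have hr : (rhoT F W b t p : ℝ) ≤ m * rt F p := by
      exact_mod_cast rhoT_leP h1 (hF.per p h1) W b t h2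
    have hr0 : (0 : ℝ) ≤ rhoT F W b t p := Nat.cast_nonneg _
    simp only [ha, hxdef]
    constructor
    · have : (rhoT F W b t p : ℝ) / p ≤ (m * rt F p) / p := div_le_div_of_nonneg_right hr hp0.le
      rw [mul_div_assoc] at this
      linarith
    · have := div_nonneg hr0 hp0.le
      linarith
  have ha2 : ∀ p ∈ PS W R, ¬ Ex p → a p = 1 - (m : ℝ) * x p := by
    intro p hp hd
    obtain ⟨hp1, hp2, hp3⟩ := hPS p hp
    have hr : rhoT F W b t p = m * rt F p := by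
      apply rhoT_eqP hp1 (hF.per p hp1) W b t hp2
      intro i j hij r h1 h2
      apply hd
      have hq : (i, j) ∈ (univ : Finset (Fin m)).offDiag := by
        rw [mem_offDiag]; exact ⟨mem_univ _, mem_univ _, hij⟩
      refine ⟨(i, j), hq, ?_⟩
      rcases le_total (t i) (t j) with hle | hle
      · refine ⟨_, h1, ?_⟩
        have e : ((W * (r + t i) + b : ℕ) : ℤ) + ((W * kk (i, j) : ℕ) : ℤ) =
            ((W * (r + t j) + b : ℕ) : ℤ) := by
          simp only [hkk]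
          have e1 : ((((t i : ℤ) - (t j : ℤ)).natAbs : ℕ) : ℤ) = (t j : ℤ) - t i := by omega
          push_cast [e1]
          ring
        rw [e]
        exact h2
      · refine ⟨_, h2, ?_⟩
        have e : ((W * (r + t j) + b : ℕ) : ℤ) + ((W * kk (i, j) : ℕ) : ℤ) =
            ((W * (r + t i) + b : ℕ) : ℤ) := by
          simp only [hkk]
          have e1 : ((((t i : ℤ) - (t j : ℤ)).natAbs : ℕ) : ℤ) = (t i : ℤ) - t j := by omega
          push_cast [e1]
          ring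
        rw [e]
        exact h1
    simp only [ha, hr, hxdef]
    push_cast
    ring
  -- the relative error
  set f : ℕ → ℝ := fun p => a p / bb p - 1 with hf
  have hbpos : ∀ p ∈ PS W R, 0 < bb p := fun p hp => by
    have := hb2 p hp
    linarith
  have hf1 : ∀ p ∈ PS W R, |f p| ≤ 2 * |a p - bb p| := by
    intro p hp
    have h0 := hbpos p hp
    have h1 : f p = (a p - bb p) / bb p := by
      simp only [hf]
      field_simp
    rw [h1, abs_div, abs_of_pos h0, div_le_iff₀ h0]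
    have h2 := hb2 p hp
    have h3 := abs_nonneg (a p - bb p)
    nlinarith
  have hf2 : ∀ p ∈ PS W R, |f p| ≤ 2 * (m : ℝ) ^ 2 * (g : ℝ) ^ 2 * (1 / (p : ℝ) ^ 2) +
      (if Ex p then 2 * (m : ℝ) * g * (1 / p) else 0) := by
    intro p hp
    obtain ⟨h0, hg1, h1, h2⟩ := hx p hp
    have hp0 : (0 : ℝ) < p := by have := (hPS p hp).2.2; linarith
    have e1 := hb1 p hp
    have e3 := hb3 p hp
    have e4 := hb4 p hp
    obtain ⟨e5, e6⟩ := ha1 p hp
    refine (hf1 p hp).trans ?_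
    have hsq : (m : ℝ) ^ 2 * (x p) ^ 2 ≤ (m : ℝ) ^ 2 * (g : ℝ) ^ 2 * (1 / (p : ℝ) ^ 2) := by
      have : (x p) ^ 2 ≤ (g / p : ℝ) ^ 2 := pow_le_pow_left₀ h0 hg1 2
      calc (m : ℝ) ^ 2 * (x p) ^ 2 ≤ (m : ℝ) ^ 2 * (g / p : ℝ) ^ 2 :=
            mul_le_mul_of_nonneg_left this (by positivity)
        _ = _ := by ring
    split_ifs with hd
    · have h3 : |a p - bb p| ≤ (m : ℝ) * x p := by
        rw [abs_le]
        constructor <;> linarith
      have h4 : 0 ≤ 2 * (m : ℝ) ^ 2 * (g : ℝ) ^ 2 * (1 / (p : ℝ) ^ 2) := by positivity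
      have h5 : (m : ℝ) * x p ≤ m * g * (1 / p) := by
        calc (m : ℝ) * x p ≤ m * (g / p) := mul_le_mul_of_nonneg_left hg1 hm0
          _ = _ := by ring
      linarith
    · have e7 := ha2 p hp hd
      have h3 : |a p - bb p| ≤ (m : ℝ) ^ 2 * (x p) ^ 2 := by
        rw [abs_le]
        constructor
        · linarith
        · have : 0 ≤ (m : ℝ) ^ 2 * (x p) ^ 2 := by positivity
          linarith
      linarith
  have hsum : ∑ p ∈ PS W R, ‖f p‖ ≤ θ := by
    have h1 : ∑ p ∈ PS W R, ‖f p‖ ≤ ∑ p ∈ PS W R, (2 * (m : ℝ) ^ 2 * (g : ℝ) ^ 2 *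
        (1 / (p : ℝ) ^ 2) + (if Ex p then 2 * (m : ℝ) * g * (1 / p) else 0)) := by
      apply Finset.sum_le_sum
      intro p hp
      rw [Real.norm_eq_abs]
      exact hf2 p hp
    rw [Finset.sum_add_distrib, ← Finset.mul_sum, ← Finset.sum_filter, ← Finset.mul_sum] at h1
    have h2 : ∑ p ∈ PS W R, (1 : ℝ) / (p : ℝ) ^ 2 ≤ 2 / s :=
      sum_inv_sq_le hs1' _ (fun p hp => (hPS p hp).2.2)
    have h6 : 2 * (m : ℝ) ^ 2 * (g : ℝ) ^ 2 * (∑ p ∈ PS W R, (1 : ℝ) / (p : ℝ) ^ 2) ≤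
        2 * (m : ℝ) ^ 2 * (g : ℝ) ^ 2 * (2 / s) :=
      mul_le_mul_of_nonneg_left h2 (by positivity)
    have h6' : 2 * (m : ℝ) ^ 2 * (g : ℝ) ^ 2 * (2 / s) ≤ θ / 2 := by
      have e : 2 * (m : ℝ) ^ 2 * (g : ℝ) ^ 2 * (2 / s) = (4 * (m : ℝ) ^ 2 * (g : ℝ) ^ 2) / s := by ring
      rw [e, div_le_iff₀ hs0]
      have h3 : 8 * (m : ℝ) ^ 2 * (g : ℝ) ^ 2 / θ ≤ s := by linarith
      rw [div_le_iff₀ hθ0] at h3
      linarith
    have h7 : 2 * (m : ℝ) * g * (∑ p ∈ (PS W R).filter Ex, (1 : ℝ) / p) ≤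
        2 * (m : ℝ) * g * ((m : ℝ) ^ 2 * (θ / (4 * (m : ℝ) ^ 3 * g + 4))) :=
      mul_le_mul_of_nonneg_left hExs (by positivity)
    have h7' : 2 * (m : ℝ) * g * ((m : ℝ) ^ 2 * (θ / (4 * (m : ℝ) ^ 3 * g + 4))) ≤ θ / 2 := by
      have hpos : 0 < 4 * (m : ℝ) ^ 3 * g + 4 := by positivity
      have e : 2 * (m : ℝ) * g * ((m : ℝ) ^ 2 * (θ / (4 * (m : ℝ) ^ 3 * g + 4))) =
          (2 * (m : ℝ) ^ 3 * g * θ) / (4 * (m : ℝ) ^ 3 * g + 4) := by ring
      rw [e, div_le_iff₀ hpos]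
      nlinarith [mul_nonneg (mul_nonneg (pow_nonneg hm0 3) hg0) hθ0.le]
    linarith
  have hprod1 : ∏ p ∈ PS W R, (1 + f p) = (∏ p ∈ PS W R, a p) / ∏ p ∈ PS W R, bb p := by
    rw [← Finset.prod_div_distrib]
    apply Finset.prod_congr rfl
    intro p _
    simp only [hf]
    ring
  have hprodb : ∏ p ∈ PS W R, bb p = V F W R ^ m := by
    unfold V
    rw [← Finset.prod_pow]
  have hpos : 0 < V F W R ^ m := by
    rw [← hprodb]
    exact Finset.prod_pos hbpos
  have hnorm := Finset.norm_prod_one_add_sub_one_le (PS W R) f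
  rw [hprod1, hprodb, Real.norm_eq_abs] at hnorm
  have hexp : Real.exp (∑ p ∈ PS W R, ‖f p‖) - 1 ≤ η := by
    have : Real.exp (∑ p ∈ PS W R, ‖f p‖) ≤ Real.exp θ := Real.exp_le_exp.2 hsum
    rw [hθ, Real.exp_log (by linarith)] at this
    linarith
  have hfin : |∏ p ∈ PS W R, a p - V F W R ^ m| =
      |(∏ p ∈ PS W R, a p) / V F W R ^ m - 1| * V F W R ^ m := by
    rw [← abs_of_pos hpos, ← abs_mul, abs_of_pos hpos, sub_mul, one_mul,
      div_mul_cancel₀ _ hpos.ne']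
  change |∏ p ∈ PS W R, a p - V F W R ^ m| ≤ η * V F W R ^ m
  rw [hfin]
  exact mul_le_mul_of_nonneg_right (hnorm.trans hexp) hpos.le

end Pool.Agent.K3h89.SZ
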