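import Pool.Agent.K3h89.SZ.Base
import Pool.Agent.Y677.RSZ.Low

/-! SZ brick LOWP: a lower bound sieve for weak systems. -/

set_option autoImplicit false

open Finset

namespace Pool.Agent.K3h89.SZ

open Pool.Agent.TH423.SH (PS)
open Pool.Agent.Y677.RSZ (rt rhoT V rs fac_nonneg fac_le exJ ev_log)

theorem lowP (h : S_C1P) : S_LOWP := by
  classical
  intro g
  obtain ⟨C, hC1, hC⟩ := h
  obtain ⟨b₀, hb₀⟩ : ∃ b₀ : ℕ, b₀ = C * (g * 1 + 1) := ⟨_, rfl⟩
  have hb₀1 : 1 ≤ b₀ := by rw [hb₀]; exact Nat.mul_pos hC1 (by omega)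
  obtain ⟨E, hE⟩ : ∃ E : ℕ, E = C * b₀ := ⟨_, rfl⟩
  have hE1 : 1 ≤ E := by rw [hE]; exact Nat.mul_pos hC1 hb₀1
  obtain ⟨W, hW⟩ : ∃ W : ℕ, W = primorial (C * (g * 1 + 1) + (2 * g + 2)) := ⟨_, rfl⟩
  have hWpos : 0 < W := by rw [hW]; exact primorial_pos _
  have hW0 : (0 : ℝ) < W := by exact_mod_cast hWpos
  have hWp : ∀ p : ℕ, p.Prime → p ≤ C * (g * 1 + 1) + (2 * g + 2) → p ∣ W := fun p hp hpS => by
    rw [hW]; exact hp.dvd_primorial_iff.2 hpS
  have hWsq : Squarefree W := by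
    rw [hW]
    unfold primorial
    exact Finset.squarefree_prod_of_pairwise_isCoprime (by
      intro a ha b hb hab
      rw [mem_coe, mem_filter] at ha hb
      exact Nat.coprime_iff_isRelPrime.1 ((Nat.coprime_primes ha.2 hb.2).2 hab)) (by
      intro p hp
      rw [mem_filter] at hp
      exact hp.2.prime.squarefree)
  obtain ⟨KV, hKV1, hKV⟩ := V_lowerP
  -- the numerical conditions
  have hnum : ∃ H₀ : ℕ, ∀ H : ℕ, H₀ ≤ H → 2 ≤ H ∧ 2 ^ (4 * E) ≤ H ∧ (4 : ℝ) * W ≤ H ∧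
      8 * W * (KV * Real.log H) ^ (2 * g) * (H : ℝ) ^ (1 / 4 : ℝ) ≤ H := by
    apply Filter.eventually_atTop.1
    filter_upwards [Filter.eventually_ge_atTop 2, Filter.eventually_ge_atTop (2 ^ (4 * E)),
      Filter.eventually_ge_atTop (4 * W), ev_log (2 * g) (8 * W * KV ^ (2 * g)) (3 / 4) (by norm_num)]
      with H h1 h2 h3 h4
    have hH0 : (0 : ℝ) < H := by exact_mod_cast (show 0 < H by omega)
    refine ⟨h1, h2, by exact_mod_cast h3, ?_⟩
    calc 8 * W * (KV * Real.log H) ^ (2 * g) * (H : ℝ) ^ (1 / 4 : ℝ) =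
        (8 * W * KV ^ (2 * g) * Real.log H ^ (2 * g)) * (H : ℝ) ^ (1 / 4 : ℝ) := by
          rw [mul_pow]; ring
      _ ≤ (H : ℝ) ^ (3 / 4 : ℝ) * (H : ℝ) ^ (1 / 4 : ℝ) := by gcongr
      _ = H := by rw [← Real.rpow_add hH0]; norm_num
  obtain ⟨H₀, hH₀⟩ := hnum
  refine ⟨1 / (8 * E), 1 / (8 * W), by positivity, by positivity, H₀, ?_⟩
  intro F Y H hF hH
  obtain ⟨n1, n2, n3, n4⟩ := hH₀ H hH
  have hH0 : (0 : ℝ) < H := by exact_mod_cast (show 0 < H by omega)
  obtain ⟨J, hJ1, hJ2⟩ := exJ E H hE1 n2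
  -- an admissible class
  obtain ⟨b, hbW, hb⟩ : ∃ b < W, ∀ p ∈ W.primeFactors, ¬ (p : ℤ) ∣ F b := by
    have h1 := pigP F hF.per W hWsq
    have h2 : 0 < ∏ p ∈ W.primeFactors, (p - rt F p) := by
      apply prod_pos
      intro p hp
      have := (hF.root p (Nat.prime_of_mem_primeFactors hp)).2
      omega
    rw [← h1, card_pos] at h2
    obtain ⟨b, hb⟩ := h2
    rw [mem_filter, mem_range] at hb
    exact ⟨b, hb.1, hb.2⟩
  obtain ⟨M, hM⟩ : ∃ M : ℕ, M = Y / W := ⟨_, rfl⟩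
  have hHW : (H : ℝ) / W - 1 ≤ ((H / W : ℕ) : ℝ) := by
    have h1 := Nat.lt_div_mul_add (a := H) hWpos
    have h2 : (H : ℝ) < (H / W : ℕ) * W + W := by exact_mod_cast h1
    rw [sub_le_iff_le_add, div_le_iff₀ hW0]
    linarith
  have hHW4 : (4 : ℝ) ≤ H / W := by rw [le_div_iff₀ hW0]; exact n3
  obtain ⟨L, hL⟩ : ∃ L : ℕ, L + 1 = H / W := by
    refine ⟨H / W - 1, ?_⟩
    have h1 : (1 : ℝ) ≤ ((H / W : ℕ) : ℝ) := by linarith
    have h2 : 1 ≤ H / W := by exact_mod_cast h1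
    omega
  have hLr : (H : ℝ) / W / 2 ≤ L := by
    have h1 : (L : ℝ) + 1 = ((H / W : ℕ) : ℝ) := by exact_mod_cast hL
    linarith
  set z : ℕ := 2 ^ 2 ^ J with hz
  have hzH : (H : ℝ) ^ (1 / (8 * (E : ℝ))) < z := by
    have h1 : (H : ℝ) < (z : ℝ) ^ (8 * E) := by exact_mod_cast hJ2
    have hE0 : (0 : ℝ) < E := by exact_mod_cast hE1
    calc (H : ℝ) ^ (1 / (8 * (E : ℝ))) < ((z : ℝ) ^ (8 * E)) ^ (1 / (8 * (E : ℝ))) :=
          Real.rpow_lt_rpow hH0.le h1 (by positivity)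
      _ = z := by
          rw [← Real.rpow_natCast, ← Real.rpow_mul (Nat.cast_nonneg _)]
          push_cast
          rw [mul_one_div_cancel (by positivity), Real.rpow_one]
  have hzle : z ≤ H := by
    have h1 : z ≤ z ^ (4 * E) := Nat.le_self_pow (by omega) _
    exact h1.trans hJ1
  set t : Fin 1 → ℕ := fun _ => 0 with ht
  have h1 := hC g 1 b₀ W hb₀.ge hWpos (fun p hp hpS => hWp p hp (by omega)) F hF t b J 1 0 M L le_rfl
    (fun p hp h => by
      unfold PS at hp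
      rw [mem_filter] at hp
      exact hp.2.1.ne_one (Nat.dvd_one.1 h))
  have hprod : ∏ p ∈ PS W z, (1 - (rhoT F W b t p : ℝ) / p) = V F W z := by
    unfold V
    apply prod_congr rfl
    intro p hp
    unfold PS at hp
    rw [mem_filter] at hp
    have h2 : rhoT F W b t p = rt F p := by
      rw [← card_shiftP hp.2.1 (hF.per p hp.2.1) W b 0 hp.2.2]
      unfold rhoT
      apply congrArg Finset.card
      ext r
      simp only [mem_filter, ht]
      constructor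
      · rintro ⟨h3, _, h4⟩; exact ⟨h3, h4⟩
      · rintro ⟨h3, h4⟩; exact ⟨h3, 0, h4⟩
    rw [h2]
  rw [hprod] at h1
  obtain ⟨T, hT⟩ : ∃ T : Finset ℕ, T = (Ioc M (M + L)).filter (fun K => K % 1 = 0 % 1 ∧
      ∀ p ∈ PS W z, ∀ i, ¬ (p : ℤ) ∣ F ((W * (K + t i) + b : ℕ) : ℤ)) := ⟨_, rfl⟩
  have h1' : |(T.card : ℝ) - L * V F W z| ≤ (1 / 2 : ℝ) ^ b₀ * (L * V F W z) + (z : ℝ) ^ E := by
    rw [hT, hE]
    have h2 : ((z : ℕ) : ℝ) = (2 : ℝ) ^ 2 ^ J := by rw [hz]; push_cast; rfl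
    rw [h2]
    have h3 : (L : ℝ) / ((1 : ℕ) : ℝ) = L := by simp
    rw [h3] at h1
    convert h1 using 6
  have hVz0 : 0 < V F W z := V_posP hF W z
  have hVzH : V F W H ≤ V F W z := by
    unfold V
    have hsub : PS W z ⊆ PS W H := by
      intro p hp
      unfold PS at hp ⊢
      rw [mem_filter, mem_Icc] at hp ⊢
      exact ⟨⟨hp.1.1, hp.1.2.trans hzle⟩, hp.2⟩
    rw [← prod_sdiff hsub]
    exact mul_le_of_le_one_left (prod_nonneg fun p _ => fac_nonneg p)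
      (prod_le_one (fun p _ => fac_nonneg p) (fun p _ => fac_le p))
  have hV1 : V F 1 H ≤ V F W H := by
    unfold V
    have hsub : PS W H ⊆ PS 1 H := by
      intro p hp
      unfold PS at hp ⊢
      rw [mem_filter] at hp ⊢
      exact ⟨hp.1, hp.2.1, by rw [Nat.dvd_one]; exact hp.2.1.ne_one⟩
    rw [← prod_sdiff hsub]
    exact mul_le_of_le_one_left (prod_nonneg fun p _ => fac_nonneg p)
      (prod_le_one (fun p _ => fac_nonneg p) (fun p _ => fac_le p))
  have hVlow := hKV g F W H hF n1 (fun p hp hpg => hWp p hp (by omega))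
  have hlogpos : 0 < Real.log H := Real.log_pos (by exact_mod_cast (show 1 < H by omega))
  have hKV0 : 0 < (KV * Real.log H) ^ (2 * g) := by positivity
  have hzE : (z : ℝ) ^ E ≤ (H : ℝ) ^ (1 / 4 : ℝ) := by
    have h2 : ((z : ℝ) ^ E) ^ 4 ≤ H := by
      rw [← pow_mul, mul_comm E 4]; exact_mod_cast hJ1
    calc (z : ℝ) ^ E = (((z : ℝ) ^ E) ^ 4) ^ (1 / 4 : ℝ) := by
          rw [← Real.rpow_natCast ((z : ℝ) ^ E) 4, ← Real.rpow_mul (by positivity)]
          norm_num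
      _ ≤ (H : ℝ) ^ (1 / 4 : ℝ) := Real.rpow_le_rpow (by positivity) h2 (by norm_num)
  have hhalf : (1 / 2 : ℝ) ^ b₀ ≤ 1 / 2 := by
    calc (1 / 2 : ℝ) ^ b₀ ≤ (1 / 2 : ℝ) ^ 1 := pow_le_pow_of_le_one (by norm_num) (by norm_num) hb₀1
      _ = 1 / 2 := by norm_num
  have hLV0 : 0 ≤ (L : ℝ) * V F W z := by positivity
  have hcount : (L : ℝ) * V F W z / 2 - (H : ℝ) ^ (1 / 4 : ℝ) ≤ T.card := by
    have h2 := (abs_le.1 h1').1
    have h3 : (1 / 2 : ℝ) ^ b₀ * (L * V F W z) ≤ 1 / 2 * (L * V F W z) := by gcongr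
    linarith
  have hfin : 1 / (8 * (W : ℝ)) * (H * V F 1 H) ≤ T.card := by
    refine le_trans ?_ hcount
    have h2 : (H : ℝ) ^ (1 / 4 : ℝ) ≤ H / (8 * W) * V F W H := by
      have h3 : (H : ℝ) ^ (1 / 4 : ℝ) ≤ H / (8 * W) * (1 / (KV * Real.log H) ^ (2 * g)) := by
        rw [div_mul_div_comm, mul_one, le_div_iff₀ (by positivity)]
        calc (H : ℝ) ^ (1 / 4 : ℝ) * (8 * W * (KV * Real.log H) ^ (2 * g)) =
            8 * W * (KV * Real.log H) ^ (2 * g) * (H : ℝ) ^ (1 / 4 : ℝ) := by ring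
          _ ≤ H := n4
      refine h3.trans ?_
      gcongr
    have hVH0 : 0 ≤ V F W H := (V_posP hF W H).le
    have h3 : (H : ℝ) / W / 2 * V F W H ≤ L * V F W z := by gcongr
    have h4 : 1 / (8 * (W : ℝ)) * (H * V F 1 H) ≤ H / (8 * W) * V F W H := by
      rw [div_mul_eq_mul_div, one_mul, div_mul_eq_mul_div]
      gcongr
    have h5 : (H : ℝ) / W / 2 * V F W H = 4 * (H / (8 * W) * V F W H) := by
      have e1 : (H : ℝ) / W / 2 = 4 * (H / (8 * W)) := by
        rw [div_div, mul_div_assoc', div_eq_div_iff (by positivity) (by positivity)]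
        ring
      rw [e1]
      ring
    linarith
  refine ⟨T.image (fun K => W * K + b), ?_, ?_, ?_⟩
  · intro n hn
    rw [mem_image] at hn
    obtain ⟨K, hK, rfl⟩ := hn
    rw [hT, mem_filter, mem_Ioc] at hK
    rw [mem_Ioc]
    have e1 : W * (Y / W) ≤ Y := Nat.mul_div_le Y W
    have e2 : Y < W * (Y / W) + W := Nat.lt_mul_div_succ Y hWpos |>.trans_eq (by ring)
    have e3 : W * (H / W) ≤ H := Nat.mul_div_le H W
    constructor
    · have e4 : W * (M + 1) ≤ W * K := Nat.mul_le_mul_left _ (by omega)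
      have e5 : W * (M + 1) = W * (Y / W) + W := by rw [hM]; ring
      omega
    · have e4 : W * K ≤ W * (M + L) := Nat.mul_le_mul_left _ (by omega)
      have e5 : W * (M + L) + W = W * (Y / W) + W * (L + 1) := by rw [hM]; ring
      rw [hL] at e5
      omega
  · intro n hn p hp hpH
    rw [mem_image] at hn
    obtain ⟨K, hK, rfl⟩ := hn
    rw [hT, mem_filter] at hK
    by_cases hpW : p ∣ W
    · intro hcon
      apply hb p (Nat.mem_primeFactors.2 ⟨hp, hpW, hWpos.ne'⟩)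
      refine (perP_mod (hF.per p hp) (W * K + b) b ?_).1 hcon
      have : W * K ≡ 0 [MOD p] := (Nat.modEq_zero_iff_dvd).2 (hpW.mul_right K)
      simpa using this.add_right b
    · have hpz : p ≤ z := by
        have : (p : ℝ) < z := hpH.trans_lt hzH
        exact_mod_cast this.le
      have h2 := hK.2.2 p (by
        unfold PS
        rw [mem_filter, mem_Icc]
        exact ⟨⟨hp.one_lt.le, hpz⟩, hp, hpW⟩) 0
      simpa [ht] using h2
  · rw [card_image_of_injective]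
    · exact hfin
    · intro K K' hKK
      have : W * K + b = W * K' + b := hKK
      have h2 : W * K = W * K' := by omega
      exact Nat.eq_of_mul_eq_mul_left hWpos h2

end Pool.Agent.K3h89.SZ
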