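import Pool.Agent.K3h89.SZ.Base

/-!
# Project SZ (job 296): the properties of the stripped function
-/

set_option autoImplicit false

open Finset

namespace Pool.Agent.K3h89.SZ

open Pool.Agent.TH423.SH (PS)
open Pool.Agent.Y677.RSZ (rt V)

theorem one_sub_sum_le (s : Finset ℕ) (f : ℕ → ℝ) (h : ∀ p ∈ s, 0 ≤ f p ∧ f p ≤ 1) :
    1 - ∑ p ∈ s, f p ≤ ∏ p ∈ s, (1 - f p) := by
  classical
  induction s using Finset.induction_on with
  | empty => simp
  | insert q s hq ih =>
    have h1 := ih fun p hp => h p (mem_insert_of_mem hp)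
    have h2 := h q (mem_insert_self _ _)
    have h3 : 0 ≤ ∏ p ∈ s, (1 - f p) := prod_nonneg fun p hp => by
      linarith [(h p (mem_insert_of_mem hp)).2]
    have h4 : 0 ≤ ∑ p ∈ s, f p := sum_nonneg fun p hp => (h p (mem_insert_of_mem hp)).1
    rw [prod_insert hq, sum_insert hq]
    nlinarith [mul_le_mul_of_nonneg_left h1 (by linarith : 0 ≤ 1 - f q), mul_nonneg h2.1 h4]

section

variable (F : ℤ → ℤ) (H : ℕ) (bad : ℕ → Prop)

theorem strip_dvd (x : ℤ) {p : ℕ} (hp : p.Prime) :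
    (p : ℤ) ∣ strip F H bad x ↔ p ≤ H ∧ ¬ bad p ∧ (p : ℤ) ∣ F x := by
  classical
  unfold strip
  rw [Prime.dvd_finset_prod_iff (Nat.prime_iff_prime_int.1 hp)]
  constructor
  · rintro ⟨q, hq, hpq⟩
    rw [mem_filter, mem_Icc] at hq
    have h1 : p ∣ q := by exact_mod_cast hpq
    have h2 : p = q := (Nat.prime_dvd_prime_iff_eq hp hq.2.1).1 h1
    subst h2
    exact ⟨hq.1.2, hq.2.2⟩
  · rintro ⟨h1, h2⟩
    exact ⟨p, by rw [mem_filter, mem_Icc]; exact ⟨⟨hp.one_lt.le, h1⟩, hp, h2⟩, dvd_refl _⟩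

theorem rt_strip_bad {p : ℕ} (hp : p.Prime) (hb : bad p) : rt (strip F H bad) p = 0 := by
  unfold rt
  rw [card_eq_zero, filter_eq_empty_iff]
  intro r _ h
  exact ((strip_dvd F H bad _ hp).1 h).2.1 hb

theorem rt_strip_good {p : ℕ} (hp : p.Prime) (hb : ¬ bad p) (hH : p ≤ H) :
    rt (strip F H bad) p = rt F p := by
  unfold rt
  congr 1
  ext r
  rw [mem_filter, mem_filter, strip_dvd F H bad _ hp]
  tauto

theorem rt_strip_le {p : ℕ} (hp : p.Prime) : rt (strip F H bad) p ≤ rt F p := by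
  unfold rt
  apply card_le_card
  intro r hr
  rw [mem_filter, strip_dvd F H bad _ hp] at hr
  rw [mem_filter]
  exact ⟨hr.1, hr.2.2.2⟩

theorem strip_le {x : ℤ} (hx : F x ≠ 0) : strip F H bad x ≠ 0 ∧ |strip F H bad x| ≤ |F x| := by
  classical
  unfold strip
  set S := (Icc 1 H).filter (fun p : ℕ => p.Prime ∧ ¬ bad p ∧ (p : ℤ) ∣ F x) with hS
  have h0 : (∏ p ∈ S, (p : ℤ)) = ((∏ p ∈ S, p : ℕ) : ℤ) := by push_cast; rfl
  have hdvd : (∏ p ∈ S, p) ∣ (F x).natAbs := by
    apply Finset.prod_primes_dvd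
    · intro p hp
      rw [hS, mem_filter] at hp
      exact hp.2.1.prime
    · intro p hp
      rw [hS, mem_filter] at hp
      exact Int.natCast_dvd.1 hp.2.2.2
  have hpos : 0 < ∏ p ∈ S, p := prod_pos fun p hp => by
    rw [hS, mem_filter] at hp
    exact hp.2.1.pos
  have hle : (∏ p ∈ S, p) ≤ (F x).natAbs := Nat.le_of_dvd (Int.natAbs_pos.2 hx) hdvd
  rw [h0]
  refine ⟨by exact_mod_cast hpos.ne', ?_⟩
  rw [Nat.abs_cast, Int.abs_eq_natAbs]
  exact_mod_cast hle

end

/-- (STRIP) -/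
theorem stripP : S_STRIP := by
  classical
  intro g F H bad hF
  refine ⟨⟨?_, ?_⟩, fun x p hp => strip_dvd F H bad x hp, fun x hx => strip_le F H bad hx, ?_⟩
  · intro p hp n
    rw [strip_dvd F H bad _ hp, strip_dvd F H bad _ hp, hF.per p hp n]
  · intro p hp
    have h1 := rt_strip_le F H bad hp
    have h2 := hF.root p hp
    omega
  · intro hsum _
    have hmem : ∀ p ∈ PS 1 H, p.Prime ∧ p ≤ H := by
      intro p hp
      unfold PS at hp
      rw [mem_filter, mem_Icc] at hp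
      exact ⟨hp.2.1, hp.1.2⟩
    set f : ℕ → ℝ := fun p => (rt F p : ℝ) / p with hf
    have hf01 : ∀ p ∈ PS 1 H, 0 ≤ f p ∧ f p ≤ 1 := by
      intro p hp
      have h0 : (0 : ℝ) < p := by exact_mod_cast (hmem p hp).1.pos
      refine ⟨by positivity, ?_⟩
      rw [hf]
      simp only
      rw [div_le_one h0]
      exact_mod_cast (hF.root p (hmem p hp).1).2.le
    have hVs : V (strip F H bad) 1 H = ∏ p ∈ (PS 1 H).filter (fun p => ¬ bad p), (1 - f p) := by
      unfold V
      rw [← prod_filter_mul_prod_filter_not (PS 1 H) bad]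
      have h1 : ∏ p ∈ (PS 1 H).filter bad, (1 - (rt (strip F H bad) p : ℝ) / p) = 1 := by
        apply prod_eq_one
        intro p hp
        rw [mem_filter] at hp
        rw [rt_strip_bad F H bad (hmem p hp.1).1 hp.2]
        simp
      rw [h1, one_mul]
      apply prod_congr rfl
      intro p hp
      rw [mem_filter] at hp
      rw [rt_strip_good F H bad (hmem p hp.1).1 hp.2 (hmem p hp.1).2]
    have hVF : V F 1 H = (∏ p ∈ (PS 1 H).filter bad, (1 - f p)) *
        ∏ p ∈ (PS 1 H).filter (fun p => ¬ bad p), (1 - f p) := by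
      unfold V
      rw [prod_filter_mul_prod_filter_not (PS 1 H) bad]
    have hpos : 0 ≤ ∏ p ∈ (PS 1 H).filter (fun p => ¬ bad p), (1 - f p) :=
      prod_nonneg fun p hp => by
        rw [mem_filter] at hp
        linarith [(hf01 p hp.1).2]
    have hlow := one_sub_sum_le ((PS 1 H).filter bad) f fun p hp => hf01 p (mem_filter.1 hp).1
    have hs1 : ∑ p ∈ (PS 1 H).filter bad, f p ≤
        g * ∑ p ∈ (Icc 1 H).filter (fun p : ℕ => p.Prime ∧ bad p), (1 : ℝ) / p := by
      rw [mul_sum]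
      have hsub : (PS 1 H).filter bad ⊆ (Icc 1 H).filter (fun p : ℕ => p.Prime ∧ bad p) := by
        intro p hp
        rw [mem_filter] at hp
        unfold PS at hp
        rw [mem_filter] at hp
        rw [mem_filter]
        exact ⟨hp.1.1, hp.1.2.1, hp.2⟩
      refine (sum_le_sum fun p hp => ?_).trans
        (sum_le_sum_of_subset_of_nonneg hsub fun p _ _ => by positivity)
      rw [mem_filter] at hp
      have h1 : (rt F p : ℝ) ≤ g := by exact_mod_cast (hF.root p (hmem p hp.1).1).1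
      rw [hf, mul_one_div]
      exact div_le_div_of_nonneg_right h1 (Nat.cast_nonneg p)
    have hs2 : ∑ p ∈ (PS 1 H).filter bad, f p ≤ 1 / 2 := by
      refine hs1.trans ?_
      have hg : (0 : ℝ) ≤ g := Nat.cast_nonneg g
      refine (mul_le_mul_of_nonneg_left hsum hg).trans ?_
      rw [mul_one_div, div_le_div_iff₀ (by positivity) (by norm_num)]
      nlinarith
    rw [hVs, hVF]
    nlinarith [mul_le_mul_of_nonneg_right (show (1 : ℝ) / 2 ≤ ∏ p ∈ (PS 1 H).filter bad, (1 - f p) by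
      linarith) hpos]

end Pool.Agent.K3h89.SZ
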