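import Pool.Agent.K3h89.SZ.Stm
import Pool.Agent.TH423.SH.FLIP
import Pool.Agent.TH423.SH.FLLP
import Pool.Agent.TH423.SH.PRDP

/-!
# Project SZ (helper89), brick VUP: the sieve product is small for most `n`
-/

set_option autoImplicit false

open Finset

namespace Pool.Agent.K3h89.SZ

open Pool.Agent.TH423.SH (PS)
open Pool.Agent.Y677.RSZ (V)

namespace VUP

/-- the sifting level -/
theorem exJ (E H : ℕ) (hE : 1 ≤ E) (hH : 2 ^ (4 * E) ≤ H) :
    ∃ J : ℕ, (2 ^ 2 ^ J) ^ (4 * E) ≤ H ∧ H < (2 ^ 2 ^ J) ^ (8 * E) := by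
  classical
  set P : ℕ → Prop := fun J => (2 ^ 2 ^ J) ^ (4 * E) ≤ H with hP
  have h0 : P 0 := by simpa [hP] using hH
  refine ⟨Nat.findGreatest P H, Nat.findGreatest_spec (P := P) (Nat.zero_le _) h0, ?_⟩
  by_contra hcon
  push Not at hcon
  set J := Nat.findGreatest P H with hJ
  have h1 : P (J + 1) := by
    simp only [hP]
    calc (2 ^ 2 ^ (J + 1)) ^ (4 * E) = (2 ^ 2 ^ J) ^ (8 * E) := by
          rw [← pow_mul, ← pow_mul]
          congr 1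
          ring
      _ ≤ H := hcon
  have h2 : J + 1 ≤ H := by
    have h3 : J + 1 < 2 ^ (J + 1) := Nat.lt_two_pow_self
    have h4 : 2 ^ (J + 1) < 2 ^ 2 ^ (J + 1) :=
      Nat.pow_lt_pow_right (by norm_num) Nat.lt_two_pow_self
    have h5 : 2 ^ 2 ^ (J + 1) ≤ (2 ^ 2 ^ (J + 1)) ^ (4 * E) :=
      Nat.le_self_pow (by omega) _
    have h6 : (2 ^ 2 ^ (J + 1)) ^ (4 * E) ≤ H := h1
    omega
  have h3 := Nat.le_findGreatest (P := P) h2 h1
  omega

theorem mem_PS' {W R p : ℕ} (h : p ∈ PS W R) : (1 ≤ p ∧ p ≤ R) ∧ p.Prime ∧ ¬ p ∣ W := by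
  unfold PS at h
  rw [mem_filter, mem_Icc] at h
  exact h

open Classical in
/-- upper bound sieve for one class modulo each prime -/
theorem cntle (δ : ℝ) (hδ : 0 < δ) : ∃ C₁ : ℝ, 0 < C₁ ∧ ∃ H₁ : ℕ, ∀ H : ℕ, H₁ ≤ H → ∀ N : ℕ, H ≤ N →
    ∀ c : ℕ → ℕ, (((Ioc 0 N).filter (fun n => ∀ p : ℕ, p.Prime → (p : ℝ) ≤ (H : ℝ) ^ δ →
      n % p ≠ c p % p)).card : ℝ) ≤ C₁ * (N / Real.log H) := by
  obtain ⟨C, hC1, hFL⟩ := Pool.Agent.TH423.SH.fli Pool.Agent.TH423.SH.fll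
  set b : ℕ := C * 2 with hb
  set W : ℕ := (C * 2).factorial with hW
  have hW1 : 1 ≤ W := Nat.factorial_pos _
  have hWp : ∀ p : ℕ, p.Prime → p ≤ C * (1 + 1) → p ∣ W := by
    intro p hp hpC
    exact (Nat.Prime.dvd_factorial hp).2 hpC
  set E : ℕ := C * b + ⌈1 / δ⌉₊ + 1 with hE
  have hE1 : 1 ≤ E := by omega
  have hEδ : 1 / (4 * E : ℝ) ≤ δ := by
    have h1 : 1 / δ ≤ (⌈1 / δ⌉₊ : ℝ) := Nat.le_ceil _
    have h2 : ((⌈1 / δ⌉₊ : ℕ) : ℝ) ≤ (E : ℝ) := by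
      have : ⌈1 / δ⌉₊ ≤ E := by omega
      exact_mod_cast this
    have h3 : (0 : ℝ) < E := by exact_mod_cast hE1
    have h4 : 1 ≤ (E : ℝ) * δ := by
      rw [div_le_iff₀ hδ] at h1
      exact h1.trans (mul_le_mul_of_nonneg_right h2 hδ.le)
    rw [div_le_iff₀ (by positivity)]
    nlinarith
  refine ⟨16 * E * W + 2, by positivity, max (2 ^ (4 * E)) 3, fun H hH N hHN c => ?_⟩
  have hH1 : 2 ^ (4 * E) ≤ H := (le_max_left _ _).trans hH
  have hH3 : 3 ≤ H := (le_max_right _ _).trans hH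
  have hHr : (3 : ℝ) ≤ H := by exact_mod_cast hH3
  have hlog : 0 < Real.log H := Real.log_pos (by linarith)
  obtain ⟨J, hJ1, hJ2⟩ := exJ E H hE1 hH1
  set z : ℕ := 2 ^ 2 ^ J with hz
  have hz2 : 2 ≤ z := by
    calc 2 = 2 ^ 1 := (pow_one 2).symm
      _ ≤ 2 ^ 2 ^ J := Nat.pow_le_pow_right (by norm_num) (Nat.one_le_two_pow)
  have hzr : (2 : ℝ) ≤ z := by exact_mod_cast hz2
  have hlogz : 0 < Real.log z := Real.log_pos (by linarith)
  -- `z ≤ H ^ δ`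
  have hzδ : (z : ℝ) ≤ (H : ℝ) ^ δ := by
    have h1 : (z : ℝ) ^ (4 * E) ≤ H := by exact_mod_cast hJ1
    have h2 : ((z : ℝ) ^ (4 * E)) ^ (1 / ((4 * E : ℕ) : ℝ)) ≤ (H : ℝ) ^ (1 / ((4 * E : ℕ) : ℝ)) :=
      Real.rpow_le_rpow (by positivity) h1 (by positivity)
    rw [one_div, Real.pow_rpow_inv_natCast (by positivity) (by omega)] at h2
    refine h2.trans (Real.rpow_le_rpow_of_exponent_le (by linarith) ?_)
    rw [← one_div]
    push_cast
    exact hEδ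
  -- `log H ≤ 8 E log z`
  have hlog2 : Real.log H ≤ 8 * E * Real.log z := by
    have h1 : (H : ℝ) ≤ (z : ℝ) ^ (8 * E) := by exact_mod_cast hJ2.le
    have h2 := Real.log_le_log (by linarith) h1
    rw [Real.log_pow] at h2
    push_cast at h2
    exact h2
  -- the error
  have herr : ((2 : ℝ) ^ 2 ^ J) ^ (C * b) ≤ √H := by
    have h0 : ((2 : ℝ) ^ 2 ^ J) = (z : ℝ) := by rw [hz]; push_cast; rfl
    rw [h0]
    have h1 : (z : ℝ) ^ (C * b) ≤ (z : ℝ) ^ (2 * E) :=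
      pow_le_pow_right₀ (by linarith) (by omega)
    refine h1.trans ?_
    apply Real.le_sqrt_of_sq_le
    rw [← pow_mul]
    have h2 : 2 * E * 2 = 4 * E := by ring
    rw [h2]
    exact_mod_cast hJ1
  have hsq : √(H : ℝ) * Real.log H ≤ 2 * H := by
    have h1 : Real.log (√H) ≤ √H - 1 := Real.log_le_sub_one_of_pos (Real.sqrt_pos.2 (by linarith))
    rw [Real.log_sqrt (by linarith)] at h1
    have h2 : Real.log H ≤ 2 * √H := by linarith
    have h3 : √(H : ℝ) * √H = H := Real.mul_self_sqrt (by linarith)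
    calc √(H : ℝ) * Real.log H ≤ √(H : ℝ) * (2 * √H) :=
          mul_le_mul_of_nonneg_left h2 (Real.sqrt_nonneg _)
      _ = 2 * H := by rw [mul_left_comm, h3]
  -- the sieve
  have hsieve := hFL 1 b W 1 (le_of_eq (by rw [hb])) hW1 hWp le_rfl 0 N J 0 (Nat.zero_le _)
    (fun p hp h1 => by
      have := (mem_PS' hp).2.1.one_lt
      rw [Nat.dvd_one] at h1
      omega) (fun p => {c p % p}) (fun p hp => ⟨card_singleton _, fun x hx => by
        rw [mem_singleton] at hx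
        rw [hx]
        exact Nat.mod_lt _ (mem_PS' hp).2.1.pos⟩)
  obtain ⟨T, hT, hTc⟩ : ∃ T : Finset ℕ, (∀ n, n ∈ T ↔ n ∈ Ioc 0 N ∧ (n % 1 = 0 % 1 ∧
        ∀ p ∈ PS W (2 ^ 2 ^ J), n % p ∉ ({c p % p} : Finset ℕ))) ∧
      |(T.card : ℝ) - ((N : ℝ) - ((0 : ℕ) : ℝ)) / ((1 : ℕ) : ℝ) *
        Pool.Agent.TH423.SH.PIj W (2 ^ 2 ^ J) 1| ≤
      (1 / 2 : ℝ) ^ b * (((N : ℝ) - ((0 : ℕ) : ℝ)) / ((1 : ℕ) : ℝ) *
        Pool.Agent.TH423.SH.PIj W (2 ^ 2 ^ J) 1) + ((2 : ℝ) ^ 2 ^ J) ^ (C * b) := by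
    refine ⟨_, ?_, hsieve⟩
    intro n
    simp only [mem_filter]
  have hsub : (Ioc 0 N).filter (fun n => ∀ p : ℕ, p.Prime → (p : ℝ) ≤ (H : ℝ) ^ δ →
      n % p ≠ c p % p) ⊆ T := by
    intro n hn
    rw [mem_filter] at hn
    rw [hT]
    refine ⟨hn.1, by rw [Nat.mod_one, Nat.mod_one], fun p hp => ?_⟩
    rw [mem_singleton]
    have hp' := (mem_PS' hp)
    refine hn.2 p hp'.2.1 (le_trans ?_ hzδ)
    exact_mod_cast hp'.1.2
  have hcard : (((Ioc 0 N).filter (fun n => ∀ p : ℕ, p.Prime → (p : ℝ) ≤ (H : ℝ) ^ δ →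
      n % p ≠ c p % p)).card : ℝ) ≤ (T.card : ℝ) := by
    exact_mod_cast card_le_card hsub
  have hPRB := Pool.Agent.TH423.SH.prb W z hW1 hz2
  set P1 : ℝ := Pool.Agent.TH423.SH.PIj W (2 ^ 2 ^ J) 1 with hPP
  have hP0 : 0 ≤ P1 := by
    rw [hPP]
    unfold Pool.Agent.TH423.SH.PIj
    apply prod_nonneg
    intro p hp
    have hp1 : (1 : ℝ) ≤ p := by exact_mod_cast (mem_PS' hp).1.1
    rw [sub_nonneg, Nat.cast_one, div_le_one (by linarith)]
    exact hp1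
  have hφ : (1 : ℝ) ≤ Nat.totient W := by exact_mod_cast Nat.totient_pos.2 hW1
  have hP1 : P1 * Real.log H ≤ 8 * E * W := by
    have h1 : P1 * Real.log z ≤ W := by
      calc P1 * Real.log z = P1 * Real.log z * 1 := (mul_one _).symm
        _ ≤ P1 * Real.log z * Nat.totient W := mul_le_mul_of_nonneg_left hφ (by positivity)
        _ ≤ W := hPRB
    calc P1 * Real.log H ≤ P1 * (8 * E * Real.log z) := mul_le_mul_of_nonneg_left hlog2 hP0
      _ = 8 * E * (P1 * Real.log z) := by ring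
      _ ≤ 8 * E * W := mul_le_mul_of_nonneg_left h1 (by positivity)
  have hhalf : (1 / 2 : ℝ) ^ b ≤ 1 := pow_le_one₀ (by norm_num) (by norm_num)
  have hN0 : (0 : ℝ) ≤ N := Nat.cast_nonneg _
  have hmain : (((Ioc 0 N).filter (fun n => ∀ p : ℕ, p.Prime → (p : ℝ) ≤ (H : ℝ) ^ δ →
      n % p ≠ c p % p)).card : ℝ) ≤ 2 * N * P1 + √H := by
    have h1 := (abs_le.1 hTc).2
    have h2 : ((N : ℝ) - ((0 : ℕ) : ℝ)) / ((1 : ℕ) : ℝ) * P1 = N * P1 := by
      push_cast; ring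
    rw [h2] at h1
    have h3 : (1 / 2 : ℝ) ^ b * (N * P1) ≤ 1 * (N * P1) :=
      mul_le_mul_of_nonneg_right hhalf (by positivity)
    linarith
  refine hmain.trans ?_
  rw [mul_div_assoc', le_div_iff₀ hlog]
  have hHN' : (H : ℝ) ≤ N := by exact_mod_cast hHN
  calc (2 * N * P1 + √H) * Real.log H = 2 * N * (P1 * Real.log H) + √H * Real.log H := by ring
    _ ≤ 2 * N * (8 * E * W) + 2 * H := add_le_add (mul_le_mul_of_nonneg_left hP1 (by positivity)) hsq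
    _ ≤ (16 * E * W + 2) * N := by nlinarith

end VUP

open VUP

open Classical in
theorem vup (h1 : S_LOWP) (h2 : S_SYSQ) : S_VUP := by
  intro b c hbc h3 ε hε
  obtain ⟨δ, κ, hδ, hκ, H₀, hlow⟩ := h1 4
  obtain ⟨C₁, hC₁, H₁, hcnt⟩ := cntle δ hδ
  refine ⟨C₁ ^ 2 / (κ * ε), by positivity, max (max H₀ H₁) 3, fun H hH => ?_⟩
  have hH0 : H₀ ≤ H := ((le_max_left _ _).trans (le_max_left _ _)).trans hH
  have hH1 : H₁ ≤ H := ((le_max_right _ _).trans (le_max_left _ _)).trans hH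
  have hH3 : 3 ≤ H := (le_max_right _ _).trans hH
  have hHr : (3 : ℝ) ≤ H := by exact_mod_cast hH3
  set L : ℝ := Real.log H with hL
  have hL0 : 0 < L := Real.log_pos (by linarith)
  set K : ℝ := C₁ ^ 2 / (κ * ε) with hK
  have hK0 : 0 < K := by positivity
  set RX : Finset ℕ := (Ioc 0 H).filter (fun x => ∀ p : ℕ, p.Prime → (p : ℝ) ≤ (H : ℝ) ^ δ →
    ¬ (p : ℤ) ∣ (x : ℤ)) with hRX
  set Q : ℕ → ℕ → Prop := fun x n => ∀ p : ℕ, p.Prime → (p : ℝ) ≤ (H : ℝ) ^ δ →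
    ¬ (p : ℤ) ∣ (n : ℤ) - ((x : ℤ) ^ 2 + b * x + c) with hQ
  set BAD : Finset ℕ := (Icc 1 (H ^ 2)).filter (fun n : ℕ => Odd n ∧ K < V (Fq b c n) 1 H * L ^ 2)
    with hBAD
  -- the upper bounds
  have hRXc : (RX.card : ℝ) ≤ C₁ * (H / L) := by
    refine le_trans ?_ (hcnt H hH1 H le_rfl (fun _ => 0))
    have : RX ⊆ (Ioc 0 H).filter (fun n => ∀ p : ℕ, p.Prime → (p : ℝ) ≤ (H : ℝ) ^ δ →
      n % p ≠ 0 % p) := by
      intro n hn
      rw [hRX, mem_filter] at hn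
      rw [mem_filter]
      refine ⟨hn.1, fun p hp hpδ h4 => hn.2 p hp hpδ ?_⟩
      rw [Nat.zero_mod] at h4
      exact_mod_cast Nat.dvd_of_mod_eq_zero h4
    exact_mod_cast card_le_card this
  have hQc : ∀ x : ℕ, (((Ioc 0 (H ^ 2)).filter (fun n => Q x n)).card : ℝ) ≤
      C₁ * ((H : ℝ) ^ 2 / L) := by
    intro x
    have h4 := hcnt H hH1 (H ^ 2) (Nat.le_self_pow (by norm_num) H)
      (fun p => (((x : ℤ) ^ 2 + b * x + c) % (p : ℤ)).toNat)
    push_cast at h4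
    refine le_trans ?_ h4
    have : (Ioc 0 (H ^ 2)).filter (fun n => Q x n) ⊆
        (Ioc 0 (H ^ 2)).filter (fun n => ∀ p : ℕ, p.Prime → (p : ℝ) ≤ (H : ℝ) ^ δ →
      n % p ≠ (((x : ℤ) ^ 2 + b * x + c) % (p : ℤ)).toNat % p) := by
      intro n hn
      rw [mem_filter] at hn ⊢
      refine ⟨hn.1, fun p hp hpδ h5 => hn.2 p hp hpδ ?_⟩
      have h6 : (p : ℤ) ∣ (((((x : ℤ) ^ 2 + b * x + c) % (p : ℤ)).toNat : ℕ) : ℤ) - (n : ℤ) :=
        (Nat.modEq_iff_dvd).1 h5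
      have hp0 : (p : ℤ) ≠ 0 := by exact_mod_cast hp.pos.ne'
      rw [Int.toNat_of_nonneg (Int.emod_nonneg _ hp0)] at h6
      have h7 : (p : ℤ) ∣ ((x : ℤ) ^ 2 + b * x + c) - ((x : ℤ) ^ 2 + b * x + c) % (p : ℤ) :=
        Int.dvd_self_sub_emod
      have h8 := dvd_add h6 h7
      have h9 := (dvd_neg (α := ℤ)).2 h8
      rwa [show -(((x : ℤ) ^ 2 + b * x + c) % (p : ℤ) - (n : ℤ) +
        (((x : ℤ) ^ 2 + b * x + c) - ((x : ℤ) ^ 2 + b * x + c) % (p : ℤ))) =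
        (n : ℤ) - ((x : ℤ) ^ 2 + b * x + c) by ring] at h9
    exact_mod_cast card_le_card this
  -- the lower bound
  have hlow' : ∀ n ∈ BAD, κ * (H * (K / L ^ 2)) ≤ ((RX.filter (fun x => Q x n)).card : ℝ) := by
    intro n hn
    rw [hBAD, mem_filter] at hn
    obtain ⟨_, hn2, hn3⟩ := hn
    obtain ⟨A, hA1, hA2, hA3⟩ := hlow (Fq b c n) 0 H ((h2 b c n).1 hbc h3 hn2) hH0
    have h4 : K / L ^ 2 ≤ V (Fq b c n) 1 H := by
      rw [div_le_iff₀ (by positivity)]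
      exact hn3.le
    have h5 : A ⊆ RX.filter (fun x => Q x n) := by
      intro x hx
      have h6 := hA1 hx
      rw [zero_add] at h6
      have h7 := hA2 x hx
      refine mem_filter.2 ⟨?_, ?_⟩
      · rw [hRX, mem_filter]
        refine ⟨h6, fun p hp hpδ h8 => h7 p hp hpδ ?_⟩
        unfold Fq
        exact h8.mul_right _
      · intro p hp hpδ h8
        apply h7 p hp hpδ
        unfold Fq
        exact h8.mul_left _
    calc κ * (H * (K / L ^ 2)) ≤ κ * (H * V (Fq b c n) 1 H) := by gcongr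
      _ ≤ A.card := hA3
      _ ≤ _ := by exact_mod_cast card_le_card h5
  -- the double count
  have hdc : (BAD.card : ℝ) * (κ * (H * (K / L ^ 2))) ≤ (C₁ * (H / L)) * (C₁ * ((H : ℝ) ^ 2 / L)) := by
    calc (BAD.card : ℝ) * (κ * (H * (K / L ^ 2))) = ∑ n ∈ BAD, κ * (H * (K / L ^ 2)) := by
          rw [sum_const, nsmul_eq_mul]
      _ ≤ ∑ n ∈ BAD, ((RX.filter (fun x => Q x n)).card : ℝ) := sum_le_sum hlow'
      _ = ∑ n ∈ BAD, ∑ x ∈ RX, (if Q x n then (1 : ℝ) else 0) := by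
          refine sum_congr rfl fun n _ => ?_
          rw [card_filter]
          push_cast
          rfl
      _ = ∑ x ∈ RX, ∑ n ∈ BAD, (if Q x n then (1 : ℝ) else 0) := sum_comm
      _ ≤ ∑ x ∈ RX, C₁ * ((H : ℝ) ^ 2 / L) := by
          refine sum_le_sum fun x _ => ?_
          refine le_trans ?_ (hQc x)
          rw [card_filter]
          push_cast
          apply sum_le_sum_of_subset_of_nonneg
          · intro n hn
            rw [hBAD, mem_filter, mem_Icc] at hn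
            rw [mem_Ioc]
            omega
          · intro n _ _
            split_ifs <;> norm_num
      _ = RX.card * (C₁ * ((H : ℝ) ^ 2 / L)) := by rw [sum_const, nsmul_eq_mul]
      _ ≤ _ := mul_le_mul_of_nonneg_right hRXc (by positivity)
  have hfin : (BAD.card : ℝ) * (κ * K) ≤ C₁ ^ 2 * (H : ℝ) ^ 2 := by
    have hH' : (0 : ℝ) < H := by linarith
    have h4 : (BAD.card : ℝ) * (κ * (H * (K / L ^ 2))) = (BAD.card : ℝ) * (κ * K) * (H / L ^ 2) := by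
      ring
    have h5 : (C₁ * (H / L)) * (C₁ * ((H : ℝ) ^ 2 / L)) = C₁ ^ 2 * (H : ℝ) ^ 2 * (H / L ^ 2) := by
      field_simp
    rw [h4, h5] at hdc
    exact le_of_mul_le_mul_right hdc (by positivity)
  have h6 : κ * K = C₁ ^ 2 / ε := by rw [hK]; field_simp
  rw [h6, mul_div_assoc', div_le_iff₀ hε] at hfin
  have h7 : (BAD.card : ℝ) * C₁ ^ 2 ≤ (ε * (H : ℝ) ^ 2) * C₁ ^ 2 := by linarith
  exact le_of_mul_le_mul_right h7 (by positivity)

end Pool.Agent.K3h89.SZ
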