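import Pool.Agent.K3h89.SZ.Fin
import Pool.Agent.K3h89.SZ.C1P
import Pool.Agent.K3h89.SZ.CLSP
import Pool.Agent.K3h89.SZ.LOCP
import Pool.Agent.K3h89.SZ.ENGP
import Pool.Agent.K3h89.SZ.LOWP
import Pool.Agent.K3h89.SZ.STRIP
import Pool.Agent.K3h89.SZ.SYSQ
import Pool.Agent.K3h89.SZ.EXC
import Pool.Agent.K3h89.SZ.LAR
import Pool.Agent.K3h89.SZ.VUP
import Pool.Agent.K3h69.SZ.MAJP
import Pool.Agent.Y677.RSZ.Top

/-!
# Project SZ (helper89): the theorem
-/

set_option autoImplicit false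

namespace Pool.Agent.K3h89.SZ

theorem majP_all : S_MAJP :=
  Pool.Agent.K3h69.SZ.majP c1P Pool.Agent.Y328.RSZ.sel locP clsP Pool.Agent.Y677.RSZ.mer

/-- Szemerédi's theorem relative to sifted sets, weak systems -/
theorem engP_all : S_ENGP :=
  engP Pool.Agent.Y727.PSP.rs_all Pool.Agent.Y852.RSZ.MK.mk majP_all

theorem fin_of_cnt (h : S_CNT) : S_FIN :=
  fin engP_all stripP sysq (exc sysq) (lar sysq) (vup (lowP c1P) sysq) h

end Pool.Agent.K3h89.SZ
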