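import Pool.Agent.K3h89.SZ.Stm
import Pool.Agent.TH881.RQ.Wrap

/-!
Brick CNT (helper36): most odd `n` have the expected number of representations `n = f(p) + q`.
-/

set_option autoImplicit false

namespace Pool.Agent.K3h89.SZ

open Finset Filter Topology Polynomial
open Pool.Agent.TH881
open Pool.Agent.TH881.RG
open Pool.Agent.TH881.RQ
open Pool.Agent.H373R2.T7
open Pool.Agent.TH882.PG (thI)

/-- in every odd class there is no local obstruction -/
lemma cnt_class (b c : ℤ) (hbc : Odd (b + c)) (h3 : ¬ (3 : ℤ) ∣ b) (w t : ℕ) (ht : Odd t) :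
    ∃ a : ZMod (Wp w), IsUnit a ∧
      gd (X ^ 2 + C b * X + C c : ℤ[X]) (-1) w ((t : ℕ) : ZMod (Wp w)) a := by
  have hloc : ∀ p ∈ pz w, ∃ r : ℕ, (true = true → ¬ p ∣ r) ∧
      ¬ (p : ℤ) ∣ (t : ℤ) + (-1) * (X ^ 2 + C b * X + C c : ℤ[X]).eval (r : ℤ) := by
    intro p hp
    have hp := (mem_pz.1 hp).2
    by_cases h2 : p = 2
    · refine ⟨1, fun _ => by rw [h2]; norm_num, ?_⟩
      rw [Pool.Agent.TH914.J2925.evalQ, h2]
      obtain ⟨k, hk⟩ := hbc
      obtain ⟨j, hj⟩ := ht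
      intro h
      have h1 : (t : ℤ) = 2 * j + 1 := by exact_mod_cast hj
      rw [h1] at h
      push_cast at h
      omega
    · by_contra hcon
      push Not at hcon
      have hp3 : 3 ≤ p := by
        have := hp.two_le
        omega
      have key : ∀ r : ℕ, ¬ p ∣ r → (p : ℤ) ∣ (t : ℤ) + (-1) * ((r : ℤ) ^ 2 + b * r + c) := by
        intro r hr
        have h4 := hcon r (fun _ => hr)
        rwa [Pool.Agent.TH914.J2925.evalQ] at h4
      have k1 := key 1 (fun h => by have := Nat.le_of_dvd (by norm_num) h; omega)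
      have k2 := key 2 (fun h => by have := Nat.le_of_dvd (by norm_num) h; omega)
      have hdiff : ∀ x y : ℤ, (p : ℤ) ∣ (t : ℤ) + (-1) * x → (p : ℤ) ∣ (t : ℤ) + (-1) * y →
          (p : ℤ) ∣ x - y := by
        intro x y hx hy
        have h4 := dvd_sub hy hx
        have h5 : (t : ℤ) + -1 * y - (t + -1 * x) = x - y := by ring
        rwa [h5] at h4
      have h21 := hdiff _ _ k2 k1
      have e21 : ((2 : ℕ) : ℤ) ^ 2 + b * ((2 : ℕ) : ℤ) + c - (((1 : ℕ) : ℤ) ^ 2 + b * ((1 : ℕ) : ℤ) + c) = 3 + b := by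
        push_cast
        ring
      rw [e21] at h21
      by_cases h33 : p = 3
      · rw [h33] at h21
        apply h3
        push_cast at h21
        omega
      · have hp5 : 5 ≤ p := by
          have h4 : p ≠ 4 := by
            rintro rfl
            exact absurd hp (by norm_num)
          omega
        have k3 := key 3 (fun h => by have := Nat.le_of_dvd (by norm_num) h; omega)
        have h32 := hdiff _ _ k3 k2
        have e32 : ((3 : ℕ) : ℤ) ^ 2 + b * ((3 : ℕ) : ℤ) + c - (((2 : ℕ) : ℤ) ^ 2 + b * ((2 : ℕ) : ℤ) + c) = 5 + b := by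
          push_cast
          ring
        rw [e32] at h32
        have h4 := dvd_sub h32 h21
        have h5 : (5 : ℤ) + b - (3 + b) = 2 := by ring
        rw [h5] at h4
        have := Int.le_of_dvd (by norm_num) h4
        omega
  obtain ⟨a, ha⟩ := exists_arg true (X ^ 2 + C b * X + C c : ℤ[X]) (-1) (t : ℤ) (pz w)
    (fun p hp => (mem_pz.1 hp).2) hloc
  refine ⟨(a : ZMod (Wp w)), ?_, ?_⟩
  · have h2 := (unit_iff w (a : ℤ)).2 (fun p hp hpw hd =>
      (ha p (mem_pz.2 ⟨hpw, hp⟩)).1 rfl (by exact_mod_cast hd))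
    simpa using h2
  · have h := (gd_iff (X ^ 2 + C b * X + C c : ℤ[X]) (-1) w (t : ℤ) a).2
      (fun p hp hpw => (ha p (mem_pz.2 ⟨hpw, hp⟩)).2)
    rwa [Int.cast_natCast] at h

open Classical in
/-- the logarithmic count is at most the number of representations times `3 log X` -/
lemma cnt_thI (b c : ℤ) (g : ℤ[X]) (hev : ∀ x : ℤ, g.eval x = x ^ 2 + b * x + c) (G X N : ℕ)
    (hG : 1 ≤ G) (hX : G ≤ X) (K : Finset ℕ)
    (hK : ∀ n ∈ K, n.Prime ∧ n ≤ X) (hpos : ∀ n ∈ K, 0 ≤ g.eval (n : ℤ)) (hN : N ≤ G * X ^ 2) :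
    ∑ n ∈ K, thI (N + (-1) * g.eval (n : ℤ)) ≤
      (((Icc 1 X).filter (fun p : ℕ => p ∈ Rep b c N)).card : ℝ) * (3 * Real.log X) := by
  have hX0 : (0 : ℝ) < X := by exact_mod_cast (by omega : 0 < X)
  have hG0 : (0 : ℝ) < G := by exact_mod_cast (by omega : 0 < G)
  have hL : 0 ≤ Real.log X := Real.log_nonneg (by exact_mod_cast (by omega : 1 ≤ X))
  have hlog : Real.log ((G * X ^ 2 : ℕ) : ℝ) ≤ 3 * Real.log X := by
    push_cast
    rw [Real.log_mul hG0.ne' (by positivity), Real.log_pow]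
    have h1 : Real.log G ≤ Real.log X := Real.log_le_log hG0 (by exact_mod_cast hX)
    push_cast
    linarith
  have h1 : ∀ n ∈ K, thI (N + (-1) * g.eval (n : ℤ)) ≤
      if ((N : ℤ) + (-1) * g.eval (n : ℤ)).toNat.Prime then 3 * Real.log X else 0 := by
    intro n hn
    unfold thI
    split_ifs with h
    · refine le_trans (Real.log_le_log ?_ ?_) hlog
      · exact_mod_cast h.pos
      · have h2 := hpos n hn
        have h3 : ((N : ℤ) + (-1) * g.eval (n : ℤ)).toNat ≤ G * X ^ 2 := by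
          rw [Int.toNat_le]
          have : (N : ℤ) ≤ ((G * X ^ 2 : ℕ) : ℤ) := by exact_mod_cast hN
          linarith
        exact_mod_cast h3
    · exact le_rfl
  refine (sum_le_sum h1).trans ?_
  rw [← sum_filter, sum_const, nsmul_eq_mul]
  apply mul_le_mul_of_nonneg_right _ (by linarith)
  have h2 : K.filter (fun n : ℕ => ((N : ℤ) + (-1) * g.eval (n : ℤ)).toNat.Prime) ⊆
      (Icc 1 X).filter (fun p : ℕ => p ∈ Rep b c N) := by
    intro n hn
    rw [mem_filter] at hn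
    obtain ⟨hn, hp⟩ := hn
    rw [mem_filter, mem_Icc]
    refine ⟨⟨(hK n hn).1.pos, (hK n hn).2⟩, (hK n hn).1, _, hp, ?_⟩
    have h3 := hp.pos
    rw [hev] at h3 ⊢
    rw [Int.toNat_of_nonneg]
    · ring
    · generalize (N : ℤ) + -1 * ((n : ℤ) ^ 2 + b * n + c) = y at h3
      omega
  exact_mod_cast card_le_card h2

theorem cnt : S_CNT := by
  classical
  intro b c hbc h3 G ε hε
  obtain ⟨g, hg⟩ : ∃ g : ℤ[X], g = X ^ 2 + C b * X + C c := ⟨_, rfl⟩
  have hd : g.natDegree = 2 := by rw [hg]; exact quad_natDegree b c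
  have hl : 0 < g.leadingCoeff := by rw [hg, quad_leadingCoeff]; norm_num
  have hev : ∀ x : ℤ, g.eval x = x ^ 2 + b * x + c := fun x => by
    rw [hg]; exact Pool.Agent.TH914.J2925.evalQ b c x
  rcases Nat.lt_or_ge G 3 with hG | hG
  · refine ⟨1, one_pos, 0, fun X _ => ?_⟩
    have h1 : Ioc (2 * X ^ 2) (G * X ^ 2) = ∅ := Finset.Ioc_eq_empty (by
      have : G * X ^ 2 ≤ 2 * X ^ 2 := Nat.mul_le_mul_right _ (by omega)
      omega)
    rw [h1, filter_empty, card_empty, Nat.cast_zero]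
    positivity
  have hGr : (3 : ℝ) ≤ G := by exact_mod_cast hG
  obtain ⟨ε', hε'⟩ : ∃ e : ℝ, e = min (ε / (2 * G)) (1 / 2) := ⟨_, rfl⟩
  have he0 : 0 < ε' := by
    rw [hε']
    apply lt_min
    · positivity
    · norm_num
  have he1 : ε' < 1 := by
    rw [hε']
    exact (min_le_right _ _).trans_lt (by norm_num)
  have he2 : 2 * ε' * G ≤ ε := by
    have h1 : ε' ≤ ε / (2 * G) := by rw [hε']; exact min_le_left _ _
    rw [le_div_iff₀ (by positivity)] at h1
    linarith
  obtain ⟨w0, hmix⟩ := mixq true g (by omega) hl (-1) (Or.inr rfl)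
    (stPMq_in true g (by omega) hl) G (by omega) (1 / 2) ε' 1 (by norm_num) he0 he1 one_pos
  obtain ⟨w, hw⟩ : ∃ w : ℕ, w = max w0 2 := ⟨_, rfl⟩
  have hw0 : w0 ≤ w := by rw [hw]; exact le_max_left _ _
  have hw2 : 2 ≤ w := by rw [hw]; exact le_max_right _ _
  obtain ⟨X1, hmix⟩ := hmix w hw0
  obtain ⟨X2, hcl⟩ := stPC w (1 / 2) 1 (by norm_num) one_pos
  have hW : 0 < Wp w := Wp_pos w
  have hWr : (0 : ℝ) < Wp w := by exact_mod_cast hW
  have hφ : (0 : ℝ) < Nat.totient (Wp w) := by exact_mod_cast Nat.totient_pos.2 hW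
  obtain ⟨B0, hB0⟩ : ∃ B0 : ℕ, B0 = b.natAbs + c.natAbs + 1 := ⟨_, rfl⟩
  refine ⟨1 / (12 * Nat.totient (Wp w)), by positivity, max (max X1 X2) (max G (B0 ^ 2)), ?_⟩
  intro X hX
  simp only [max_le_iff] at hX
  obtain ⟨⟨hX1, hX2⟩, hXG, hXB⟩ := hX
  have hX3 : 3 ≤ X := by omega
  have hXr : (3 : ℝ) ≤ X := by exact_mod_cast hX3
  have hL1 : 1 ≤ Real.log X := by
    rw [Real.le_log_iff_exp_le (by linarith)]
    have := Real.exp_one_lt_d9
    linarith
  have hB1 : B0 ≤ X := le_trans (Nat.le_self_pow (by norm_num) B0) hXB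
  have hbB : |b| + |c| + 1 = (B0 : ℤ) := by
    rw [hB0]
    push_cast
    rfl
  -- values of the polynomial
  have hval : ∀ n : ℕ, √(X : ℝ) < n → n ≤ X → 0 ≤ g.eval (n : ℤ) ∧ g.eval (n : ℤ) ≤ 2 * (X : ℤ) ^ 2 := by
    intro n hn1 hn2
    have h1 : B0 < n := by
      have h2 : ((B0 : ℕ) : ℝ) ≤ √(X : ℝ) := by
        apply Real.le_sqrt_of_sq_le
        exact_mod_cast hXB
      exact_mod_cast h2.trans_lt hn1
    have h2 : (B0 : ℤ) < n := by exact_mod_cast h1
    have h3 : (n : ℤ) ≤ X := by exact_mod_cast hn2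
    have h4 : (B0 : ℤ) ≤ X := by exact_mod_cast hB1
    have hb1 := neg_abs_le b
    have hb2 := le_abs_self b
    have hc1 := neg_abs_le c
    have hc2 := le_abs_self c
    have hb0 := abs_nonneg b
    have hc0 := abs_nonneg c
    have hn0 : (0 : ℤ) ≤ n := by positivity
    rw [hev]
    constructor
    · have h5 : (n : ℤ) * ((n : ℤ) + b) ≥ 1 * (|c| + 1) := by
        apply mul_le_mul (by linarith) (by linarith) (by linarith) hn0
      nlinarith
    · have h5 : b * (n : ℤ) ≤ |b| * X := by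
        calc b * (n : ℤ) ≤ |b| * n := mul_le_mul_of_nonneg_right hb2 hn0
          _ ≤ |b| * X := mul_le_mul_of_nonneg_left h3 hb0
      have h6 : c ≤ |c| * X := by nlinarith
      have h7 : (n : ℤ) ^ 2 ≤ (X : ℤ) ^ 2 := pow_le_pow_left₀ hn0 h3 2
      have h8 : (|b| + |c|) * X ≤ X * X := mul_le_mul_of_nonneg_right (by linarith) (by positivity)
      nlinarith
  obtain ⟨M, hM⟩ : ∃ M : ℕ, M = 2 * X ^ 2 := ⟨_, rfl⟩
  obtain ⟨H, hH⟩ : ∃ H : ℕ, H = (G - 2) * X ^ 2 := ⟨_, rfl⟩
  have hMH : M + H = G * X ^ 2 := by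
    rw [hM, hH, ← add_mul]
    congr 1
    omega
  obtain ⟨bad, hbad⟩ : ∃ bad : ℕ → Prop, bad = fun n : ℕ => Odd n ∧
    (((Icc 1 X).filter (fun p : ℕ => p ∈ Rep b c n)).card : ℝ) <
      1 / (12 * Nat.totient (Wp w)) * (X / Real.log X ^ 2) := ⟨_, rfl⟩
  -- one class
  have hone : ∀ t ∈ Ioc M (M + Wp w), (((It w M H t).filter bad).card : ℝ) ≤
      2 * ε' * ((H : ℝ) / Wp w) := by
    intro t ht
    rw [mem_Ioc] at ht
    have hpar : ∀ N ∈ It w M H t, (Odd N ↔ Odd t) := by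
      intro N hN
      unfold It at hN
      rw [mem_filter] at hN
      have h1 : N ≡ t [MOD 2] := hN.2.of_dvd (two_dvd_Wp hw2)
      rw [Nat.odd_iff, Nat.odd_iff]
      unfold Nat.ModEq at h1
      omega
    by_cases hodd : Odd t
    swap
    · have h1 : (It w M H t).filter bad = ∅ := by
        apply filter_false_of_mem
        intro N hN hb
        rw [hbad] at hb
        exact hodd ((hpar N hN).1 hb.1)
      rw [h1, card_empty, Nat.cast_zero]
      positivity
    obtain ⟨a, ha, hgd⟩ := cnt_class b c hbc h3 w t hodd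
    rw [← hg] at hgd
    obtain ⟨K, hKdef⟩ : ∃ K : Finset ℕ, K = cls w (KN true X) a := ⟨_, rfl⟩
    have hKmem : ∀ n ∈ K, (n.Prime ∧ √(X : ℝ) < n ∧ n ≤ X) ∧ (n : ZMod (Wp w)) = a := by
      intro n hn
      rw [hKdef, mem_cls, mem_KN] at hn
      exact ⟨⟨hn.1.1 rfl, hn.1.2⟩, hn.2⟩
    have hKcard : (1 / 2 : ℝ) * ppq true w X ≤ K.card := by
      have h1 := (abs_le.1 (hcl X hX2 X le_rfl (by rw [one_mul]) a ha)).1
      have h2 : (1 / 2 : ℝ) ≤ bbf w X ((Icc 1 X).filter (fun p : ℕ => p.Prime ∧ √(X : ℝ) < p)) a := by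
        linarith
      unfold bbf at h2
      rw [le_div_iff₀ (pp_pos w X (by omega))] at h2
      rw [ppq_true]
      refine h2.trans ?_
      have h4 : (cls w ((Icc 1 X).filter (fun p : ℕ => p.Prime ∧ √(X : ℝ) < p)) a).card ≤ K.card := by
        rw [hKdef]
        apply card_le_card
        intro n hn
        rw [mem_cls, mem_filter, mem_Icc] at hn
        rw [mem_cls, mem_KN]
        exact ⟨⟨fun _ => hn.1.2.1, hn.1.2.2, hn.1.1.2⟩, hn.2⟩
      exact_mod_cast h4
    have hpp : ppq true w X = (X : ℝ) / (Nat.totient (Wp w) * Real.log X) := by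
      rw [ppq_true]
      rfl
    have hpp0 : 0 < ppq true w X := by
      rw [hpp]
      positivity
    have hKr : (0 : ℝ) < K.card := lt_of_lt_of_le (by positivity) hKcard
    have hV0 := Vz_pos w
    have hV1 : 1 ≤ (Vz w)⁻¹ := (one_le_inv₀ hV0).2 (Vz_le_one w)
    have hmain := hmix X hX1 M H t ht.1 ht.2 (by
        rw [hd, one_mul, hH]
        have h1 : 1 ≤ G - 2 := by omega
        have h2 : 1 * X ^ 2 ≤ (G - 2) * X ^ 2 := Nat.mul_le_mul_right _ h1
        rw [one_mul] at h2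
        exact_mod_cast h2) (by rw [hd, hMH]) K
      (fun n hn => ⟨fun _ => (hKmem n hn).1.1, (hKmem n hn).1.2.1, (hKmem n hn).1.2.2⟩)
      (by
        intro n hn
        have h1 := hval n (hKmem n hn).1.2.1 (hKmem n hn).1.2.2
        have h2 : (M : ℤ) = 2 * (X : ℤ) ^ 2 := by rw [hM]; push_cast; ring
        have h4 : (M : ℤ) + H = ((G * X ^ 2 : ℕ) : ℤ) := by rw [← hMH]; push_cast; ring
        rw [hd, ← h4, h2]
        constructor
        · linarith [h1.2]
        · linarith [h1.1])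
      (by
        intro n hn n' hn'
        exact (ZMod.natCast_eq_natCast_iff n n' (Wp w)).1
          ((hKmem n hn).2.trans (hKmem n' hn').2.symm))
      (by
        intro n hn
        rw [(hKmem n hn).2]
        exact hgd) hKcard ((It w M H t).filter bad) (filter_subset _ _)
    obtain ⟨Q, hQ⟩ : ∃ Q : ℝ, Q = (Vz w)⁻¹ * K.card := ⟨_, rfl⟩
    rw [← hQ] at hmain
    have hQK : (K.card : ℝ) ≤ Q := by
      rw [hQ]
      exact le_mul_of_one_le_left hKr.le hV1
    have hQ0 : 0 < Q := hKr.trans_le hQK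
    have hsum : ∑ N ∈ (It w M H t).filter bad, ∑ n ∈ K, thI (N + (-1) * g.eval (n : ℤ)) ≤
        (((It w M H t).filter bad).card : ℝ) * (Q / 2) := by
      rw [← nsmul_eq_mul]
      apply sum_le_card_nsmul
      intro N hN
      rw [mem_filter] at hN
      obtain ⟨hN1, hN2⟩ := hN
      unfold It at hN1
      rw [mem_filter, mem_Ioc] at hN1
      rw [hbad] at hN2
      have h1 := cnt_thI b c g hev G X N (by omega) hXG K
        (fun n hn => ⟨(hKmem n hn).1.1, (hKmem n hn).1.2.2⟩)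
        (fun n hn => (hval n (hKmem n hn).1.2.1 (hKmem n hn).1.2.2).1) (by omega)
      refine h1.trans ?_
      have h2 : (((Icc 1 X).filter (fun p : ℕ => p ∈ Rep b c N)).card : ℝ) * (3 * Real.log X) ≤
          1 / (12 * Nat.totient (Wp w)) * (X / Real.log X ^ 2) * (3 * Real.log X) :=
        mul_le_mul_of_nonneg_right hN2.2.le (by linarith)
      refine h2.trans ?_
      have h4 : 1 / (12 * (Nat.totient (Wp w) : ℝ)) * (X / Real.log X ^ 2) * (3 * Real.log X) =
          (1 / 2 * ppq true w X) / 2 := by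
        rw [hpp]
        have hL0 : Real.log X ≠ 0 := by linarith
        have hφ0 := hφ.ne'
        field_simp
        ring
      rw [h4]
      have h5 := hKcard.trans hQK
      linarith
    have h6 := (abs_le.1 hmain).1
    have h7 : (((It w M H t).filter bad).card : ℝ) * Q / 2 ≤ ε' * ((H : ℝ) / Wp w * Q) := by
      linarith
    have h8 : ((((It w M H t).filter bad).card : ℝ)) * Q ≤ (2 * ε' * ((H : ℝ) / Wp w)) * Q := by
      linarith
    exact le_of_mul_le_mul_right h8 hQ0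
  -- all classes
  have hsub : (Ioc (2 * X ^ 2) (G * X ^ 2)).filter bad ⊆
      (Ioc M (M + Wp w)).biUnion (fun t => (It w M H t).filter bad) := by
    intro N hN
    rw [mem_filter, mem_Ioc, ← hM, ← hMH] at hN
    rw [mem_biUnion]
    refine ⟨M + 1 + (N - (M + 1)) % Wp w, ?_, ?_⟩
    · rw [mem_Ioc]
      have := Nat.mod_lt (N - (M + 1)) hW
      omega
    · rw [mem_filter]
      refine ⟨?_, hN.2⟩
      unfold It
      rw [mem_filter, mem_Ioc]
      refine ⟨hN.1, ?_⟩
      have h1 : N = M + 1 + (N - (M + 1)) := by omega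
      conv_lhs => rw [h1]
      exact Nat.ModEq.add_left _ (Nat.mod_modEq _ _).symm
  have hfin : (((Ioc (2 * X ^ 2) (G * X ^ 2)).filter bad).card : ℝ) ≤ ε * (X : ℝ) ^ 2 := by
    have h1 : ((Ioc (2 * X ^ 2) (G * X ^ 2)).filter bad).card ≤
        ∑ t ∈ Ioc M (M + Wp w), ((It w M H t).filter bad).card :=
      (card_le_card hsub).trans card_biUnion_le
    have h2 : (((Ioc (2 * X ^ 2) (G * X ^ 2)).filter bad).card : ℝ) ≤
        ∑ t ∈ Ioc M (M + Wp w), (((It w M H t).filter bad).card : ℝ) := by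
      exact_mod_cast h1
    have h4 : ∑ t ∈ Ioc M (M + Wp w), (((It w M H t).filter bad).card : ℝ) ≤
        (Ioc M (M + Wp w)).card • (2 * ε' * ((H : ℝ) / Wp w)) := sum_le_card_nsmul _ _ _ hone
    rw [Nat.card_Ioc, Nat.add_sub_cancel_left, nsmul_eq_mul] at h4
    have h5 : (Wp w : ℝ) * (2 * ε' * ((H : ℝ) / Wp w)) = 2 * ε' * H := by
      field_simp
    have h6 : (H : ℝ) ≤ G * (X : ℝ) ^ 2 := by
      have : H ≤ G * X ^ 2 := by omega
      exact_mod_cast this
    have h7 : 2 * ε' * (H : ℝ) ≤ 2 * ε' * (G * (X : ℝ) ^ 2) :=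
      mul_le_mul_of_nonneg_left h6 (by linarith)
    have h8 : 2 * ε' * (G * (X : ℝ) ^ 2) = (2 * ε' * G) * (X : ℝ) ^ 2 := by ring
    have h9 : (2 * ε' * G) * (X : ℝ) ^ 2 ≤ ε * (X : ℝ) ^ 2 :=
      mul_le_mul_of_nonneg_right he2 (by positivity)
    linarith
  rw [hbad] at hfin
  convert hfin using 3
  congr 1

end Pool.Agent.K3h89.SZ
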