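import Pool.Agent.K3h89.SZ.Top
import Pool.Agent.K3h89.SZ.CNT

/-!
# Project SZ (helper89): Szemerédi's theorem for the representations `n = f(p) + q`
-/

set_option autoImplicit false

namespace Pool.Agent.K3h89.SZ

theorem szemeredi : S_FIN := fin_of_cnt cnt

end Pool.Agent.K3h89.SZ
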