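import Pool.Agent.K3h89.SZ.Base

/-!
# Project SZ (helper89): assembly
-/

set_option autoImplicit false

open Finset Filter

namespace Pool.Agent.K3h89.SZ

open Pool.Agent.TH423.SH (PS)
open Pool.Agent.Y677.RSZ (rt V)

theorem Rep_le (b c : ℤ) (n : ℕ) (M : ℕ) (hM : 2 * (|b| + |c| + 1) ≤ (M : ℤ)) (hn : 2 * n < M ^ 2) (p : ℕ)
    (hp : p ∈ Rep b c n) : p < M := by
  obtain ⟨hp1, q, hq, hpq⟩ := hp
  by_contra hcon
  push Not at hcon
  have h1 : (M : ℤ) ≤ p := by exact_mod_cast hcon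
  have h2 : (2 : ℤ) * n < (M : ℤ) ^ 2 := by exact_mod_cast hn
  have h3 : (0 : ℤ) < q := by exact_mod_cast hq.pos
  have h4 := neg_abs_le b
  have h5 := neg_abs_le c
  have hb0 := abs_nonneg b
  have hc0 := abs_nonneg c
  have h6 : (M : ℤ) ^ 2 ≤ (p : ℤ) ^ 2 := pow_le_pow_left₀ (by positivity) h1 2
  have h7 : 2 * (|b| + |c| + 1) * (p : ℤ) ≤ (p : ℤ) ^ 2 := by nlinarith
  have h8 : b * (p : ℤ) ≥ -|b| * p := by nlinarith
  nlinarith

theorem Rep_finite (b c : ℤ) (n : ℕ) : (Rep b c n).Finite := by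
  obtain ⟨M, hM⟩ : ∃ M : ℕ, M = (2 * (|b| + |c| + 1)).toNat + 2 * n + 2 := ⟨_, rfl⟩
  have h1 : 2 * (|b| + |c| + 1) ≤ (M : ℤ) := by
    rw [hM]
    push_cast
    have := Int.self_le_toNat (2 * (|b| + |c| + 1))
    omega
  have h2 : 2 * n < M ^ 2 := by
    have : 2 * n + 2 ≤ M := by omega
    nlinarith
  exact (Set.finite_Iio M).subset (fun p hp => Rep_le b c n M h1 h2 p hp)

/-- few representations have a small prime -/
theorem small_rep (b c : ℤ) (n T : ℕ) (hT : |b| ≤ (T : ℤ)) (S : Finset ℕ) (hS : ∀ p ∈ S, p ∈ Rep b c n) :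
    S.card ≤ (S.filter (fun p : ℕ => T < p ∧ (T : ℤ) < (n : ℤ) - ((p : ℤ) ^ 2 + b * p + c))).card + 2 * T := by
  classical
  have h1 : S ⊆ (S.filter (fun p : ℕ => T < p ∧ (T : ℤ) < (n : ℤ) - ((p : ℤ) ^ 2 + b * p + c))) ∪
      (Icc 1 T ∪ S.filter (fun p : ℕ => T < p ∧ (n : ℤ) - ((p : ℤ) ^ 2 + b * p + c) ≤ T)) := by
    intro p hp
    have hpp := (hS p hp).1.pos
    rw [mem_union, mem_union, mem_filter, mem_filter, mem_Icc]
    by_cases h2 : T < p
    · by_cases h3 : (T : ℤ) < (n : ℤ) - ((p : ℤ) ^ 2 + b * p + c)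
      · exact Or.inl ⟨hp, h2, h3⟩
      · exact Or.inr (Or.inr ⟨hp, h2, not_lt.1 h3⟩)
    · exact Or.inr (Or.inl ⟨hpp, not_lt.1 h2⟩)
  have h2 : (S.filter (fun p : ℕ => T < p ∧ (n : ℤ) - ((p : ℤ) ^ 2 + b * p + c) ≤ T)).card ≤ (Icc 1 T).card := by
    apply card_le_card_of_injOn (fun p : ℕ => ((n : ℤ) - ((p : ℤ) ^ 2 + b * p + c)).toNat)
    · intro p hp
      rw [mem_coe, mem_filter] at hp
      obtain ⟨-, q, hq, hpq⟩ := hS p hp.1
      have hq0 : (0 : ℤ) < q := by exact_mod_cast hq.pos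
      rw [mem_coe, mem_Icc]
      have := hp.2.2
      show 1 ≤ ((n : ℤ) - ((p : ℤ) ^ 2 + b * p + c)).toNat ∧ ((n : ℤ) - ((p : ℤ) ^ 2 + b * p + c)).toNat ≤ T
      omega
    · intro p hp p' hp' h
      rw [mem_coe, mem_filter] at hp hp'
      obtain ⟨-, q, hq, hpq⟩ := hS p hp.1
      obtain ⟨-, q', hq', hpq'⟩ := hS p' hp'.1
      have hq0 : (0 : ℤ) < q := by exact_mod_cast hq.pos
      have hq0' : (0 : ℤ) < q' := by exact_mod_cast hq'.pos
      have h3 : ((n : ℤ) - ((p : ℤ) ^ 2 + b * p + c)).toNat = ((n : ℤ) - ((p' : ℤ) ^ 2 + b * p' + c)).toNat := h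
      have h4 : (p : ℤ) ^ 2 + b * p = (p' : ℤ) ^ 2 + b * p' := by omega
      have h5 : ((p : ℤ) - p') * (p + p' + b) = 0 := by linear_combination h4
      rcases mul_eq_zero.1 h5 with h6 | h6
      · have : (p : ℤ) = p' := by linarith
        exact_mod_cast this
      · exfalso
        have h7 : (T : ℤ) < p := by exact_mod_cast hp.2.1
        have h8 : (T : ℤ) < p' := by exact_mod_cast hp'.2.1
        have h9 := neg_abs_le b
        have : (0 : ℤ) ≤ T := by positivity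
        linarith
  have h3 := card_le_card h1
  have h4 := card_union_le (S.filter (fun p : ℕ => T < p ∧ (T : ℤ) < (n : ℤ) - ((p : ℤ) ^ 2 + b * p + c)))
    (Icc 1 T ∪ S.filter (fun p : ℕ => T < p ∧ (n : ℤ) - ((p : ℤ) ^ 2 + b * p + c) ≤ T))
  have h5 := card_union_le (Icc 1 T) (S.filter (fun p : ℕ => T < p ∧ (n : ℤ) - ((p : ℤ) ^ 2 + b * p + c) ≤ T))
  rw [Nat.card_Icc] at h2 h5
  omega

/-- the size of `Fq` -/
theorem Fq_bd (b c : ℤ) (n H : ℕ) (hH : |b| + |c| + 4 ≤ (H : ℤ)) (hn : n ≤ H ^ 2) (x : ℕ) (hx : x ≤ H) :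
    |Fq b c n (x : ℤ)| ≤ (H : ℤ) ^ 4 := by
  unfold Fq
  rw [abs_mul, Nat.abs_cast]
  have hx' : (x : ℤ) ≤ H := by exact_mod_cast hx
  have hx0 : (0 : ℤ) ≤ x := by positivity
  have hb0 := abs_nonneg b
  have hc0 := abs_nonneg c
  have hn' : (n : ℤ) ≤ (H : ℤ) ^ 2 := by exact_mod_cast hn
  have h1 : |(n : ℤ) - ((x : ℤ) ^ 2 + b * x + c)| ≤ n + ((x : ℤ) ^ 2 + |b| * x + |c|) := by
    calc |(n : ℤ) - ((x : ℤ) ^ 2 + b * x + c)| ≤ |(n : ℤ)| + |(x : ℤ) ^ 2 + b * x + c| := abs_sub _ _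
      _ ≤ |(n : ℤ)| + (|(x : ℤ) ^ 2 + b * x| + |c|) := by gcongr; exact abs_add_le _ _
      _ ≤ |(n : ℤ)| + ((|(x : ℤ) ^ 2| + |b * x|) + |c|) := by gcongr; exact abs_add_le _ _
      _ = n + ((x : ℤ) ^ 2 + |b| * x + |c|) := by
        rw [Nat.abs_cast, abs_pow, abs_mul, Nat.abs_cast]
  have h2 : (x : ℤ) ^ 2 ≤ (H : ℤ) ^ 2 := pow_le_pow_left₀ hx0 hx' 2
  have h3 : |b| * (x : ℤ) ≤ |b| * H := mul_le_mul_of_nonneg_left hx' hb0
  have hH4 : (4 : ℤ) ≤ H := by linarith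
  have h4 : (n : ℤ) + ((x : ℤ) ^ 2 + |b| * x + |c|) ≤ (H : ℤ) ^ 3 := by
    have h5 : |b| * (H : ℤ) + |c| ≤ (H : ℤ) ^ 2 := by nlinarith
    have h6 : 4 * (H : ℤ) ^ 2 ≤ (H : ℤ) ^ 3 := by nlinarith [sq_nonneg (H : ℤ)]
    have h7 := sq_nonneg (H : ℤ)
    linarith
  calc (x : ℤ) * |(n : ℤ) - ((x : ℤ) ^ 2 + b * x + c)| ≤ H * (H : ℤ) ^ 3 :=
        mul_le_mul hx' (h1.trans h4) (abs_nonneg _) (by positivity)
    _ = (H : ℤ) ^ 4 := by ring

/-- growth conditions -/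
theorem numsF (b c : ℤ) (G X₀ H₀ : ℕ) (κ ε : ℝ) (hG : 1 ≤ G) (hκ : 0 < κ) (hε : 0 < ε) :
    ∀ᶠ N : ℕ in atTop,
      X₀ ≤ Nat.sqrt (N / G) + 1 ∧ 1 ≤ N / G ∧ 3 ≤ Nat.sqrt (N / G) + 1 ∧
      H₀ ≤ 2 * (Nat.sqrt N + 1) ∧
      ((2 * (Nat.sqrt N + 1) : ℕ) : ℝ) ≤ ε / 8 * N ∧
      ((2 * (Nat.sqrt N + 1) : ℕ) : ℝ) ≤ 4 * √(N : ℝ) ∧ (16 : ℝ) * G ^ 2 * √(N : ℝ) ≤ N ∧
      4 * (|b| + |c| + 4) ^ 4 ≤ ((2 * (Nat.sqrt N + 1) : ℕ) : ℤ) ∧
      (10 : ℝ) ≤ Real.exp (√(Real.log ((2 * (Nat.sqrt N + 1) : ℕ) : ℝ))) ∧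
      4 * ((2 * (Nat.sqrt N + 1) : ℕ) : ℝ) ^ (1 / 4 : ℝ) + 4 ≤ κ / (G : ℝ) * (√(N : ℝ) / Real.log N ^ 2) := by
  have hT := tendsto_natCast_atTop_atTop (R := ℝ)
  have hs : Tendsto (fun N : ℕ => √(N : ℝ)) atTop atTop := Real.tendsto_sqrt_atTop.comp hT
  have hG0 : (0 : ℝ) < G := by exact_mod_cast hG
  have hlog : ∀ᶠ N : ℕ in atTop, Real.log N ^ 2 ≤ κ / (16 * G) * (N : ℝ) ^ (1 / 4 : ℝ) := by
    have h := (isLittleO_log_rpow_rpow_atTop (2 : ℝ) (show (0 : ℝ) < 1 / 4 by norm_num)).bound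
      (show (0 : ℝ) < κ / (16 * G) by positivity)
    filter_upwards [hT.eventually h, eventually_ge_atTop 1] with N hN h1
    have hl : 0 ≤ Real.log N := Real.log_natCast_nonneg N
    rw [Real.norm_of_nonneg (by positivity), Real.norm_of_nonneg (by positivity)] at hN
    have e : Real.log (N : ℝ) ^ (2 : ℝ) = Real.log N ^ 2 := by
      rw [← Real.rpow_natCast]; norm_num
    rwa [e] at hN
  filter_upwards [eventually_ge_atTop (G * (X₀ + 3) ^ 2), eventually_ge_atTop (H₀ ^ 2 + 10),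
    hs.eventually_ge_atTop (32 / ε), hs.eventually_ge_atTop 1, hs.eventually_ge_atTop (16 * (G : ℝ) ^ 2),
    hs.eventually_ge_atTop (((4 * (|b| + |c| + 4) ^ 4 : ℤ)) : ℝ),
    hs.eventually_ge_atTop (Real.exp (9 : ℝ)), hlog] with N h1 h2 h3 h4 h5 h6 h7 h8
  have hN0 : (0 : ℝ) ≤ N := Nat.cast_nonneg N
  have hss : √(N : ℝ) * √(N : ℝ) = N := Real.mul_self_sqrt hN0
  have hq1 : (X₀ + 3) ^ 2 ≤ N / G := (Nat.le_div_iff_mul_le hG).2 (by rw [mul_comm]; exact h1)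
  have hq2 : X₀ + 3 ≤ Nat.sqrt (N / G) := by
    rw [Nat.le_sqrt']
    exact hq1
  have hq3 : 1 ≤ N / G := by nlinarith
  have hr1 : H₀ ≤ Nat.sqrt N := by
    rw [Nat.le_sqrt']
    omega
  have hr2 : √(N : ℝ) ≤ ((Nat.sqrt N + 1 : ℕ) : ℝ) := by
    rw [Real.sqrt_le_left (Nat.cast_nonneg _)]
    have := Nat.lt_succ_sqrt' N
    exact_mod_cast this.le
  have hr3 : ((Nat.sqrt N : ℕ) : ℝ) ≤ √(N : ℝ) := Real.nat_sqrt_le_real_sqrt
  have hr4 : ((2 * (Nat.sqrt N + 1) : ℕ) : ℝ) ≤ 4 * √(N : ℝ) := by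
    push_cast
    linarith
  have hr5 : √(N : ℝ) ≤ ((2 * (Nat.sqrt N + 1) : ℕ) : ℝ) := by
    push_cast at hr2 ⊢
    linarith
  refine ⟨by omega, hq3, by omega, by omega, ?_, hr4, ?_, ?_, ?_, ?_⟩
  · refine hr4.trans ?_
    have : 32 / ε * √(N : ℝ) ≤ √(N : ℝ) * √(N : ℝ) := mul_le_mul_of_nonneg_right h3 (by linarith)
    rw [hss] at this
    have h9 : ε / 8 * (32 / ε * √(N : ℝ)) ≤ ε / 8 * N := mul_le_mul_of_nonneg_left this (by positivity)
    have e : ε / 8 * (32 / ε * √(N : ℝ)) = 4 * √(N : ℝ) := by field_simp; norm_num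
    linarith
  · calc (16 : ℝ) * G ^ 2 * √(N : ℝ) ≤ √(N : ℝ) * √(N : ℝ) := mul_le_mul_of_nonneg_right h5 (by linarith)
      _ = N := hss
  · have := h6.trans hr5
    exact_mod_cast this
  · have h9 : Real.exp 9 ≤ ((2 * (Nat.sqrt N + 1) : ℕ) : ℝ) := h7.trans hr5
    have h10 : (9 : ℝ) ≤ Real.log ((2 * (Nat.sqrt N + 1) : ℕ) : ℝ) := by
      rw [Real.le_log_iff_exp_le (lt_of_lt_of_le (Real.exp_pos _) h9)]
      exact h9
    have h11 : (3 : ℝ) ≤ √(Real.log ((2 * (Nat.sqrt N + 1) : ℕ) : ℝ)) := by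
      apply Real.le_sqrt_of_sq_le
      linarith
    have h12 : (10 : ℝ) ≤ Real.exp 3 := by
      have h13 : (2.7182818283 : ℝ) < Real.exp 1 := Real.exp_one_gt_d9
      have e : Real.exp 3 = Real.exp 1 ^ 3 := by rw [← Real.exp_nat_mul]; norm_num
      rw [e]
      have : (2.7 : ℝ) ^ 3 ≤ Real.exp 1 ^ 3 := pow_le_pow_left₀ (by norm_num) (by linarith) 3
      linarith
    exact h12.trans (Real.exp_le_exp.2 h11)
  · have hN1 : (1 : ℝ) ≤ N := by
      have := mul_le_mul h4 h4 zero_le_one (by linarith)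
      rw [hss] at this
      linarith
    have hlogpos : 0 < Real.log N := by
      have h9 : Real.exp 9 ≤ N := by
        refine h7.trans ?_
        calc √(N : ℝ) = √(N : ℝ) * 1 := by ring
          _ ≤ √(N : ℝ) * √(N : ℝ) := mul_le_mul_of_nonneg_left h4 (by linarith)
          _ = N := hss
      have h10 : (9 : ℝ) ≤ Real.log N := by
        rw [Real.le_log_iff_exp_le (by linarith)]
        exact h9
      linarith
    have e1 : ((2 * (Nat.sqrt N + 1) : ℕ) : ℝ) ^ (1 / 4 : ℝ) ≤ 2 * (N : ℝ) ^ (1 / 8 : ℝ) := by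
      calc ((2 * (Nat.sqrt N + 1) : ℕ) : ℝ) ^ (1 / 4 : ℝ) ≤ (4 * √(N : ℝ)) ^ (1 / 4 : ℝ) :=
            Real.rpow_le_rpow (Nat.cast_nonneg _) hr4 (by norm_num)
        _ = (4 : ℝ) ^ (1 / 4 : ℝ) * √(N : ℝ) ^ (1 / 4 : ℝ) := Real.mul_rpow (by norm_num) (by positivity)
        _ = (4 : ℝ) ^ (1 / 4 : ℝ) * (N : ℝ) ^ (1 / 8 : ℝ) := by
            rw [Real.sqrt_eq_rpow, ← Real.rpow_mul hN0]; norm_num
        _ ≤ 2 * (N : ℝ) ^ (1 / 8 : ℝ) := by
            gcongr
            calc (4 : ℝ) ^ (1 / 4 : ℝ) ≤ (16 : ℝ) ^ (1 / 4 : ℝ) := Real.rpow_le_rpow (by norm_num) (by norm_num) (by norm_num)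
              _ = 2 := by
                rw [show (16 : ℝ) = 2 ^ (4 : ℝ) by norm_num, ← Real.rpow_mul (by norm_num)]; norm_num
    have e2 : (1 : ℝ) ≤ (N : ℝ) ^ (1 / 8 : ℝ) := Real.one_le_rpow hN1 (by norm_num)
    have e3 : (N : ℝ) ^ (1 / 8 : ℝ) ≤ (N : ℝ) ^ (1 / 4 : ℝ) := Real.rpow_le_rpow_of_exponent_le hN1 (by norm_num)
    have e4 : √(N : ℝ) = (N : ℝ) ^ (1 / 4 : ℝ) * (N : ℝ) ^ (1 / 4 : ℝ) := by
      rw [Real.sqrt_eq_rpow, ← Real.rpow_add (by linarith)]; norm_num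
    have e5 : 16 * (N : ℝ) ^ (1 / 4 : ℝ) ≤ κ / (G : ℝ) * (√(N : ℝ) / Real.log N ^ 2) := by
      rw [← mul_div_assoc, le_div_iff₀ (by positivity), e4]
      have hx : 0 ≤ (N : ℝ) ^ (1 / 4 : ℝ) := by positivity
      calc 16 * (N : ℝ) ^ (1 / 4 : ℝ) * Real.log N ^ 2 ≤
            16 * (N : ℝ) ^ (1 / 4 : ℝ) * (κ / (16 * G) * (N : ℝ) ^ (1 / 4 : ℝ)) := by gcongr
        _ = κ / (G : ℝ) * ((N : ℝ) ^ (1 / 4 : ℝ) * (N : ℝ) ^ (1 / 4 : ℝ)) := by
            field_simp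
    linarith

set_option maxHeartbeats 1600000 in
theorem fin (hENG : S_ENGP) (hSTRIP : S_STRIP) (hSYS : S_SYSQ) (hEXC : S_EXC) (hLAR : S_LAR) (hVUP : S_VUP)
    (hCNT : S_CNT) : S_FIN := by
  classical
  intro b c hbc h3 k κ ε hκ hε
  obtain ⟨G, hGd⟩ : ∃ G : ℕ, G = ⌈16 / ε⌉₊ + 1 := ⟨_, rfl⟩
  have hG1 : 1 ≤ G := by omega
  have hG0 : (0 : ℝ) < G := by exact_mod_cast hG1
  have hGε : 16 / ε ≤ G := by
    rw [hGd]
    push_cast
    have := Nat.le_ceil (16 / ε)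
    linarith
  obtain ⟨c₁, hc₁, X₀, hC⟩ := hCNT b c hbc h3 G (ε / 32) (by positivity)
  obtain ⟨K, hK, H₁, hV⟩ := hVUP b c hbc h3 (ε / 128) (by positivity)
  obtain ⟨εE, hεE, B, H₂, hE⟩ := hENG (max k 2) 4 (1 / 4) (κ / (64 * K * G)) (le_max_right _ _) (by norm_num)
    (by positivity)
  obtain ⟨H₃, hX⟩ := hEXC b c B εE (ε / 128) hεE (by positivity)
  obtain ⟨H₄, hL⟩ := hLAR b c B (1 / 20) (by norm_num)
  obtain ⟨N₀, hN₀⟩ := eventually_atTop.1 (numsF b c G X₀ (H₁ + H₂ + H₃ + H₄) (κ / 2) ε hG1 (by positivity) hε)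
  refine ⟨c₁ / G, by positivity, B, N₀, fun N hN => ?_⟩
  obtain ⟨n1, n2, n3, n4, n5, n6, n7, n8, n9, n10⟩ := hN₀ N hN
  obtain ⟨H, hH⟩ : ∃ H : ℕ, H = 2 * (Nat.sqrt N + 1) := ⟨_, rfl⟩
  obtain ⟨X, hXd⟩ : ∃ X : ℕ, X = Nat.sqrt (N / G) + 1 := ⟨_, rfl⟩
  rw [← hH] at n4 n5 n6 n8 n9 n10
  rw [← hXd] at n1 n3
  have hN1 : 1 ≤ N := by
    by_contra hcon
    have : N = 0 := by omega
    subst this
    simp at n2
  have hNr : (0 : ℝ) < N := by exact_mod_cast hN1
  have hss : √(N : ℝ) * √(N : ℝ) = N := Real.mul_self_sqrt hNr.le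
  have hs0 : 0 < √(N : ℝ) := Real.sqrt_pos.2 hNr
  -- `H`
  have hNH : 4 * N ≤ H ^ 2 := by
    have h1 := Nat.lt_succ_sqrt' N
    rw [Nat.succ_eq_add_one] at h1
    rw [hH, mul_pow]
    omega
  have hHN : (H : ℝ) ^ 2 ≤ 16 * N := by
    have h0 : (0 : ℝ) ≤ H := Nat.cast_nonneg H
    calc (H : ℝ) ^ 2 ≤ (4 * √(N : ℝ)) ^ 2 := pow_le_pow_left₀ h0 n6 2
      _ = 16 * (√(N : ℝ) * √(N : ℝ)) := by ring
      _ = 16 * N := by rw [hss]
  -- `X`
  have hNX : N < G * X ^ 2 := by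
    have h1 := Nat.lt_succ_sqrt' (N / G)
    rw [Nat.succ_eq_add_one, ← hXd] at h1
    calc N < G * (N / G + 1) := Nat.lt_mul_div_succ N hG1
      _ ≤ G * X ^ 2 := Nat.mul_le_mul_left _ h1
  have hXN : X ^ 2 ≤ 4 * (N / G) := by
    have h1 : Nat.sqrt (N / G) ^ 2 ≤ N / G := Nat.sqrt_le' _
    have h2 : 1 ≤ Nat.sqrt (N / G) := by omega
    rw [hXd]
    nlinarith
  have hXN' : (X : ℝ) ^ 2 ≤ 4 * (N / G) := by
    have h1 : ((X ^ 2 : ℕ) : ℝ) ≤ ((4 * (N / G) : ℕ) : ℝ) := by exact_mod_cast hXN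
    push_cast at h1
    refine h1.trans ?_
    have : ((N / G : ℕ) : ℝ) ≤ N / G := Nat.cast_div_le
    linarith
  have hX1 : (3 : ℝ) ≤ X := by exact_mod_cast n3
  -- the exceptional sets
  obtain ⟨E1, hE1⟩ : ∃ E1 : Finset ℕ, E1 = Icc 1 (2 * X ^ 2) := ⟨_, rfl⟩
  obtain ⟨E2, hE2⟩ : ∃ E2 : Finset ℕ, E2 = (Ioc (2 * X ^ 2) (G * X ^ 2)).filter (fun n : ℕ => Odd n ∧
    (((Icc 1 X).filter (fun p : ℕ => p ∈ Rep b c n)).card : ℝ) < c₁ * (X / Real.log X ^ 2)) := ⟨_, rfl⟩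
  obtain ⟨E3, hE3⟩ : ∃ E3 : Finset ℕ, E3 = (Icc 1 (H ^ 2)).filter (fun n : ℕ => Odd n ∧
    K < V (Fq b c n) 1 H * Real.log H ^ 2) := ⟨_, rfl⟩
  obtain ⟨E4, hE4⟩ : ∃ E4 : Finset ℕ, E4 = (Icc 1 (H ^ 2)).filter (fun n : ℕ => ∃ h : ℕ, 1 ≤ h ∧
    (h : ℝ) ≤ Real.log H ^ B ∧ εE < ∑ p ∈ (Icc 1 H).filter (fun p : ℕ => p.Prime ∧ Real.log (Real.log H) < p ∧
      (p : ℝ) < Real.exp (√(Real.log H)) ∧ CF (Fq b c n) h p), (1 : ℝ) / p) := ⟨_, rfl⟩
  obtain ⟨E5, hE5⟩ : ∃ E5 : Finset ℕ, E5 = (Icc 1 H).image (fun x : ℕ => ((x : ℤ) ^ 2 + b * x + c).toNat) := ⟨_, rfl⟩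
  have hE1c : (E1.card : ℝ) ≤ ε / 2 * N := by
    have h1 : (E1.card : ℝ) = 2 * (X : ℝ) ^ 2 := by rw [hE1, Nat.card_Icc]; push_cast; simp
    rw [h1]
    have h2 : 2 * (X : ℝ) ^ 2 ≤ 8 * (N / G) := by linarith
    refine h2.trans ?_
    rw [← mul_div_assoc, div_le_iff₀ hG0]
    rw [div_le_iff₀ hε] at hGε
    nlinarith
  have hE2c : (E2.card : ℝ) ≤ ε / 8 * N := by
    have h1 := hC X n1
    rw [hE2]
    refine le_trans (by convert h1) ?_
    have h2 : (N : ℝ) / G ≤ N := div_le_self hNr.le (by exact_mod_cast hG1)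
    calc ε / 32 * (X : ℝ) ^ 2 ≤ ε / 32 * (4 * (N / G)) := by gcongr
      _ ≤ ε / 32 * (4 * N) := by gcongr
      _ = ε / 8 * N := by ring
  have hE3c : (E3.card : ℝ) ≤ ε / 8 * N := by
    have h1 := hV H (by omega)
    rw [hE3]
    refine le_trans (by convert h1) ?_
    calc ε / 128 * (H : ℝ) ^ 2 ≤ ε / 128 * (16 * N) := by gcongr
      _ = ε / 8 * N := by ring
  have hE4c : (E4.card : ℝ) ≤ ε / 8 * N := by
    have h1 := hX H (by omega)
    rw [hE4]
    refine le_trans (by convert h1) ?_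
    calc ε / 128 * (H : ℝ) ^ 2 ≤ ε / 128 * (16 * N) := by gcongr
      _ = ε / 8 * N := by ring
  have hE5c : (E5.card : ℝ) ≤ ε / 8 * N := by
    refine le_trans ?_ n5
    have h1 : E5.card ≤ H := by
      rw [hE5]
      refine card_image_le.trans ?_
      rw [Nat.card_Icc]
      omega
    exact_mod_cast h1
  have hcard : ((E1 ∪ E2 ∪ E3 ∪ E4 ∪ E5).card : ℝ) ≤ ε * N := by
    have h1 : (E1 ∪ E2 ∪ E3 ∪ E4 ∪ E5).card ≤ E1.card + E2.card + E3.card + E4.card + E5.card := by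
      refine (card_union_le _ _).trans ?_
      have h2 := card_union_le (E1 ∪ E2 ∪ E3) E4
      have h3 := card_union_le (E1 ∪ E2) E3
      have h4 := card_union_le E1 E2
      omega
    have h2 : ((E1 ∪ E2 ∪ E3 ∪ E4 ∪ E5).card : ℝ) ≤ E1.card + E2.card + E3.card + E4.card + E5.card := by
      exact_mod_cast h1
    linarith
  refine le_trans ?_ hcard
  have hsub : ((Icc 1 N).filter (fun n : ℕ => Odd n ∧ ¬
    (c₁ / G * (√n / Real.log n ^ 2) ≤ (Rep b c n).ncard ∧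
     ∀ S ⊆ Rep b c n, κ * (√n / Real.log n ^ 2) ≤ S.ncard →
      ∃ a d : ℕ, 1 ≤ d ∧ (d : ℝ) ≤ Real.log n ^ B ∧ ∀ i < k, a + i * d ∈ S))) ⊆ E1 ∪ E2 ∪ E3 ∪ E4 ∪ E5 := by
    intro n hn
    rw [mem_filter, mem_Icc] at hn
    obtain ⟨⟨hn1, hnN⟩, hodd, hbad⟩ := hn
    by_contra hcon
    simp only [mem_union, not_or] at hcon
    obtain ⟨⟨⟨⟨hx1, hx2⟩, hx3⟩, hx4⟩, hx5⟩ := hcon
    apply hbad
    have hnX : 2 * X ^ 2 < n := by
      rw [hE1, mem_Icc] at hx1
      by_contra h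
      exact hx1 ⟨hn1, by omega⟩
    have hnH2 : n ≤ H ^ 2 := by omega
    have hnr : (0 : ℝ) < n := by exact_mod_cast hn1
    -- sizes of `n`
    have hnG : 2 * (N : ℝ) / G ≤ n := by
      rw [div_le_iff₀ hG0]
      have h1 : (N : ℝ) < G * (X : ℝ) ^ 2 := by exact_mod_cast hNX
      have h2 : 2 * (X : ℝ) ^ 2 < n := by exact_mod_cast hnX
      nlinarith
    have hsn : √(N : ℝ) / G ≤ √(n : ℝ) := by
      have hG1r : (1 : ℝ) ≤ G := by exact_mod_cast hG1
      apply Real.le_sqrt_of_sq_le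
      rw [div_pow, Real.sq_sqrt hNr.le]
      refine le_trans ?_ hnG
      rw [div_le_div_iff₀ (by positivity) hG0]
      have hGG : (G : ℝ) ≤ G ^ 2 := by nlinarith
      have hGG2 := mul_le_mul_of_nonneg_left hGG hNr.le
      have hGG3 : 0 ≤ (N : ℝ) * G ^ 2 := by positivity
      linarith
    have hnN' : (n : ℝ) ≤ N := by exact_mod_cast hnN
    have hHn : (H : ℝ) ≤ n := by
      refine n6.trans (le_trans ?_ hnG)
      rw [le_div_iff₀ hG0]
      have h1 : (G : ℝ) ≤ G ^ 2 := by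
        have hG1r : (1 : ℝ) ≤ G := by exact_mod_cast hG1
        nlinarith
      nlinarith
    have hH4 : (4 : ℝ) ≤ H := by
      have h0 := abs_nonneg b
      have h1 := abs_nonneg c
      have h2 : (4 : ℤ) ≤ H := by
        have : (1 : ℤ) ≤ (|b| + |c| + 4) ^ 4 := one_le_pow₀ (by linarith)
        linarith
      exact_mod_cast h2
    have hlogn : 0 < Real.log n := Real.log_pos (by linarith)
    have hlogH : 0 < Real.log H := Real.log_pos (by linarith)
    have hlogHn : Real.log H ≤ Real.log n := Real.log_le_log (by linarith) hHn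
    have hsNH : √(N : ℝ) ≤ H := by
      have h1 : (4 : ℝ) * N ≤ (H : ℝ) ^ 2 := by exact_mod_cast hNH
      rw [Real.sqrt_le_left (by linarith)]
      linarith
    have hlognH : Real.log n ≤ 2 * Real.log H := by
      have h1 : (n : ℝ) ≤ (H : ℝ) ^ 2 := by exact_mod_cast hnH2
      have := Real.log_le_log hnr h1
      rw [Real.log_pow] at this
      exact_mod_cast this
    refine ⟨?_, ?_⟩
    · -- the number of the representations
      have h1 : c₁ * (X / Real.log X ^ 2) ≤ (((Icc 1 X).filter (fun p : ℕ => p ∈ Rep b c n)).card : ℝ) := by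
        by_contra h
        apply hx2
        rw [hE2, mem_filter, mem_Ioc]
        exact ⟨⟨hnX, by omega⟩, hodd, not_le.1 h⟩
      have h2 : (((Icc 1 X).filter (fun p : ℕ => p ∈ Rep b c n)).card : ℝ) ≤ (Rep b c n).ncard := by
        have h3 : (((Icc 1 X).filter (fun p : ℕ => p ∈ Rep b c n) : Finset ℕ) : Set ℕ) ⊆ Rep b c n := by
          intro p hp
          rw [mem_coe, mem_filter] at hp
          exact hp.2
        have h4 := Set.ncard_le_ncard h3 (Rep_finite b c n)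
        rw [Set.ncard_coe_finset] at h4
        exact_mod_cast h4
      refine le_trans ?_ (h1.trans h2)
      have hXlog : 0 < Real.log X := Real.log_pos (by linarith)
      have h5 : Real.log X ≤ Real.log n := by
        apply Real.log_le_log (by linarith)
        have : (2 : ℝ) * (X : ℝ) ^ 2 < n := by exact_mod_cast hnX
        nlinarith
      have h6 : √(n : ℝ) ≤ G * X := by
        rw [Real.sqrt_le_left (by positivity)]
        have h7 : (n : ℝ) < G * (X : ℝ) ^ 2 := by exact_mod_cast lt_of_le_of_lt hnN hNX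
        have hG1r : (1 : ℝ) ≤ G := by exact_mod_cast hG1
        calc (n : ℝ) ≤ G * (X : ℝ) ^ 2 := h7.le
          _ ≤ (G * G) * (X : ℝ) ^ 2 := by
            apply mul_le_mul_of_nonneg_right _ (by positivity)
            nlinarith
          _ = (G * X : ℝ) ^ 2 := by ring
      calc c₁ / G * (√(n : ℝ) / Real.log n ^ 2) ≤ c₁ / G * ((G * X) / Real.log X ^ 2) := by gcongr
        _ = c₁ * (X / Real.log X ^ 2) := by field_simp
    · -- progressions
      intro S hS hSc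
      have hSfin : S.Finite := (Rep_finite b c n).subset hS
      obtain ⟨S', hS'⟩ : ∃ S' : Finset ℕ, (S' : Set ℕ) = S := ⟨hSfin.toFinset, hSfin.coe_toFinset⟩
      have hS'R : ∀ p ∈ S', p ∈ Rep b c n := fun p hp => hS (by rw [← hS']; exact hp)
      rw [← hS', Set.ncard_coe_finset] at hSc
      obtain ⟨T, hTd⟩ : ∃ T : ℕ, T = ⌊(H : ℝ) ^ (1 / 4 : ℝ)⌋₊ := ⟨_, rfl⟩
      have hTle : (T : ℝ) ≤ (H : ℝ) ^ (1 / 4 : ℝ) := by
        rw [hTd]
        exact Nat.floor_le (by positivity)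
      have hTge : (H : ℝ) ^ (1 / 4 : ℝ) < T + 1 := by
        rw [hTd]
        exact Nat.lt_floor_add_one _
      have hbT : |b| ≤ (T : ℤ) := by
        have h1 : (((|b| + |c| + 4 : ℤ)) : ℝ) ≤ (H : ℝ) ^ (1 / 4 : ℝ) := by
          have h2 : ((((|b| + |c| + 4) ^ 4 : ℤ)) : ℝ) ≤ H := by
            have h3 : (|b| + |c| + 4) ^ 4 ≤ (H : ℤ) := by
              have : (0 : ℤ) ≤ (|b| + |c| + 4) ^ 4 := by positivity
              linarith
            exact_mod_cast h3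
          have h4 : (0 : ℝ) ≤ (((|b| + |c| + 4 : ℤ)) : ℝ) := by
            have : (0 : ℤ) ≤ |b| + |c| + 4 := by positivity
            exact_mod_cast this
          calc (((|b| + |c| + 4 : ℤ)) : ℝ) = ((((|b| + |c| + 4 : ℤ)) : ℝ) ^ 4) ^ (1 / 4 : ℝ) := by
                rw [← Real.rpow_natCast, ← Real.rpow_mul h4]; norm_num
            _ ≤ (H : ℝ) ^ (1 / 4 : ℝ) := by
                apply Real.rpow_le_rpow (by positivity) _ (by norm_num)
                exact_mod_cast h2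
        have h5 : (((|b| + |c| + 4 : ℤ)) : ℝ) < (((T : ℤ) + 1 : ℤ) : ℝ) := by
          push_cast at h1 ⊢
          linarith
        have h6 : |b| + |c| + 4 < (T : ℤ) + 1 := by exact_mod_cast h5
        have := abs_nonneg c
        linarith
      obtain ⟨A, hA⟩ : ∃ A : Finset ℕ, A = S'.filter (fun p : ℕ => T < p ∧
        (T : ℤ) < (n : ℤ) - ((p : ℤ) ^ 2 + b * p + c)) := ⟨_, rfl⟩
      have hAc : (S'.card : ℝ) ≤ A.card + 2 * T := by
        have := small_rep b c n T hbT S' hS'R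
        rw [← hA] at this
        exact_mod_cast this
      obtain ⟨bad, hbd⟩ : ∃ bad : ℕ → Prop, bad = fun p : ℕ => Real.exp (√(Real.log H)) ≤ p ∧
        ∃ h : ℕ, 1 ≤ h ∧ (h : ℝ) ≤ Real.log H ^ B ∧ CF (Fq b c n) h p := ⟨_, rfl⟩
      obtain ⟨F, hF⟩ : ∃ F : ℤ → ℤ, F = strip (Fq b c n) H bad := ⟨_, rfl⟩
      obtain ⟨s1, s2, s3, s4⟩ := hSTRIP 4 (Fq b c n) H bad ((hSYS b c n).1 hbc h3 hodd)
      rw [← hF] at s1 s2 s3 s4
      have hCF : ∀ h p : ℕ, p.Prime → CF F h p → CF (Fq b c n) h p ∧ ¬ bad p := by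
        rintro h p hp ⟨x, hx, hx'⟩
        have g1 := (s2 x p hp).1 hx
        have g2 := (s2 (x + h) p hp).1 hx'
        exact ⟨⟨x, g1.2.2, g2.2.2⟩, g1.2.1⟩
      have hVb : V F 1 H ≤ 2 * V (Fq b c n) 1 H := by
        apply s4
        · have h1 := hL H (by omega) n (by exact_mod_cast hHn) hnH2
          have e : (1 : ℝ) / (4 * ((4 : ℕ) + 1)) = 1 / 20 := by norm_num
          rw [e]
          refine le_trans (le_of_eq ?_) h1
          apply sum_congr _ (fun _ _ => rfl)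
          ext p
          simp only [mem_filter, hbd]
        · intro p hp hbp
          rw [hbd] at hbp
          have h1 := n9.trans hbp.1
          have : (10 : ℕ) ≤ p := by exact_mod_cast h1
          omega
      have hVK : V (Fq b c n) 1 H * Real.log H ^ 2 ≤ K := by
        by_contra h
        apply hx3
        rw [hE3, mem_filter, mem_Icc]
        exact ⟨⟨hn1, hnH2⟩, hodd, not_le.1 h⟩
      -- the density of `A`
      have hden : κ / (64 * K * G) * (H * V F 1 H) ≤ A.card := by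
        have hH0 : (0 : ℝ) < H := by linarith
        have h1 : V F 1 H ≤ 2 * K / Real.log H ^ 2 := by
          rw [le_div_iff₀ (by positivity)]
          nlinarith [sq_nonneg (Real.log H)]
        have h2 : κ / (64 * K * G) * (H * V F 1 H) ≤ κ / (64 * K * G) * (H * (2 * K / Real.log H ^ 2)) := by
          gcongr
        refine h2.trans ?_
        have e1 : κ / (64 * K * G) * (H * (2 * K / Real.log H ^ 2)) = κ / (32 * G) * (H / Real.log H ^ 2) := by
          field_simp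
          norm_num
        rw [e1]
        have h3 : κ / (32 * G) * (H / Real.log H ^ 2) ≤ κ / 2 * (√(n : ℝ) / Real.log n ^ 2) := by
          have h4 : (H : ℝ) ≤ 4 * G * √(n : ℝ) := by
            rw [div_le_iff₀ hG0] at hsn
            nlinarith
          have h5 : Real.log n ^ 2 ≤ 4 * Real.log H ^ 2 := by
            have := pow_le_pow_left₀ hlogn.le hlognH 2
            nlinarith
          have h6 : (H : ℝ) / Real.log H ^ 2 ≤ 16 * G * (√(n : ℝ) / Real.log n ^ 2) := by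
            rw [← mul_div_assoc, div_le_div_iff₀ (by positivity) (by positivity)]
            calc (H : ℝ) * Real.log n ^ 2 ≤ (4 * G * √(n : ℝ)) * (4 * Real.log H ^ 2) := by gcongr
              _ = 16 * G * √(n : ℝ) * Real.log H ^ 2 := by ring
          calc κ / (32 * G) * (H / Real.log H ^ 2) ≤ κ / (32 * G) * (16 * G * (√(n : ℝ) / Real.log n ^ 2)) := by
                gcongr
            _ = κ / 2 * (√(n : ℝ) / Real.log n ^ 2) := by field_simp; norm_num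
        have h7 : 2 * (T : ℝ) ≤ κ / 2 * (√(n : ℝ) / Real.log n ^ 2) := by
          have h8 : 2 * (T : ℝ) ≤ κ / 2 / (G : ℝ) * (√(N : ℝ) / Real.log N ^ 2) := by linarith
          refine h8.trans ?_
          have hlogN : Real.log n ≤ Real.log N := Real.log_le_log hnr hnN'
          have h9 : √(N : ℝ) / Real.log N ^ 2 ≤ (G * √(n : ℝ)) / Real.log n ^ 2 := by
            rw [div_le_iff₀ hG0] at hsn
            gcongr
            linarith
          calc κ / 2 / (G : ℝ) * (√(N : ℝ) / Real.log N ^ 2) ≤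
                κ / 2 / (G : ℝ) * ((G * √(n : ℝ)) / Real.log n ^ 2) := by gcongr
            _ = κ / 2 * (√(n : ℝ) / Real.log n ^ 2) := by field_simp
        linarith
      -- the theorem
      obtain ⟨a, d, hd1, hd2, hAP⟩ := hE F 0 H A s1 (by omega)
        (by
          intro x hx
          rw [mem_Ioc] at hx
          have hne : Fq b c n (x : ℤ) ≠ 0 := by
            unfold Fq
            rw [mul_ne_zero_iff]
            refine ⟨by omega, fun h0 => ?_⟩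
            apply hx5
            rw [hE5, mem_image]
            refine ⟨x, mem_Icc.2 ⟨by omega, by omega⟩, ?_⟩
            omega
          obtain ⟨g1, g2⟩ := s3 x hne
          refine ⟨g1, g2.trans (Fq_bd b c n H ?_ hnH2 x (by omega))⟩
          have : (|b| + |c| + 4) ^ 1 ≤ (|b| + |c| + 4) ^ 4 := by
            apply pow_le_pow_right₀ _ (by norm_num)
            have h0 := abs_nonneg b
            have h1 := abs_nonneg c
            linarith
          have h2 : (0 : ℤ) ≤ (|b| + |c| + 4) ^ 4 := by positivity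
          linarith)
        (by
          intro h hh1 hh2
          by_contra hcon2
          push Not at hcon2
          apply hx4
          rw [hE4, mem_filter, mem_Icc]
          refine ⟨⟨hn1, hnH2⟩, h, hh1, hh2, lt_of_lt_of_le hcon2 ?_⟩
          apply sum_le_sum_of_subset_of_nonneg
          · intro p hp
            rw [mem_filter] at hp ⊢
            obtain ⟨g1, g2⟩ := hCF h p hp.2.1 hp.2.2.2
            refine ⟨hp.1, hp.2.1, hp.2.2.1, ?_, g1⟩
            by_contra g3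
            apply g2
            rw [hbd]
            exact ⟨not_lt.1 g3, h, hh1, hh2, g1⟩
          · intro p _ _
            positivity)
        (by
          intro h hh1 hh2 p hp hpe hcf
          obtain ⟨g1, g2⟩ := hCF h p hp hcf
          apply g2
          rw [hbd]
          exact ⟨hpe, h, hh1, hh2, g1⟩)
        (by
          intro p hp
          rw [hA, mem_filter] at hp
          rw [mem_Ioc]
          refine ⟨(hS'R p hp.1).1.pos, ?_⟩
          have := Rep_le b c n H (by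
            have h0 := abs_nonneg b
            have h1 := abs_nonneg c
            have h2 : (|b| + |c| + 4) ^ 1 ≤ (|b| + |c| + 4) ^ 4 :=
              pow_le_pow_right₀ (by linarith) (by norm_num)
            linarith) (by omega) p (hS'R p hp.1)
          omega)
        (by
          intro p hp q hq hqH hqd
          rw [hA, mem_filter] at hp
          have hqT : q ≤ T := by
            rw [hTd]
            exact Nat.le_floor hqH
          have g1 := ((s2 p q hq).1 hqd).2.2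
          obtain ⟨hpp, q', hq', hpq'⟩ := hS'R p hp.1
          unfold Fq at g1
          have e : (n : ℤ) - ((p : ℤ) ^ 2 + b * p + c) = q' := by linarith
          rw [e] at g1
          have g2 := hp.2
          rw [e] at g2
          have g3 : T < q' := by exact_mod_cast g2.2
          have g4 : q ∣ p * q' := by exact_mod_cast g1
          rcases (hq.dvd_mul).1 g4 with g5 | g5
          · have := (Nat.prime_dvd_prime_iff_eq hq hpp).1 g5
            omega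
          · have := (Nat.prime_dvd_prime_iff_eq hq hq').1 g5
            omega)
        hden
      refine ⟨a, d, hd1, hd2.trans (pow_le_pow_left₀ hlogH.le hlogHn B), fun i hi => ?_⟩
      have := hAP i (lt_of_lt_of_le hi (le_max_left _ _))
      rw [hA, mem_filter] at this
      rw [← hS']
      exact this.1
  have h := card_le_card hsub
  have h' := (Nat.cast_le (α := ℝ)).2 h
  refine le_trans (le_of_eq ?_) h'
  congr!

end Pool.Agent.K3h89.SZ
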