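import Pool.Agent.Y677.RSZ.Stm

/-!
# Project SZ (helper89): Szemerédi's theorem relative to the representations `n = f(p) + q`

Part 1: the theorem of `Y677.RSZ` (Szemerédi relative to sifted sets) for systems `F` for which only the SETS
`{x : p ∣ F x}` are periodic, and in which `F x`, `F (x + h)` may have some common prime factors (for
`F_n(x) = x (n - f(x))` they have, depending on `n`).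
Part 2: for almost all odd `n` the function `F_n`, stripped of few primes, is such a system, and the set of
the primes `p` with `n - f(p)` prime has the right order of magnitude.
-/

set_option autoImplicit false

open Finset

namespace Pool.Agent.K3h89.SZ

open Pool.Agent.TH423.SH (PS)
open Pool.Agent.Y677.RSZ (rt rhoT V rs qfr PR S_SEL S_MER S_MK)

/-- the sets `{x : p ∣ F x}` are periodic modulo `p`, with at most `g` classes and not all classes -/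
structure SysP (g : ℕ) (F : ℤ → ℤ) : Prop where
  per : ∀ p : ℕ, p.Prime → ∀ n : ℤ, (p : ℤ) ∣ F (n + p) ↔ (p : ℤ) ∣ F n
  root : ∀ p : ℕ, p.Prime → rt F p ≤ g ∧ rt F p < p

/-- `p` divides `F x` and `F (x + h)` for some `x` -/
def CF (F : ℤ → ℤ) (h p : ℕ) : Prop := ∃ x : ℤ, (p : ℤ) ∣ F x ∧ (p : ℤ) ∣ F (x + h)

open Classical in
/-- (C1P) the fundamental lemma; `S_C1` of `Y677.RSZ.Stm` for weak systems -/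
def S_C1P : Prop := ∃ C : ℕ, 1 ≤ C ∧ ∀ g m b₀ W : ℕ, C * (g * m + 1) ≤ b₀ → 1 ≤ W →
  (∀ p : ℕ, p.Prime → p ≤ C * (g * m + 1) → p ∣ W) → ∀ F : ℤ → ℤ, SysP g F →
  ∀ (t : Fin m → ℕ) (b J D a M L : ℕ), 1 ≤ D → (∀ p ∈ PS W (2 ^ 2 ^ J), ¬ p ∣ D) →
  |(((Ioc M (M + L)).filter (fun K => K % D = a % D ∧
      ∀ p ∈ PS W (2 ^ 2 ^ J), ∀ i, ¬ (p : ℤ) ∣ F ((W * (K + t i) + b : ℕ) : ℤ))).card : ℝ) -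
    (L : ℝ) / D * ∏ p ∈ PS W (2 ^ 2 ^ J), (1 - (rhoT F W b t p : ℝ) / p)| ≤
    (1 / 2 : ℝ) ^ b₀ * ((L : ℝ) / D * ∏ p ∈ PS W (2 ^ 2 ^ J), (1 - (rhoT F W b t p : ℝ) / p)) +
      ((2 : ℝ) ^ 2 ^ J) ^ (C * b₀)

/-- (CLSP) the number of the classes with given divisibility conditions; `S_CLS` for weak systems -/
def S_CLSP : Prop := ∀ F : ℤ → ℤ, (∀ p : ℕ, p.Prime → ∀ n : ℤ, (p : ℤ) ∣ F (n + p) ↔ (p : ℤ) ∣ F n) →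
  ∀ (W b m : ℕ) (D t : Fin m → ℕ), (∀ i, Squarefree (D i) ∧ Nat.Coprime (D i) W) →
    (∀ i j, i ≠ j → Nat.Coprime (D i) (D j)) →
    ((range (∏ i, D i)).filter (fun r : ℕ =>
      ∀ i, (D i : ℤ) ∣ F ((W * (r + t i) + b : ℕ) : ℤ))).card = ∏ i, rs (rt F) (D i)

open Classical in
/-- (LOCP) the local factors; the primes which divide `F x` and `F (x + W k)` are few -/
def S_LOCP : Prop := ∀ (g m : ℕ) (η : ℝ), 0 < η → ∃ ε : ℝ, 0 < ε ∧ ∃ s₀ : ℝ, ∀ s : ℝ, s₀ ≤ s →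
  ∀ W N : ℕ, 1 ≤ W → 1 ≤ N → (∀ p : ℕ, p.Prime → (p : ℝ) ≤ s → p ∣ W) →
  ∀ F : ℤ → ℤ, SysP g F → ∀ R : ℕ,
  (∀ k : ℕ, 1 ≤ k → k ≤ N → ∑ p ∈ (PS W R).filter (fun p : ℕ => CF F (W * k) p), (1 : ℝ) / p ≤ ε) →
  ∀ (t : Fin m → ℕ) (b : ℕ), Function.Injective t → (∀ i, 1 ≤ t i ∧ t i ≤ N) →
    |∏ p ∈ PS W R, (1 - (rhoT F W b t p : ℝ) / p) - V F W R ^ m| ≤ η * V F W R ^ m

open Classical in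
/-- (MAJP) the majorant; `S_MAJ` for weak systems -/
def S_MAJP : Prop := ∀ (g M : ℕ) (δ : ℝ), 0 < δ → ∃ c : ℝ, 0 < c ∧ ∀ η : ℝ, 0 < η →
  ∃ ε : ℝ, 0 < ε ∧ ∃ (B : ℕ) (s₀ : ℝ), ∀ B' : ℕ, ∃ H₀ : ℕ,
  ∀ (F : ℤ → ℤ) (Y H W N : ℕ) (s : ℝ), SysP g F → H₀ ≤ H →
  (∀ n ∈ Ioc Y (Y + H), F (n : ℤ) ≠ 0 ∧ |F (n : ℤ)| ≤ (H : ℤ) ^ g) →
  1 ≤ W → 1 ≤ N → (W : ℝ) ≤ Real.log H ^ B' → (N : ℝ) ≤ Real.log H ^ B' → s₀ ≤ s →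
  (∀ p : ℕ, p.Prime → (p : ℝ) ≤ s → p ∣ W) →
  (∀ k : ℕ, 1 ≤ k → k ≤ N → ∑ p ∈ (PS W H).filter (fun p : ℕ => CF F (W * k) p), (1 : ℝ) / p ≤ ε) →
  (∀ k : ℕ, 1 ≤ k → k ≤ N → ∀ p : ℕ, p.Prime → Real.exp (√(Real.log H)) ≤ p → ¬ CF F (W * k) p) →
  ∃ ν : ℕ → ℝ, (∀ n, 0 ≤ ν n) ∧ (∀ n ∈ Ioc Y (Y + H), ν n ≤ Real.log H ^ B) ∧
    (∀ n ∈ Ioc Y (Y + H), (∀ p : ℕ, p.Prime → (p : ℝ) ≤ (H : ℝ) ^ δ → ¬ (p : ℤ) ∣ F (n : ℤ)) →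
      c ≤ ν n * V F W H) ∧
    ∀ m ≤ M, ∀ t : Fin m → ℕ, Function.Injective t → (∀ i, 1 ≤ t i ∧ t i ≤ N) →
      ∀ b M₀ L : ℕ, (H : ℝ) ^ (1 / 2 : ℝ) ≤ L →
        |(∑ K ∈ Ioc M₀ (M₀ + L), ∏ i, ν (W * (K + t i) + b)) / L - 1| ≤ η

open Classical in
/-- (ENGP) Szemerédi's theorem relative to sifted sets; `S_ENG` for weak systems -/
def S_ENGP : Prop := ∀ (k g : ℕ) (δ κ : ℝ), 2 ≤ k → 0 < δ → 0 < κ → ∃ ε : ℝ, 0 < ε ∧ ∃ B H₀ : ℕ,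
  ∀ (F : ℤ → ℤ) (Y H : ℕ) (A : Finset ℕ), SysP g F → H₀ ≤ H →
  (∀ n ∈ Ioc Y (Y + H), F (n : ℤ) ≠ 0 ∧ |F (n : ℤ)| ≤ (H : ℤ) ^ g) →
  (∀ h : ℕ, 1 ≤ h → (h : ℝ) ≤ Real.log H ^ B →
    ∑ p ∈ (Icc 1 H).filter (fun p : ℕ => p.Prime ∧ Real.log (Real.log H) < p ∧ CF F h p), (1 : ℝ) / p ≤ ε) →
  (∀ h : ℕ, 1 ≤ h → (h : ℝ) ≤ Real.log H ^ B →
    ∀ p : ℕ, p.Prime → Real.exp (√(Real.log H)) ≤ p → ¬ CF F h p) →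
  A ⊆ Ioc Y (Y + H) →
  (∀ n ∈ A, ∀ p : ℕ, p.Prime → (p : ℝ) ≤ (H : ℝ) ^ δ → ¬ (p : ℤ) ∣ F (n : ℤ)) →
  κ * (H * V F 1 H) ≤ A.card →
  ∃ a d : ℕ, 1 ≤ d ∧ (d : ℝ) ≤ Real.log H ^ B ∧ ∀ i < k, a + i * d ∈ A

/-- (LOWP) a positive proportion of the sieve bound is attained in every interval; `S_LOW` for weak systems -/
def S_LOWP : Prop := ∀ g : ℕ, ∃ δ κ : ℝ, 0 < δ ∧ 0 < κ ∧ ∃ H₀ : ℕ, ∀ (F : ℤ → ℤ) (Y H : ℕ),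
  SysP g F → H₀ ≤ H →
  ∃ A ⊆ Ioc Y (Y + H), (∀ n ∈ A, ∀ p : ℕ, p.Prime → (p : ℝ) ≤ (H : ℝ) ^ δ → ¬ (p : ℤ) ∣ F (n : ℤ)) ∧
    κ * (H * V F 1 H) ≤ A.card

open Classical in
/-- `F x` without the primes which are bad or larger than `H` -/
noncomputable def strip (F : ℤ → ℤ) (H : ℕ) (bad : ℕ → Prop) (x : ℤ) : ℤ :=
  ∏ p ∈ (Icc 1 H).filter (fun p : ℕ => p.Prime ∧ ¬ bad p ∧ (p : ℤ) ∣ F x), (p : ℤ)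

open Classical in
/-- (STRIP) the properties of the stripped function -/
def S_STRIP : Prop := ∀ (g : ℕ) (F : ℤ → ℤ) (H : ℕ) (bad : ℕ → Prop), SysP g F →
  SysP g (strip F H bad) ∧
  (∀ (x : ℤ) (p : ℕ), p.Prime → ((p : ℤ) ∣ strip F H bad x ↔ p ≤ H ∧ ¬ bad p ∧ (p : ℤ) ∣ F x)) ∧
  (∀ x : ℤ, F x ≠ 0 → strip F H bad x ≠ 0 ∧ |strip F H bad x| ≤ |F x|) ∧
  ((∑ p ∈ (Icc 1 H).filter (fun p : ℕ => p.Prime ∧ bad p), (1 : ℝ) / p ≤ 1 / (4 * (g + 1))) →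
    (∀ p : ℕ, p.Prime → bad p → 2 * (g + 1) ≤ p) →
    V (strip F H bad) 1 H ≤ 2 * V F 1 H)

/-- the function `x (n - f(x))`, `f(x) = x² + b x + c` -/
def Fq (b c : ℤ) (n : ℕ) (x : ℤ) : ℤ := x * ((n : ℤ) - (x ^ 2 + b * x + c))

/-- (SYSQ) the functions `Fq` are systems, and their common prime factors -/
def S_SYSQ : Prop := ∀ (b c : ℤ) (n : ℕ),
  (Odd (b + c) → ¬ (3 : ℤ) ∣ b → Odd n → SysP 4 (Fq b c n)) ∧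
  ∀ (h p : ℕ), p.Prime → p ≠ 2 → CF (Fq b c n) h p → p ∣ h ∨
    (p : ℤ) ∣ (n : ℤ) - ((h : ℤ) ^ 2 + b * h + c) ∨ (p : ℤ) ∣ (n : ℤ) - ((h : ℤ) ^ 2 - b * h + c) ∨
    (p : ℤ) ∣ 4 * ((n : ℤ) - c) + b ^ 2 - (h : ℤ) ^ 2

open Classical in
/-- (EXC) few `n` have many common prime factors of medium size -/
def S_EXC : Prop := ∀ (b c : ℤ) (B : ℕ) (ε ε₁ : ℝ), 0 < ε → 0 < ε₁ → ∃ H₀ : ℕ, ∀ H : ℕ, H₀ ≤ H →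
  (((Icc 1 (H ^ 2)).filter (fun n : ℕ => ∃ h : ℕ, 1 ≤ h ∧ (h : ℝ) ≤ Real.log H ^ B ∧
    ε < ∑ p ∈ (Icc 1 H).filter (fun p : ℕ => p.Prime ∧ Real.log (Real.log H) < p ∧
      (p : ℝ) < Real.exp (√(Real.log H)) ∧ CF (Fq b c n) h p), (1 : ℝ) / p)).card : ℝ) ≤
    ε₁ * (H : ℝ) ^ 2

open Classical in
/-- (LAR) the common prime factors of large size -/
def S_LAR : Prop := ∀ (b c : ℤ) (B : ℕ) (η : ℝ), 0 < η → ∃ H₀ : ℕ, ∀ H : ℕ, H₀ ≤ H →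
  ∀ n : ℕ, H ≤ n → n ≤ H ^ 2 →
  ∑ p ∈ (Icc 1 H).filter (fun p : ℕ => p.Prime ∧ Real.exp (√(Real.log H)) ≤ p ∧
    ∃ h : ℕ, 1 ≤ h ∧ (h : ℝ) ≤ Real.log H ^ B ∧ CF (Fq b c n) h p), (1 : ℝ) / p ≤ η

open Classical in
/-- (VUP) the sieve product is small for most `n` -/
def S_VUP : Prop := ∀ (b c : ℤ), Odd (b + c) → ¬ (3 : ℤ) ∣ b → ∀ ε : ℝ, 0 < ε → ∃ K : ℝ, 0 < K ∧
  ∃ H₀ : ℕ, ∀ H : ℕ, H₀ ≤ H →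
  (((Icc 1 (H ^ 2)).filter (fun n : ℕ => Odd n ∧ K < V (Fq b c n) 1 H * Real.log H ^ 2)).card : ℝ) ≤
    ε * (H : ℝ) ^ 2

/-- the primes `p` for which `n - f(p)` is prime -/
def Rep (b c : ℤ) (n : ℕ) : Set ℕ :=
  {p : ℕ | p.Prime ∧ ∃ q : ℕ, q.Prime ∧ (n : ℤ) = ((p : ℤ) ^ 2 + b * p + c) + q}

open Classical in
/-- (CNT) most odd `n` have the expected number of representations -/
def S_CNT : Prop := ∀ (b c : ℤ), Odd (b + c) → ¬ (3 : ℤ) ∣ b → ∀ (G : ℕ) (ε : ℝ), 0 < ε →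
  ∃ c₀ : ℝ, 0 < c₀ ∧ ∃ X₀ : ℕ, ∀ X : ℕ, X₀ ≤ X →
  (((Ioc (2 * X ^ 2) (G * X ^ 2)).filter (fun n : ℕ => Odd n ∧
    (((Icc 1 X).filter (fun p : ℕ => p ∈ Rep b c n)).card : ℝ) < c₀ * (X / Real.log X ^ 2))).card : ℝ) ≤
    ε * (X : ℝ) ^ 2

open Classical in
/-- the theorem -/
def S_FIN : Prop := ∀ (b c : ℤ), Odd (b + c) → ¬ (3 : ℤ) ∣ b → ∀ (k : ℕ) (κ ε : ℝ), 0 < κ → 0 < ε →
  ∃ c₀ : ℝ, 0 < c₀ ∧ ∃ B N₀ : ℕ, ∀ N : ℕ, N₀ ≤ N →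
  (((Icc 1 N).filter (fun n : ℕ => Odd n ∧ ¬
    (c₀ * (√n / Real.log n ^ 2) ≤ (Rep b c n).ncard ∧
     ∀ S ⊆ Rep b c n, κ * (√n / Real.log n ^ 2) ≤ S.ncard →
      ∃ a d : ℕ, 1 ≤ d ∧ (d : ℝ) ≤ Real.log n ^ B ∧ ∀ i < k, a + i * d ∈ S))).card : ℝ) ≤ ε * N

end Pool.Agent.K3h89.SZ
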